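import Pool.Agent.Lib.MP_305fdd_al.F8.G.Pres
import Pool.Agent.Lib.MP_305fdd_al.F8.BG.DefsQ

/-!
# MP_305fdd_al, Bianchi group for `d = 2`: arithmetic of `ℤ[√-2]`

The norm, division with remainder, and the local structure of the set of the possible quotients.
-/

set_option autoImplicit false

namespace Pool.Agent.F8.BG.D2

open scoped QuadraticAlgebra

/-- `ℤ[w]`, `w² = -2` -/
abbrev O2 : Type := Qf (-2) 0 ℤ

/-- the norm of `x + y w` -/
def nm (z : O2) : ℤ := z.re ^ 2 + 2 * z.im ^ 2

theorem O_ext {z w : O2} (h1 : z.re = w.re) (h2 : z.im = w.im) : z = w :=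
  QuadraticAlgebra.ext h1 h2

theorem O_re_mul (z w : O2) : (z * w).re = z.re * w.re - 2 * (z.im * w.im) := by
  rw [QuadraticAlgebra.re_mul]; simp only [Int.cast_id]; ring

theorem O_im_mul (z w : O2) : (z * w).im = z.re * w.im + z.im * w.re := by
  rw [QuadraticAlgebra.im_mul]; simp only [Int.cast_id]; ring

theorem nm_mul (z w : O2) : nm (z * w) = nm z * nm w := by
  unfold nm
  rw [O_re_mul, O_im_mul]
  ring

theorem nm_nonneg (z : O2) : 0 ≤ nm z := by
  unfold nm
  positivity

theorem nm_zero : nm 0 = 0 := by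
  unfold nm
  simp

theorem nm_one : nm 1 = 1 := by
  unfold nm
  simp

theorem nm_neg (z : O2) : nm (-z) = nm z := by
  unfold nm
  rw [QuadraticAlgebra.re_neg, QuadraticAlgebra.im_neg]
  ring

theorem nm_eq_zero {z : O2} (h : nm z = 0) : z = 0 := by
  unfold nm at h
  have h1 : z.im = 0 := by
    have : z.im ^ 2 = 0 := by nlinarith [sq_nonneg z.re, sq_nonneg z.im]
    exact pow_eq_zero_iff (two_ne_zero) |>.1 this
  have h2 : z.re = 0 := by
    have : z.re ^ 2 = 0 := by nlinarith [sq_nonneg z.re, sq_nonneg z.im]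
    exact pow_eq_zero_iff (two_ne_zero) |>.1 this
  exact O_ext h2 h1

theorem nm_pos {z : O2} (h : z ≠ 0) : 0 < nm z := by
  rcases (nm_nonneg z).lt_or_eq with h1 | h1
  · exact h1
  · exact absurd (nm_eq_zero h1.symm) h

/-- parallelogram identity -/
theorem nm_par (x y : O2) : nm (x - y) + nm (x + y) = 2 * nm x + 2 * nm y := by
  unfold nm
  simp only [QuadraticAlgebra.re_sub, QuadraticAlgebra.im_sub, QuadraticAlgebra.re_add,
    QuadraticAlgebra.im_add]
  ring

/-- the norms of the remainders in terms of the quotient `P / nm c` -/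
theorem quot (a c : O2) : ∃ P : O2, ∀ q : O2, nm (a - q * c) * nm c =
    (P.re - q.re * nm c) ^ 2 + 2 * (P.im - q.im * nm c) ^ 2 := by
  refine ⟨a * ⟨c.re, -c.im⟩, fun q => ?_⟩
  unfold nm
  rw [QuadraticAlgebra.re_sub, QuadraticAlgebra.im_sub]
  simp only [O_re_mul, O_im_mul]
  ring

theorem near (P N : ℤ) (hN : 0 < N) : ∃ n : ℤ, |2 * (P - n * N)| ≤ N := by
  refine ⟨(2 * P + N) / (2 * N), ?_⟩
  have e1 := Int.emod_add_mul_ediv (2 * P + N) (2 * N)
  have e2 := Int.emod_nonneg (2 * P + N) (show (2 * N) ≠ 0 by omega)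
  have e3 := Int.emod_lt_of_pos (2 * P + N) (show 0 < 2 * N by omega)
  rw [abs_le]
  constructor <;> nlinarith

/-- division with remainder -/
theorem O_div (a c : O2) (hc : c ≠ 0) : ∃ q : O2, nm (a - q * c) < nm c := by
  have hN := nm_pos hc
  obtain ⟨P, hP⟩ := quot a c
  generalize nm c = N at *
  obtain ⟨n, hn⟩ := near P.im N hN
  obtain ⟨m, hm⟩ := near P.re N hN
  refine ⟨⟨m, n⟩, ?_⟩
  have h3 := hP ⟨m, n⟩
  simp only at h3
  generalize P.re - m * N = r at *
  generalize P.im - n * N = s at *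
  rw [abs_le] at hm hn
  have h7 : 4 * r ^ 2 ≤ N ^ 2 := by
    nlinarith [mul_nonneg (show 0 ≤ N - 2 * r by linarith)
      (show 0 ≤ N + 2 * r by linarith)]
  have h8 : 4 * s ^ 2 ≤ N ^ 2 := by
    nlinarith [mul_nonneg (show 0 ≤ N - 2 * s by linarith) (show 0 ≤ N + 2 * s by linarith)]
  by_contra hcon
  push Not at hcon
  nlinarith

/-- the two units -/
theorem unit_cases {v : O2} (h : nm v = 1) : v = 1 ∨ v = -1 := by
  unfold nm at h
  have h3 : v.im ≤ 0 := by nlinarith [sq_nonneg v.re]
  have h4 : 0 ≤ v.im := by nlinarith [sq_nonneg v.re]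
  have h1 : v.im = 0 := by omega
  rw [h1] at h
  have h7 : (v.re - 1) * (v.re + 1) = 0 := by nlinarith
  rcases mul_eq_zero.1 h7 with h6 | h6
  · left; exact O_ext (by rw [QuadraticAlgebra.re_one]; omega) h1
  · right
    exact O_ext (by rw [QuadraticAlgebra.re_neg, QuadraticAlgebra.re_one]; omega)
      (by rw [QuadraticAlgebra.im_neg, QuadraticAlgebra.im_one, h1]; rfl)

/-- the two elements of norm two -/
theorem two_cases {v : O2} (h : nm v = 2) : v = ⟨0, 1⟩ ∨ v = -⟨0, 1⟩ := by
  unfold nm at h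
  have h3 : v.im ≤ 1 := by nlinarith [sq_nonneg v.re]
  have h4 : -1 ≤ v.im := by nlinarith [sq_nonneg v.re]
  have h1 : v.re ≤ 1 := by nlinarith [sq_nonneg v.im]
  have h2 : -1 ≤ v.re := by nlinarith [sq_nonneg v.im]
  obtain ⟨r, s⟩ := v
  simp only at h h1 h2 h3 h4
  interval_cases r <;> interval_cases s <;> first | (exfalso; revert h; decide) | decide

/-- the elements of norm three are sums of an element of norm one and one of norm two -/
theorem three_cases {v : O2} (h : nm v = 3) : ∃ x y : O2, nm x = 1 ∧ nm y = 2 ∧ v = x + y ∧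
    x.re * y.re + 2 * (x.im * y.im) = 0 := by
  unfold nm at h
  have h3 : v.im ≤ 1 := by nlinarith [sq_nonneg v.re]
  have h4 : -1 ≤ v.im := by nlinarith [sq_nonneg v.re]
  have h1 : v.re ≤ 1 := by nlinarith [sq_nonneg v.im]
  have h2 : -1 ≤ v.re := by nlinarith [sq_nonneg v.im]
  refine ⟨⟨v.re, 0⟩, ⟨0, v.im⟩, ?_, ?_, ?_, by simp⟩
  · obtain ⟨r, s⟩ := v
    simp only at h h1 h2 h3 h4
    interval_cases r <;> interval_cases s <;> first | (exfalso; revert h; decide) | decide
  · obtain ⟨r, s⟩ := v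
    simp only at h h1 h2 h3 h4
    interval_cases r <;> interval_cases s <;> first | (exfalso; revert h; decide) | decide
  · apply O_ext <;> simp

/-- a remainder for elements of the same norm -/
theorem unit_step (a c : O2) (hc : c ≠ 0) (h : nm a = nm c) :
    ∃ v : O2, (nm v = 1 ∨ nm v = 2) ∧ nm (a - v * c) < nm c := by
  have hN := nm_pos hc
  obtain ⟨P, hP⟩ := quot a c
  by_contra hcon
  push Not at hcon
  have e0 := hP 0
  rw [zero_mul, sub_zero, h] at e0
  have e1 := hcon 1 (by decide)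
  have e2 := hcon (-1) (by decide)
  have e3 := hcon ⟨0, 1⟩ (by decide)
  have e4 := hcon ⟨0, -1⟩ (by decide)
  have f1 := mul_le_mul_of_nonneg_right e1 hN.le
  have f2 := mul_le_mul_of_nonneg_right e2 hN.le
  have f3 := mul_le_mul_of_nonneg_right e3 hN.le
  have f4 := mul_le_mul_of_nonneg_right e4 hN.le
  rw [hP] at f1 f2 f3 f4
  simp only [QuadraticAlgebra.re_one, QuadraticAlgebra.im_one, QuadraticAlgebra.re_neg,
    QuadraticAlgebra.im_neg, QuadraticAlgebra.re_zero, QuadraticAlgebra.im_zero] at e0 f1 f2 f3 f4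
  clear e1 e2 e3 e4 hcon hP
  generalize nm c = N at *
  generalize P.re = x at *
  generalize P.im = y at *
  have g1 : 2 * x ≤ N := by
    by_contra hh
    push Not at hh
    nlinarith
  have g2 : -N ≤ 2 * x := by
    by_contra hh
    push Not at hh
    nlinarith
  have g3 : 2 * y ≤ N := by
    by_contra hh
    push Not at hh
    nlinarith
  have g4 : -N ≤ 2 * y := by
    by_contra hh
    push Not at hh
    nlinarith
  have k3 : 4 * y ^ 2 ≤ N ^ 2 := by
    nlinarith [mul_nonneg (show 0 ≤ N - 2 * y by linarith)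
      (show 0 ≤ N + 2 * y by linarith)]
  have k4 : 4 * x ^ 2 ≤ N ^ 2 := by
    nlinarith [mul_nonneg (show 0 ≤ N - 2 * x by linarith)
      (show 0 ≤ N + 2 * x by linarith)]
  nlinarith

/-- one step between two possible quotients -/
def Adj (a c q q' : O2) : Prop := (nm (q - q') = 1 ∨ nm (q - q') = 2) ∧
  nm (a - q * c) < nm c ∧ nm (a - q' * c) < nm c

/-- two possible quotients are connected by at most two steps -/
theorem step_connect (a c : O2) (hc : c ≠ 0) (q q' : O2) (h : nm (a - q * c) < nm c)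
    (h' : nm (a - q' * c) < nm c) : q = q' ∨ Adj a c q q' ∨
      ∃ q'' : O2, Adj a c q q'' ∧ Adj a c q'' q' := by
  have hN := nm_pos hc
  have h1 : nm (q - q') * nm c < 4 * nm c := by
    rw [← nm_mul]
    have e : (q - q') * c = (a - q' * c) - (a - q * c) := by ring
    rw [e]
    have := nm_par (a - q' * c) (a - q * c)
    have := nm_nonneg ((a - q' * c) + (a - q * c))
    linarith
  have h2 : nm (q - q') < 4 := lt_of_mul_lt_mul_right h1 hN.le
  have h3 := nm_nonneg (q - q')
  rcases (show nm (q - q') = 0 ∨ nm (q - q') = 1 ∨ nm (q - q') = 2 ∨ nm (q - q') = 3 by omega)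
    with h5 | h5 | h5 | h5
  · left
    exact sub_eq_zero.1 (nm_eq_zero h5)
  · right; left; exact ⟨Or.inl h5, h, h'⟩
  · right; left; exact ⟨Or.inr h5, h, h'⟩
  · right; right
    obtain ⟨x, y, hx, hy, hv, ho⟩ := three_cases h5
    -- `q' = q - x - y`
    have hq' : q' = q - x - y := by
      have : q - (q - q') = q' := by ring
      rw [← this, hv]; ring
    have key : nm (a - (q - x) * c) + nm (a - (q - y) * c) =
        nm (a - q * c) + nm (a - q' * c) := by
      have e1 : a - (q - x) * c = (a - q * c) + x * c := by ring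
      have e2 : a - (q - y) * c = (a - q * c) + y * c := by ring
      have e3 : a - q' * c = (a - q * c) + x * c + y * c := by rw [hq']; ring
      rw [e1, e2, e3]
      generalize a - q * c = r
      unfold nm
      simp only [QuadraticAlgebra.re_add, QuadraticAlgebra.im_add, O_re_mul, O_im_mul]
      linear_combination (-2) * (c.re ^ 2 + 2 * c.im ^ 2) * ho
    by_cases hk : nm (a - (q - x) * c) < nm c
    · refine ⟨q - x, ⟨Or.inl ?_, h, hk⟩, ⟨Or.inr ?_, hk, h'⟩⟩
      · rw [sub_sub_cancel]; exact hx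
      · rw [hq', sub_sub_cancel]; exact hy
    · have hk' : nm (a - (q - y) * c) < nm c := by omega
      refine ⟨q - y, ⟨Or.inr ?_, h, hk'⟩, ⟨Or.inl ?_, hk', h'⟩⟩
      · rw [sub_sub_cancel]; exact hy
      · rw [hq', show q - y - (q - x - y) = x by ring]; exact hx

end Pool.Agent.F8.BG.D2
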