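import Pool.Agent.Lib.MP_305fdd_al.F8.BG.D2.Lin

/-!
# MP_305fdd_al, Bianchi group for `d = 2`: no cocycle modulo `7` on `G0`, main result
-/

set_option autoImplicit false
set_option linter.unusedSimpArgs false

namespace Pool.Agent.F8.BG.D2

open Pool.Agent.F8 Pool.Agent.F8.BG Pool.Agent.F8.AB
open scoped QuadraticAlgebra

/-- the unit `2` modulo `7` -/
def u7 : (ZMod 7)ˣ := ⟨2, 4, by decide, by decide⟩

/-- translations -/
def T7 : Subgroup (Q2 (ZMod 7)) where
  carrier := {x | x.t = 1 ∧ x.m = 1}
  one_mem' := ⟨rfl, rfl⟩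
  mul_mem' := by
    rintro x y ⟨a, b⟩ ⟨c, d⟩
    exact ⟨by rw [Q2.mul_t, a, c, one_mul], by rw [Q2.mul_m, b, d, one_mul]⟩
  inv_mem' := by
    rintro x ⟨a, b⟩
    exact ⟨by rw [Q2.inv_t, a, inv_one], by rw [Q2.inv_m, b, inv_one]⟩

theorem T7_mul {x y : Q2 (ZMod 7)} (hx : x ∈ T7) : (x * y).v = x.v + y.v := by
  rw [Q2.mul_v, hx.1, hx.2]
  simp

theorem T7_inv {x : Q2 (ZMod 7)} (hx : x ∈ T7) : (x⁻¹).v = -x.v := by
  rw [Q2.inv_v, hx.1, hx.2]
  simp

theorem T7_ext {x y : Q2 (ZMod 7)} (hx : x ∈ T7) (hy : y ∈ T7) (h : x.v = y.v) : x = y :=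
  Q2.ext (hx.1.trans hy.1.symm) (hx.2.trans hy.2.symm) h

theorem T7_conj {b x : Q2 (ZMod 7)} (hb : b.t = u7) (hb2 : b.m = 1) (hx : x ∈ T7) :
    (b * x * b⁻¹).v = (2 : ZMod 7) • x.v := by
  rw [Q2.mul_v, Q2.mul_v, Q2.inv_v, Q2.mul_t, Q2.mul_m, hx.1, hx.2, hb, hb2]
  have h2 : (u7 : (ZMod 7)ˣ).val = 2 := rfl
  have h4 : (u7⁻¹ : (ZMod 7)ˣ).val = 4 := rfl
  have h8 : (2 : ZMod 7) * 4 = 1 := by decide
  simp [h2, h4, smul_smul, h8]

theorem u7_zpow {n : ℤ} (h : u7 ^ n = 1) : (3 : ℤ) ∣ n := by
  have h3 : orderOf u7 = 3 := by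
    apply orderOf_eq_prime
    · decide
    · decide
  have := orderOf_dvd_iff_zpow_eq_one.2 h
  rw [h3] at this
  exact this

/-- the element given by a word -/
def wd {G : Type} [Group G] (x : Fin 9 → G) (L : List (Fin 9 × Bool)) : G :=
  (L.map fun p => if p.2 then x p.1 else (x p.1)⁻¹).prod

theorem wd_cons {G : Type} [Group G] (x : Fin 9 → G) (p : Fin 9 × Bool) (L : List (Fin 9 × Bool)) :
    wd x (p :: L) = (if p.2 then x p.1 else (x p.1)⁻¹) * wd x L := by
  unfold wd; rw [List.map_cons, List.prod_cons]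

theorem map_wd {G H : Type} [Group G] [Group H] (f : G →* H) (x : Fin 9 → G)
    (L : List (Fin 9 × Bool)) : f (wd x L) = wd (fun k => f (x k)) L := by
  induction L with
  | nil => exact map_one f
  | cons p L ih =>
    rw [wd_cons, wd_cons, map_mul, ih]
    obtain ⟨k, b⟩ := p
    cases b
    · simp
    · simp

/-- the sum given by a word -/
def sw (f : Fin 9 → ZMod 7) (L : List (Fin 9 × Bool)) : ZMod 7 :=
  (L.map fun p => if p.2 then f p.1 else -f p.1).sum

theorem sw_cons (f : Fin 9 → ZMod 7) (p : Fin 9 × Bool) (L : List (Fin 9 × Bool)) :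
    sw f (p :: L) = (if p.2 then f p.1 else -f p.1) + sw f L := by
  unfold sw; rw [List.map_cons, List.sum_cons]

theorem T7_wd (X : Fin 9 → Q2 (ZMod 7)) (hX : ∀ k, X k ∈ T7) (L : List (Fin 9 × Bool)) :
    wd X L ∈ T7 ∧ ∀ i, (wd X L).v i = sw (fun k => (X k).v i) L := by
  induction L with
  | nil => exact ⟨one_mem _, fun i => rfl⟩
  | cons p L ih =>
    obtain ⟨k, b⟩ := p
    rw [wd_cons]
    cases b
    · refine ⟨T7.mul_mem (T7.inv_mem (hX k)) ih.1, fun i => ?_⟩
      rw [sw_cons, ← ih.2 i]
      show ((X k)⁻¹ * wd X L).v i = -(X k).v i + (wd X L).v i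
      rw [T7_mul (T7.inv_mem (hX k)), T7_inv (hX k)]
      rfl
    · refine ⟨T7.mul_mem (hX k) ih.1, fun i => ?_⟩
      rw [sw_cons, ← ih.2 i]
      show (X k * wd X L).v i = (X k).v i + (wd X L).v i
      rw [T7_mul (hX k)]
      rfl

/-- the words -/
def L9 : Fin 9 → List (Fin 9 × Bool) :=
  ![[(0, false), (8, false), (1, false), (7, false), (2, false), (0, true)],
    [(0, false), (8, false), (1, true), (8, true), (0, true)],
    [(0, false), (8, false), (1, false), (7, false)],
    [(0, false), (8, false), (0, true)],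
    [(0, false), (8, false), (1, false), (7, false), (1, true), (8, true), (0, true)],
    [(0, false), (8, false), (4, false), (1, false), (7, true), (1, true), (8, true), (0, true)],
    [(0, false), (8, false), (1, false), (7, false), (3, false), (2, false), (8, true), (0, true)],
    [(0, false), (8, false), (7, false), (6, false), (8, true), (0, true)],
    [(0, false), (8, false), (1, false), (7, false), (0, false), (8, false), (5, false), (7, true), (1, true), (8, true), (0, true)]]

theorem v9_wd (k : Fin 9) : v9 k = wd z9 (L9 k) := by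
  fin_cases k
  · show v9 0 = wd z9 [(0, false), (8, false), (1, false), (7, false), (2, false), (0, true)]
    simp only [wd, List.map_cons, List.map_nil, List.prod_cons, List.prod_nil, mul_one, if_true]
    simp only [v9, Matrix.cons_val, mul_assoc]
    rfl
  · show v9 1 = wd z9 [(0, false), (8, false), (1, true), (8, true), (0, true)]
    simp only [wd, List.map_cons, List.map_nil, List.prod_cons, List.prod_nil, mul_one, if_true]
    simp only [v9, Matrix.cons_val, mul_assoc]
    rfl
  · show v9 2 = wd z9 [(0, false), (8, false), (1, false), (7, false)]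
    simp only [wd, List.map_cons, List.map_nil, List.prod_cons, List.prod_nil, mul_one, if_true]
    simp only [v9, Matrix.cons_val, mul_assoc]
    rfl
  · show v9 3 = wd z9 [(0, false), (8, false), (0, true)]
    simp only [wd, List.map_cons, List.map_nil, List.prod_cons, List.prod_nil, mul_one, if_true]
    simp only [v9, Matrix.cons_val, mul_assoc]
    rfl
  · show v9 4 = wd z9 [(0, false), (8, false), (1, false), (7, false), (1, true), (8, true), (0, true)]
    simp only [wd, List.map_cons, List.map_nil, List.prod_cons, List.prod_nil, mul_one, if_true]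
    simp only [v9, Matrix.cons_val, mul_assoc]
    rfl
  · show v9 5 = wd z9 [(0, false), (8, false), (4, false), (1, false), (7, true), (1, true), (8, true), (0, true)]
    simp only [wd, List.map_cons, List.map_nil, List.prod_cons, List.prod_nil, mul_one, if_true]
    simp only [v9, Matrix.cons_val, mul_assoc]
    rfl
  · show v9 6 = wd z9 [(0, false), (8, false), (1, false), (7, false), (3, false), (2, false), (8, true), (0, true)]
    simp only [wd, List.map_cons, List.map_nil, List.prod_cons, List.prod_nil, mul_one, if_true]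
    simp only [v9, Matrix.cons_val, mul_assoc]
    rfl
  · show v9 7 = wd z9 [(0, false), (8, false), (7, false), (6, false), (8, true), (0, true)]
    simp only [wd, List.map_cons, List.map_nil, List.prod_cons, List.prod_nil, mul_one, if_true]
    simp only [v9, Matrix.cons_val, mul_assoc]
    rfl
  · show v9 8 = wd z9 [(0, false), (8, false), (1, false), (7, false), (0, false), (8, false), (5, false), (7, true), (1, true), (8, true), (0, true)]
    simp only [wd, List.map_cons, List.map_nil, List.prod_cons, List.prod_nil, mul_one, if_true]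
    simp only [v9, Matrix.cons_val, mul_assoc]
    rfl

section main

variable {η : G0 →* G2} (hη : Eta2 η) {κ : G0 →* Q2 (ZMod 7)} (hm : Q2.mH.comp κ = 1)
  (ht : ∀ x, (κ x).t = u7 ^ nn (η x))

include hm in
theorem n7_m (x : G0) : (κ x).m = 1 := DFunLike.congr_fun hm x

include hm ht in
theorem n7_T {x : G0} {w : F5} (h : η x = iR al2 w) : κ x ∈ T7 := by
  refine ⟨?_, n7_m hm x⟩
  rw [ht, h, nn_F, zpow_zero]

include hη in
theorem n7_ex0 : ∃ x, η x = gt * gy 1 := hη.sur _ (by rw [map_mul, pr_t, pr_y]; decide)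

include ht in
theorem n7_t0 {x : G0} (h : η x = gt * gy 1) : (κ x).t = u7 := by
  rw [ht, h, nn_mul, nn_t, nn_F]
  rfl

include hη in
theorem n7_exF {w : F5} (h : pF w = 1) : ∃ x, η x = iR al2 w := hη.sur _ (by rw [pr_F, h])

include hη hm ht in
theorem n7_ker {x : G0} (h : η x = 1) : κ x = 1 := by
  rcases (hη.ker x).mp h with h1 | h1
  · have : x = 1 := Subtype.ext h1
    rw [this, map_one]
  · have hT : κ x ∈ T7 := n7_T hm ht (w := 1) (by rw [h, map_one])
    have e : κ x * κ x = 1 := by
      rw [← map_mul, ← map_one κ]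
      congr 1
      apply Subtype.ext
      show x.val * x.val = 1
      rw [h1, neg_mul_neg, one_mul]
    apply T7_ext hT (one_mem _)
    have e2 : (κ x).v + (κ x).v = 0 := by
      rw [← T7_mul hT, e]; rfl
    have h3 : ∀ a : ZMod 7, a + a = 0 → a = 0 := by decide
    funext i
    exact h3 _ (congrFun e2 i)

include hη hm ht in
theorem n7_eq {x y : G0} (h : η x = η y) : κ x = κ y := by
  have : κ (x * y⁻¹) = 1 := n7_ker hη hm ht (by rw [map_mul, map_inv, h, mul_inv_cancel])
  rw [map_mul, map_inv] at this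
  exact mul_inv_eq_one.mp this

include hη hm ht in
theorem n7_main (w : F5) (h0 : pF w = 1) : ∃ x, η x = iR al2 w ∧ κ x = 1 := by
  obtain ⟨x0', e0⟩ := n7_ex0 hη
  have ex : ∀ k, ∃ x, η x = iR al2 (z9 k) := fun k => n7_exF hη (pF_z9 k)
  choose x hx using ex
  have tx : ∀ k, κ (x k) ∈ T7 := fun k => n7_T hm ht (hx k)
  have cj : ∀ (k : Fin 9) (i : Fin 2), 2 * (κ (x k)).v i =
      sw (fun k => (κ (x k)).v i) (L9 k) := by
    intro k i
    have h1 : (2 : ZMod 7) • (κ (x k)).v = (κ (wd x (L9 k))).v := by
      rw [← T7_conj (n7_t0 ht e0) (n7_m hm x0') (tx k), ← map_mul, ← map_inv, ← map_mul]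
      congr 1
      apply n7_eq hη hm ht
      have h2 : (fun k => η (x k)) = fun k => iR al2 (z9 k) := funext hx
      rw [map_wd, h2, ← map_wd, ← v9_wd, ← al2_z9, ← tR_conj, map_mul, map_mul, map_inv, hx, e0]
      simp only [map_mul, map_inv]
      group
    rw [map_wd] at h1
    rw [← (T7_wd (fun k => κ (x k)) tx (L9 k)).2 i, ← h1]
    rfl
  have hz : ∀ (i : Fin 2) (k : Fin 9), (κ (x k)).v i = 0 := by
    intro i
    have c := fun k => cj k i
    refine lin9 (fun k => (κ (x k)).v i) ?_ ?_ ?_ ?_ ?_ ?_ ?_ ?_ ?_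
    · refine (c 0).trans ?_
      show sw (fun k => (κ (x k)).v i) [(0, false), (8, false), (1, false), (7, false), (2, false), (0, true)] = _
      simp only [sw, List.map_cons, List.map_nil, List.sum_cons, List.sum_nil, if_true]
      ring_nf
      simp
      try ring
    · refine (c 1).trans ?_
      show sw (fun k => (κ (x k)).v i) [(0, false), (8, false), (1, true), (8, true), (0, true)] = _
      simp only [sw, List.map_cons, List.map_nil, List.sum_cons, List.sum_nil, if_true]
      ring_nf
      simp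
      try ring
    · refine (c 2).trans ?_
      show sw (fun k => (κ (x k)).v i) [(0, false), (8, false), (1, false), (7, false)] = _
      simp only [sw, List.map_cons, List.map_nil, List.sum_cons, List.sum_nil, if_true]
      ring_nf
      simp
      try ring
    · refine (c 3).trans ?_
      show sw (fun k => (κ (x k)).v i) [(0, false), (8, false), (0, true)] = _
      simp only [sw, List.map_cons, List.map_nil, List.sum_cons, List.sum_nil, if_true]
      ring_nf
      simp
      try ring
    · refine (c 4).trans ?_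
      show sw (fun k => (κ (x k)).v i) [(0, false), (8, false), (1, false), (7, false), (1, true), (8, true), (0, true)] = _
      simp only [sw, List.map_cons, List.map_nil, List.sum_cons, List.sum_nil, if_true]
      ring_nf
      simp
      try ring
    · refine (c 5).trans ?_
      show sw (fun k => (κ (x k)).v i) [(0, false), (8, false), (4, false), (1, false), (7, true), (1, true), (8, true), (0, true)] = _
      simp only [sw, List.map_cons, List.map_nil, List.sum_cons, List.sum_nil, if_true]
      ring_nf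
      simp
      try ring
    · refine (c 6).trans ?_
      show sw (fun k => (κ (x k)).v i) [(0, false), (8, false), (1, false), (7, false), (3, false), (2, false), (8, true), (0, true)] = _
      simp only [sw, List.map_cons, List.map_nil, List.sum_cons, List.sum_nil, if_true]
      ring_nf
      simp
      try ring
    · refine (c 7).trans ?_
      show sw (fun k => (κ (x k)).v i) [(0, false), (8, false), (7, false), (6, false), (8, true), (0, true)] = _
      simp only [sw, List.map_cons, List.map_nil, List.sum_cons, List.sum_nil, if_true]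
      ring_nf
      simp
      try ring
    · refine (c 8).trans ?_
      show sw (fun k => (κ (x k)).v i) [(0, false), (8, false), (1, false), (7, false), (0, false), (8, false), (5, false), (7, true), (1, true), (8, true), (0, true)] = _
      simp only [sw, List.map_cons, List.map_nil, List.sum_cons, List.sum_nil, if_true]
      ring_nf
      simp
      try ring
  have k1 : ∀ k, κ (x k) = 1 := fun k =>
    T7_ext (tx k) (one_mem _) (funext fun i => hz i k)
  exact z9_top ((κ.ker.map η).comap (iR al2)) (fun k => ⟨x k, k1 k, hx k⟩) w h0 |>.imp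
    fun x hx => ⟨hx.2, hx.1⟩

end main

/-- MAIN RESULT: there is no cocycle modulo `7` -/
theorem no7 {η : G0 →* G2} (hη : Eta2 η) (κ : G0 →* Q2 (ZMod 7)) (hm : Q2.mH.comp κ = 1)
    (ht : ∀ x, (κ x).t = u7 ^ nn (η x)) (x : G0) (hx : (κ x).t = 1) : κ x = 1 := by
  obtain ⟨x0', e0⟩ := n7_ex0 hη
  obtain ⟨m, hn⟩ : (3 : ℤ) ∣ nn (η x) := u7_zpow (by rw [← ht, hx])
  have h1 : nn (η (x * (x0' ^ (3 * m))⁻¹)) = 0 := by
    have e1 : ∀ k : ℤ, nn (η (x0' ^ k)) = k := by
      intro k
      have h0 : nn (η x0') = 1 := by rw [e0, nn_mul, nn_t, nn_F]; rfl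
      unfold nn at h0 ⊢
      rw [map_zpow, map_zpow, toAdd_zpow, h0, smul_eq_mul, mul_one]
    rw [map_mul, nn_mul, map_inv, nn_inv, e1, hn]
    ring
  obtain ⟨w, hw⟩ := GR_ker al2 (η (x * (x0' ^ (3 * m))⁻¹)) (by
    unfold nn at h1
    exact Multiplicative.toAdd.injective h1)
  have hp : pF w = 1 := by
    rw [← pr_F, ← hw]
    exact (hη.lb _).2.2
  obtain ⟨x1, e1, k1⟩ := n7_main hη hm ht w hp
  have h3 : κ x0' ^ 3 = 1 := by
    have hb := n7_t0 ht e0
    have hb2 := n7_m hm x0'
    have h2 : (u7 : (ZMod 7)ˣ).val = 2 := rfl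
    apply Q2.ext
    · rw [pow_succ, pow_two, Q2.mul_t, Q2.mul_t, hb]; decide
    · rw [pow_succ, pow_two, Q2.mul_m, Q2.mul_m, hb2]; simp
    · rw [pow_succ, pow_two, Q2.mul_v, Q2.mul_v, Q2.mul_t, Q2.mul_m, hb, hb2]
      funext i
      simp [h2]
      have h7 : (7 : ZMod 7) = 0 := by decide
      linear_combination ((κ x0').v i) * h7
  have h4 : κ (x * (x0' ^ (3 * m))⁻¹) = 1 := by
    rw [n7_eq hη hm ht (hw.trans e1.symm), k1]
  rw [map_mul, map_inv, map_zpow, zpow_mul] at h4
  have h5 : κ x0' ^ (3 : ℤ) = 1 := by exact_mod_cast h3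
  rw [h5, one_zpow, inv_one, mul_one] at h4
  exact h4

end Pool.Agent.F8.BG.D2
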