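import Pool.Agent.Lib.MP_305fdd_al.F8.BG.D2.Pres

/-!
# MP_305fdd_al, Bianchi group for `d = 2`: the coset table

`PSL₂(O2)` acts on the twelve cosets of the image of a subgroup; the monomial permutations `pA, pU, pB`
over a group with elements satisfying the relations `RelN` of a free-by-cyclic group satisfy the
relations of `PSL₂(O2)`.
-/

set_option autoImplicit false
set_option linter.unusedSimpArgs false

namespace Pool.Agent.F8.BG.D2

/-- the relations of the free-by-cyclic group -/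
structure RelN (G : Type) [Group G] (t a b c d e : G) : Prop where
  r1 : t * a = b⁻¹ * (e⁻¹ * t)
  r2 : t * b = a⁻¹ * (e⁻¹ * t)
  r3 : t * c = e⁻¹ * t
  r4 : t * d = c⁻¹ * (b⁻¹ * t)
  r5 : t * e = a⁻¹ * (e⁻¹ * (d⁻¹ * t))

section

variable {G : Type} [Group G] {t a b c d e : G}

namespace RelN

variable (h : RelN G t a b c d e)
include h

theorem t_a (x : G) : t * (a * x) = b⁻¹ * (e⁻¹ * (t * x)) := by
  rw [← mul_assoc, h.r1]; simp only [mul_assoc]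

theorem t_b (x : G) : t * (b * x) = a⁻¹ * (e⁻¹ * (t * x)) := by
  rw [← mul_assoc, h.r2]; simp only [mul_assoc]

theorem t_c (x : G) : t * (c * x) = e⁻¹ * (t * x) := by
  rw [← mul_assoc, h.r3]; simp only [mul_assoc]

theorem t_d (x : G) : t * (d * x) = c⁻¹ * (b⁻¹ * (t * x)) := by
  rw [← mul_assoc, h.r4]; simp only [mul_assoc]

theorem t_e (x : G) : t * (e * x) = a⁻¹ * (e⁻¹ * (d⁻¹ * (t * x))) := by
  rw [← mul_assoc, h.r5]; simp only [mul_assoc]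

theorem t_a' (x : G) : t * (a⁻¹ * x) = e * (b * (t * x)) := by
  have := h.t_a (a⁻¹ * x)
  rw [mul_inv_cancel_left] at this
  rw [this]; group

theorem t_b' (x : G) : t * (b⁻¹ * x) = e * (a * (t * x)) := by
  have := h.t_b (b⁻¹ * x)
  rw [mul_inv_cancel_left] at this
  rw [this]; group

theorem t_c' (x : G) : t * (c⁻¹ * x) = e * (t * x) := by
  have := h.t_c (c⁻¹ * x)
  rw [mul_inv_cancel_left] at this
  rw [this]; group

theorem t_d' (x : G) : t * (d⁻¹ * x) = b * (c * (t * x)) := by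
  have := h.t_d (d⁻¹ * x)
  rw [mul_inv_cancel_left] at this
  rw [this]; group

theorem t_e' (x : G) : t * (e⁻¹ * x) = d * (e * (a * (t * x))) := by
  have := h.t_e (e⁻¹ * x)
  rw [mul_inv_cancel_left] at this
  rw [this]; group

theorem t'_a (x : G) : t⁻¹ * (a * x) = c * (b⁻¹ * (t⁻¹ * x)) := by
  rw [inv_mul_eq_iff_eq_mul, h.t_c, h.t_b', mul_inv_cancel_left]
  group

theorem t'_b (x : G) : t⁻¹ * (b * x) = c * (a⁻¹ * (t⁻¹ * x)) := by
  rw [inv_mul_eq_iff_eq_mul, h.t_c, h.t_a', mul_inv_cancel_left]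
  group

theorem t'_c (x : G) : t⁻¹ * (c * x) = a * (c⁻¹ * (d⁻¹ * (t⁻¹ * x))) := by
  rw [inv_mul_eq_iff_eq_mul, h.t_a, h.t_c', h.t_d', mul_inv_cancel_left]
  group

theorem t'_d (x : G) : t⁻¹ * (d * x) = e⁻¹ * (b * (t⁻¹ * x)) := by
  rw [inv_mul_eq_iff_eq_mul, h.t_e', h.t_b, mul_inv_cancel_left]
  group

theorem t'_e (x : G) : t⁻¹ * (e * x) = c⁻¹ * (t⁻¹ * x) := by
  rw [inv_mul_eq_iff_eq_mul, h.t_c', mul_inv_cancel_left]

theorem t'_a' (x : G) : t⁻¹ * (a⁻¹ * x) = b * (c⁻¹ * (t⁻¹ * x)) := by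
  have := h.t'_a (a⁻¹ * x)
  rw [mul_inv_cancel_left] at this
  rw [this]; group

theorem t'_b' (x : G) : t⁻¹ * (b⁻¹ * x) = a * (c⁻¹ * (t⁻¹ * x)) := by
  have := h.t'_b (b⁻¹ * x)
  rw [mul_inv_cancel_left] at this
  rw [this]; group

theorem t'_c' (x : G) : t⁻¹ * (c⁻¹ * x) = d * (c * (a⁻¹ * (t⁻¹ * x))) := by
  have := h.t'_c (c⁻¹ * x)
  rw [mul_inv_cancel_left] at this
  rw [this]; group

theorem t'_d' (x : G) : t⁻¹ * (d⁻¹ * x) = b⁻¹ * (e * (t⁻¹ * x)) := by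
  have := h.t'_d (d⁻¹ * x)
  rw [mul_inv_cancel_left] at this
  rw [this]; group

theorem t'_e' (x : G) : t⁻¹ * (e⁻¹ * x) = c * (t⁻¹ * x) := by
  have := h.t'_e (e⁻¹ * x)
  rw [mul_inv_cancel_left] at this
  rw [this]; group

end RelN

/-- monomial permutations -/
def mkP (s s' : Fin 12 → Fin 12) (h1 : ∀ i, s' (s i) = i) (h2 : ∀ i, s (s' i) = i)
    (k : Fin 12 → G) : Equiv.Perm (Fin 12 × G) where
  toFun p := (s p.1, k p.1 * p.2)
  invFun p := (s' p.1, (k (s' p.1))⁻¹ * p.2)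
  left_inv p := by
    obtain ⟨i, y⟩ := p
    simp only [h1, inv_mul_cancel_left]
  right_inv p := by
    obtain ⟨i, y⟩ := p
    simp only [h2, mul_inv_cancel_left]

theorem mkP_apply (s s' : Fin 12 → Fin 12) (h1 : ∀ i, s' (s i) = i) (h2 : ∀ i, s (s' i) = i)
    (k : Fin 12 → G) (i : Fin 12) (y : G) : mkP s s' h1 h2 k (i, y) = (s i, k i * y) := rfl

theorem mkP_inv (s s' : Fin 12 → Fin 12) (h1 : ∀ i, s' (s i) = i) (h2 : ∀ i, s (s' i) = i)
    (k : Fin 12 → G) (i : Fin 12) (y : G) :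
    (mkP s s' h1 h2 k)⁻¹ (i, y) = (s' i, (k (s' i))⁻¹ * y) := rfl

variable (t a b c d e)

/-- the permutation of `A` -/
def sA : Fin 12 → Fin 12 := ![2, 4, 3, 0, 6, 1, 9, 5, 10, 7, 8, 11]
/-- its inverse -/
def sA' : Fin 12 → Fin 12 := ![3, 5, 0, 2, 1, 7, 4, 9, 10, 6, 8, 11]
/-- the coefficients of `A` -/
def cA : Fin 12 → G := ![1, 1, a⁻¹ * t⁻¹, 1, t⁻¹ * (c⁻¹ * t⁻¹), 1, t * b⁻¹, t⁻¹ * (c⁻¹ * t⁻¹), 1, t⁻¹ * t⁻¹, t * (a * (t * (t * (e⁻¹ * (t * t))))), t * d⁻¹]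
/-- the permutation of `U` -/
def sU : Fin 12 → Fin 12 := ![3, 6, 0, 2, 9, 4, 7, 1, 8, 5, 10, 11]
/-- its inverse -/
def sU' : Fin 12 → Fin 12 := ![2, 7, 3, 0, 5, 9, 1, 6, 8, 4, 10, 11]
/-- the coefficients of `U` -/
def cU : Fin 12 → G := ![c⁻¹ * (t⁻¹ * t⁻¹), 1, c⁻¹ * (t⁻¹ * t⁻¹), b⁻¹ * t⁻¹, t * b⁻¹, e⁻¹ * (t * t), a * t, 1, t⁻¹ * d⁻¹, t⁻¹ * t⁻¹, t⁻¹ * d⁻¹, t * (e⁻¹ * (t * (t * (t * (a * t)))))]
/-- the permutation of `B` -/
def sB : Fin 12 → Fin 12 := ![1, 0, 8, 7, 9, 10, 11, 3, 2, 4, 5, 6]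
/-- its inverse -/
def sB' : Fin 12 → Fin 12 := ![1, 0, 8, 7, 9, 10, 11, 3, 2, 4, 5, 6]
/-- the coefficients of `B` -/
def cB : Fin 12 → G := ![1, 1, 1, t⁻¹ * t⁻¹, 1, 1, 1, t * t, 1, 1, 1, 1]

/-- the monomial permutation of `A` -/
def pA : Equiv.Perm (Fin 12 × G) := mkP sA sA' (by decide) (by decide) (cA t a b c d e)
/-- the monomial permutation of `U` -/
def pU : Equiv.Perm (Fin 12 × G) := mkP sU sU' (by decide) (by decide) (cU t a b c d e)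
/-- the monomial permutation of `B` -/
def pB : Equiv.Perm (Fin 12 × G) := mkP sB sB' (by decide) (by decide) (cB t)

variable {t a b c d e}

theorem table_c1 (h : RelN G t a b c d e) :
    pA t a b c d e * pU t a b c d e = pU t a b c d e * pA t a b c d e := by
  apply Equiv.ext
  rintro ⟨i, y⟩
  simp only [Equiv.Perm.mul_apply, Equiv.Perm.one_apply, pA, pU, pB, mkP_apply, mkP_inv]
  fin_cases i <;>
    simp [sA, sA', cA, sU, sU', cU, sB, sB', cB, mul_assoc, h.t_a, h.t_b, h.t_c, h.t_d, h.t_e, h.t_a', h.t_b', h.t_c', h.t_d', h.t_e', h.t'_a, h.t'_b, h.t'_c, h.t'_d, h.t'_e, h.t'_a', h.t'_b', h.t'_c', h.t'_d', h.t'_e']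

theorem table_c2 :
    pB t * pB t = 1 := by
  apply Equiv.ext
  rintro ⟨i, y⟩
  simp only [Equiv.Perm.mul_apply, Equiv.Perm.one_apply, pA, pU, pB, mkP_apply, mkP_inv]
  fin_cases i <;>
    simp [sA, sA', cA, sU, sU', cU, sB, sB', cB, mul_assoc]

theorem table_c3 (h : RelN G t a b c d e) :
    pA t a b c d e * pB t * pA t a b c d e * pB t * pA t a b c d e * pB t = 1 := by
  apply Equiv.ext
  rintro ⟨i, y⟩
  simp only [Equiv.Perm.mul_apply, Equiv.Perm.one_apply, pA, pU, pB, mkP_apply, mkP_inv]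
  fin_cases i <;>
    simp [sA, sA', cA, sU, sU', cU, sB, sB', cB, mul_assoc, h.t_a, h.t_b, h.t_c, h.t_d, h.t_e, h.t_a', h.t_b', h.t_c', h.t_d', h.t_e', h.t'_a, h.t'_b, h.t'_c, h.t'_d, h.t'_e, h.t'_a', h.t'_b', h.t'_c', h.t'_d', h.t'_e']

theorem table_c4 (h : RelN G t a b c d e) :
    pB t * (pU t a b c d e)⁻¹ * pB t * pU t a b c d e * pB t * (pU t a b c d e)⁻¹ * pB t * pU t a b c d e = 1 := by
  apply Equiv.ext
  rintro ⟨i, y⟩
  simp only [Equiv.Perm.mul_apply, Equiv.Perm.one_apply, pA, pU, pB, mkP_apply, mkP_inv]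
  fin_cases i <;>
    simp [sA, sA', cA, sU, sU', cU, sB, sB', cB, mul_assoc, h.t_a, h.t_b, h.t_c, h.t_d, h.t_e, h.t_a', h.t_b', h.t_c', h.t_d', h.t_e', h.t'_a, h.t'_b, h.t'_c, h.t'_d, h.t'_e, h.t'_a', h.t'_b', h.t'_c', h.t'_d', h.t'_e']

theorem table (h : RelN G t a b c d e) : Rel (Equiv.Perm (Fin 12 × G)) (pA t a b c d e)
    (pU t a b c d e) (pB t) :=
  ⟨table_c1 h, table_c2, table_c3 h, table_c4 h⟩

end

end Pool.Agent.F8.BG.D2
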