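import Pool.Agent.Lib.MP_305fdd_al.F8.BG.DefsQ
import Pool.Agent.Lib.MP_305fdd_al.F8.BG.D2.Table

/-!
# MP_305fdd_al, Bianchi group for `d = 2`: the automorphism `al2` of the free group of rank five

`y1 ↦ y2⁻¹ y5⁻¹`, `y2 ↦ y1⁻¹ y5⁻¹`, `y3 ↦ y5⁻¹`, `y4 ↦ y3⁻¹ y2⁻¹`, `y5 ↦ y1⁻¹ y5⁻¹ y4⁻¹`; its square is positive
(`pos2`). `cc = y1⁻¹ y2` is an element of a basis, `gg = y1⁻¹ y5⁻¹`, and `gg * al2 cc * gg⁻¹ = cc`.
-/

set_option autoImplicit false
set_option linter.unusedSimpArgs false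

namespace Pool.Agent.F8.BG.D2

open Pool.Agent.F8.BG

/-- the free group of rank five -/
abbrev F5 : Type := FreeGroup (Fin 5)

/-- the generators -/
abbrev y (i : Fin 5) : F5 := FreeGroup.of i

/-- the images of the generators -/
def aw : Fin 5 → F5 :=
  ![(y 1)⁻¹ * (y 4)⁻¹, (y 0)⁻¹ * (y 4)⁻¹, (y 4)⁻¹, (y 2)⁻¹ * (y 1)⁻¹, (y 0)⁻¹ * (y 4)⁻¹ * (y 3)⁻¹]

/-- the images of the generators under the inverse -/
def aw' : Fin 5 → F5 :=
  ![y 2 * (y 1)⁻¹, y 2 * (y 0)⁻¹, y 0 * (y 2)⁻¹ * (y 3)⁻¹, (y 4)⁻¹ * y 1, (y 2)⁻¹]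

theorem aw_aw' (i : Fin 5) : FreeGroup.lift aw (aw' i) = y i := by
  fin_cases i <;> simp [aw', aw, FreeGroup.lift_apply_of] <;> group

theorem aw'_aw (i : Fin 5) : FreeGroup.lift aw' (aw i) = y i := by
  fin_cases i <;> simp [aw', aw, FreeGroup.lift_apply_of] <;> group

/-- the automorphism -/
def al2 : MulAut F5 where
  toFun := FreeGroup.lift aw
  invFun := FreeGroup.lift aw'
  left_inv x := by
    have h : (FreeGroup.lift aw').comp (FreeGroup.lift aw) = MonoidHom.id F5 := by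
      apply FreeGroup.ext_hom
      intro i
      rw [MonoidHom.comp_apply, FreeGroup.lift_apply_of, aw'_aw]; rfl
    exact DFunLike.congr_fun h x
  right_inv x := by
    have h : (FreeGroup.lift aw).comp (FreeGroup.lift aw') = MonoidHom.id F5 := by
      apply FreeGroup.ext_hom
      intro i
      rw [MonoidHom.comp_apply, FreeGroup.lift_apply_of, aw_aw']; rfl
    exact DFunLike.congr_fun h x
  map_mul' := map_mul _

theorem al2_of (i : Fin 5) : al2 (y i) = aw i := FreeGroup.lift_apply_of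

theorem al2_0 : al2 (y 0) = (y 1)⁻¹ * (y 4)⁻¹ := al2_of 0
theorem al2_1 : al2 (y 1) = (y 0)⁻¹ * (y 4)⁻¹ := al2_of 1
theorem al2_2 : al2 (y 2) = (y 4)⁻¹ := al2_of 2
theorem al2_3 : al2 (y 3) = (y 2)⁻¹ * (y 1)⁻¹ := al2_of 3
theorem al2_4 : al2 (y 4) = (y 0)⁻¹ * (y 4)⁻¹ * (y 3)⁻¹ := al2_of 4

/-- the words of the square -/
def w2 : Fin 5 → List (Fin 5) :=
  ![[4, 0, 3, 4, 0], [4, 1, 3, 4, 0], [3, 4, 0], [4, 4, 0], [4, 1, 3, 4, 0, 1, 2]]

theorem al2_sq (i : Fin 5) : (al2 ^ 2) (y i) = pw (w2 i) := by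
  rw [pow_two, MulAut.mul_apply]
  have h4 : pw (w2 i) = pw (w2 i) := rfl
  fin_cases i
  · show al2 (al2 (y 0)) = pw [4, 0, 3, 4, 0]
    rw [al2_0]
    simp only [map_mul, map_inv, al2_0, al2_1, al2_2, al2_3, al2_4, pw_cons, pw_nil]
    group
  · show al2 (al2 (y 1)) = pw [4, 1, 3, 4, 0]
    rw [al2_1]
    simp only [map_mul, map_inv, al2_0, al2_1, al2_2, al2_3, al2_4, pw_cons, pw_nil]
    group
  · show al2 (al2 (y 2)) = pw [3, 4, 0]
    rw [al2_2]
    simp only [map_mul, map_inv, al2_0, al2_1, al2_2, al2_3, al2_4, pw_cons, pw_nil]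
    group
  · show al2 (al2 (y 3)) = pw [4, 4, 0]
    rw [al2_3]
    simp only [map_mul, map_inv, al2_0, al2_1, al2_2, al2_3, al2_4, pw_cons, pw_nil]
    group
  · show al2 (al2 (y 4)) = pw [4, 1, 3, 4, 0, 1, 2]
    rw [al2_4]
    simp only [map_mul, map_inv, al2_0, al2_1, al2_2, al2_3, al2_4, pw_cons, pw_nil]
    group

/-- the turns of the square, as a relation on the ends of the edges -/
theorem turns (b a : Fin 5) (i : Fin 5) (h : [b, a] <:+: w2 i) : Turn w2 b a := Turn.base i b a h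

theorem turn24 : Turn w2 2 4 :=
  Turn.step 4 0 2 4 (Turn.base 0 4 0 (by decide)) (by decide) (by decide)

theorem con2 (x : Fin 5 ⊕ Fin 5) : Relation.EqvGen
    (fun x y : Fin 5 ⊕ Fin 5 => ∃ b a, x = Sum.inl b ∧ y = Sum.inr a ∧ Turn w2 b a) x
    (Sum.inl 4) := by
  have e : ∀ b a : Fin 5, Turn w2 b a → Relation.EqvGen
      (fun x y : Fin 5 ⊕ Fin 5 => ∃ b a, x = Sum.inl b ∧ y = Sum.inr a ∧ Turn w2 b a)
      (Sum.inl b) (Sum.inr a) := fun b a h => Relation.EqvGen.rel _ _ ⟨b, a, rfl, rfl, h⟩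
  have r0 := (e 4 0 (turns 4 0 0 (by decide))).symm _ _
  have r1 := (e 4 1 (turns 4 1 1 (by decide))).symm _ _
  have r4 := (e 4 4 (turns 4 4 3 (by decide))).symm _ _
  have l0 := (e 0 1 (turns 0 1 4 (by decide))).trans _ _ _ r1
  have l3 := (e 3 4 (turns 3 4 0 (by decide))).trans _ _ _ r4
  have l2 := (e 2 4 turn24).trans _ _ _ r4
  have r3 := ((e 0 3 (turns 0 3 0 (by decide))).symm _ _).trans _ _ _ l0
  have l1 := (e 1 3 (turns 1 3 1 (by decide))).trans _ _ _ r3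
  have r2 := ((e 1 2 (turns 1 2 4 (by decide))).symm _ _).trans _ _ _ l1
  rcases x with i | i
  · fin_cases i
    · exact l0
    · exact l1
    · exact l2
    · exact l3
    · exact Relation.EqvGen.refl _
  · fin_cases i
    · exact r0
    · exact r1
    · exact r2
    · exact r3
    · exact r4

/-- the square is positive -/
theorem pos2 : Pos (al2 ^ 2) w2 where
  eq := al2_sq
  irr := by
    intro i j
    have h1 : (4 : Fin 5) ∈ w2 i := by revert i; decide
    have h2 : j ∈ w2 4 := by revert j; decide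
    exact (Relation.ReflTransGen.single h1).tail h2
  con := fun x y => (con2 x).trans _ _ _ ((con2 y).symm _ _)

/-- an element of a basis, parabolic -/
def cc : F5 := (y 0)⁻¹ * y 1

/-- `gg * al2 cc * gg⁻¹ = cc` -/
def gg : F5 := (y 0)⁻¹ * (y 4)⁻¹

theorem cc_conj : gg * al2 cc * gg⁻¹ = cc := by
  unfold cc gg
  simp only [map_mul, map_inv, al2_0, al2_1]
  group

/-- the images of the basis -/
def tw : Fin 5 → F5 := ![y 0, (y 0)⁻¹ * y 1, y 2, y 3, y 4]
/-- the inverse -/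
def tw' : Fin 5 → F5 := ![y 0, y 0 * y 1, y 2, y 3, y 4]

theorem cc_prim : Prim cc := by
  have h1 : (FreeGroup.lift tw').comp (FreeGroup.lift tw) = MonoidHom.id F5 := by
    apply FreeGroup.ext_hom
    intro i
    rw [MonoidHom.comp_apply, FreeGroup.lift_apply_of]
    fin_cases i <;> simp [tw, tw', FreeGroup.lift_apply_of]
  have h2 : (FreeGroup.lift tw).comp (FreeGroup.lift tw') = MonoidHom.id F5 := by
    apply FreeGroup.ext_hom
    intro i
    rw [MonoidHom.comp_apply, FreeGroup.lift_apply_of]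
    fin_cases i <;> simp [tw, tw', FreeGroup.lift_apply_of]
  refine ⟨MonoidHom.toMulEquiv (FreeGroup.lift tw) (FreeGroup.lift tw') h1 h2, 1, ?_⟩
  show FreeGroup.lift tw (FreeGroup.of 1) = cc
  rw [FreeGroup.lift_apply_of]; rfl

/-! ### The generators of `GR al2` -/

/-- `F5 ⋊ ℤ` -/
abbrev G2 : Type := GR al2

/-- `t` -/
abbrev gt : G2 := tR al2
/-- the free generators -/
abbrev gy (i : Fin 5) : G2 := iR al2 (y i)

theorem relN : RelN G2 gt (gy 0) (gy 1) (gy 2) (gy 3) (gy 4) := by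
  refine ⟨?_, ?_, ?_, ?_, ?_⟩
  · rw [tR_mul, al2_0]; simp only [map_mul, map_inv, mul_assoc]
  · rw [tR_mul, al2_1]; simp only [map_mul, map_inv, mul_assoc]
  · rw [tR_mul, al2_2]; simp only [map_inv]
  · rw [tR_mul, al2_3]; simp only [map_mul, map_inv, mul_assoc]
  · rw [tR_mul, al2_4]; simp only [map_mul, map_inv, mul_assoc]

end Pool.Agent.F8.BG.D2
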