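import Pool.Agent.Lib.MP_305fdd_al.F8.BG.D2.Gen

/-!
# MP_305fdd_al, Bianchi group for `d = 2`: the homomorphism `G0 → F5 ⋊ ℤ`

`exEta`: there is a homomorphism `η : G0 →* G2` with kernel `±1`, whose image consists of the elements of even parity,
compatible with the matrices (`jj`) and with the labels (`LBS`); `etaQ`: it has the properties `EtaQ`.
-/

set_option autoImplicit false
set_option linter.unusedSimpArgs false

namespace Pool.Agent.F8.BG.D2

open Pool.Agent.F8 Pool.Agent.F8.BG Pool.Agent.F8.AB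
open Pool.Agent.F8.G (SL_ext SL_mul SL_det SL_neg mU00 mU01 mU10 mU11 mB00 mB01 mB10 mB11
  one00 one01 one10 one11 U00 U01 U10 U11 B00 B01 B10 B11 mU_add mU_zero BB)
open scoped QuadraticAlgebra

/-- the value of a pair -/
noncomputable def V (p : Fin 12 × G2) : PG := ps (rr p.1) * jj p.2

/-- right multiplication -/
def rt (z : G2) (p : Fin 12 × G2) : Fin 12 × G2 := (p.1, p.2 * z)

/-- the subgroup of the elements for which the table is compatible with `V`, `rt` and `LBS` -/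
def TT (f : SL2 O2 →* Equiv.Perm (Fin 12 × G2)) : Subgroup (SL2 O2) where
  carrier := {g | (∀ p, ps g * V p = V (f g p)) ∧ (∀ z p, f g (rt z p) = rt z (f g p)) ∧
    ∀ i, ((rr (f g (i, 1)).1)⁻¹ * g * rr i, (f g (i, 1)).2) ∈ LBS}
  one_mem' := by
    refine ⟨fun p => by rw [map_one, map_one, one_mul]; rfl, fun z p => by rw [map_one]; rfl, ?_⟩
    intro i
    rw [map_one]
    show ((rr i)⁻¹ * 1 * rr i, (1 : G2)) ∈ LBS
    rw [mul_one, inv_mul_cancel]
    exact LBS.one_mem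
  mul_mem' := by
    rintro g h ⟨g1, g2, g3⟩ ⟨h1, h2, h3⟩
    refine ⟨fun p => ?_, fun z p => ?_, fun i => ?_⟩
    · rw [map_mul, map_mul, mul_assoc, h1, g1]; rfl
    · rw [map_mul, Equiv.Perm.mul_apply, Equiv.Perm.mul_apply, h2, g2]
    · obtain ⟨j, c, hj⟩ : ∃ j c, f h (i, 1) = (j, c) := ⟨_, _, rfl⟩
      obtain ⟨k, d, hk⟩ : ∃ k d, f g (j, 1) = (k, d) := ⟨_, _, rfl⟩
      have e : f (g * h) (i, 1) = (k, d * c) := by
        rw [map_mul, Equiv.Perm.mul_apply, hj]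
        have := g2 c (j, 1)
        rw [hk] at this
        unfold rt at this
        simp only [one_mul] at this
        exact this
      rw [e]
      have m1 := g3 j
      have m2 := h3 i
      rw [hk] at m1
      rw [hj] at m2
      have m3 := LBS.mul_mem m1 m2
      have e2 : (rr k)⁻¹ * g * rr j * ((rr j)⁻¹ * h * rr i) = (rr k)⁻¹ * (g * h) * rr i := by
        group
      rw [Prod.mk_mul_mk] at m3
      simp only at m3
      rw [e2] at m3
      exact m3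
  inv_mem' := by
    rintro g ⟨g1, g2, g3⟩
    have hi : ∀ p, f g (f g⁻¹ p) = p := by
      intro p
      rw [← Equiv.Perm.mul_apply, ← map_mul, mul_inv_cancel, map_one]; rfl
    refine ⟨fun p => ?_, fun z p => ?_, fun i => ?_⟩
    · have := g1 (f g⁻¹ p)
      rw [hi] at this
      rw [← this, map_inv, inv_mul_cancel_left]
    · apply (f g).injective
      rw [hi, g2, hi]
    · obtain ⟨j, c, hj⟩ : ∃ j c, f g⁻¹ (i, 1) = (j, c) := ⟨_, _, rfl⟩
      obtain ⟨k, d, hk⟩ : ∃ k d, f g (j, 1) = (k, d) := ⟨_, _, rfl⟩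
      have e1 := hi (i, 1)
      have e2 := g2 c (j, 1)
      rw [hk] at e2
      unfold rt at e2
      simp only [one_mul] at e2
      rw [hj, e2] at e1
      have e3 : k = i := congrArg Prod.fst e1
      have e4 : d * c = 1 := congrArg Prod.snd e1
      subst e3
      have m1 := g3 j
      rw [hk] at m1
      have m2 := LBS.inv_mem m1
      rw [hj]
      have e5 : ((rr k)⁻¹ * g * rr j)⁻¹ = (rr j)⁻¹ * g⁻¹ * rr k := by group
      have e6 : d⁻¹ = c := inv_eq_of_mul_eq_one_right e4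
      rw [Prod.inv_mk] at m2
      simp only at m2
      rw [e5, e6] at m2
      exact m2

theorem mkP_TT (g : SL2 O2) (f : SL2 O2 →* Equiv.Perm (Fin 12 × G2)) (s s' : Fin 12 → Fin 12)
    (h1 : ∀ i, s' (s i) = i) (h2 : ∀ i, s (s' i) = i) (c : Fin 12 → G2)
    (hf : f g = mkP s s' h1 h2 c)
    (hg : ∀ i, ps g * ps (rr i) = ps (rr (s i)) * jj (c i))
    (hl : ∀ i, ((rr (s i))⁻¹ * g * rr i, c i) ∈ LBS) : g ∈ TT f := by
  refine ⟨?_, ?_, ?_⟩
  · rintro ⟨i, y⟩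
    rw [hf, mkP_apply]
    show ps g * (ps (rr i) * jj y) = ps (rr (s i)) * jj (c i * y)
    rw [← mul_assoc, hg, map_mul, mul_assoc]
  · rintro z ⟨i, y⟩
    rw [hf, mkP_apply]
    show mkP s s' h1 h2 c (i, y * z) = (s i, c i * y * z)
    rw [mkP_apply, mul_assoc]
  · intro i
    rw [hf, mkP_apply, mul_one]
    exact hl i

/-- the homomorphism given by the table -/
structure IsT (f : SL2 O2 →* Equiv.Perm (Fin 12 × G2)) : Prop where
  A : f (mU 1) = pA gt (gy 0) (gy 1) (gy 2) (gy 3) (gy 4)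
  U : f (mU (zz 0 1)) = pU gt (gy 0) (gy 1) (gy 2) (gy 3) (gy 4)
  B : f (mB O2) = pB gt

theorem exT : ∃ f, IsT f := by
  obtain ⟨f, fU, fB⟩ := pres (table relN)
  refine ⟨f, ?_, ?_, fB⟩
  · rw [fU]
    unfold ee
    rw [QuadraticAlgebra.re_one, QuadraticAlgebra.im_one, zpow_one, zpow_zero, mul_one]
  · rw [fU]
    unfold ee
    rw [zpow_zero, one_mul, zpow_one]

variable {f : SL2 O2 →* Equiv.Perm (Fin 12 × G2)}

theorem IsT.tt (hf : IsT f) (g : SL2 O2) : g ∈ TT f := SL_sub (TT f)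
  (mkP_TT _ f _ _ _ _ _ hf.A ent_A lb_A) (mkP_TT _ f _ _ _ _ _ hf.U ent_U lb_U)
  (mkP_TT _ f _ _ _ _ _ hf.B ent_B lb_B) g

theorem IsT.v (hf : IsT f) (g : SL2 O2) : ps g = V (f g (0, 1)) := by
  rw [← (hf.tt g).1 (0, 1)]
  show _ = ps g * (ps 1 * jj 1)
  rw [map_one, map_one, mul_one, mul_one]

theorem IsT.rt (hf : IsT f) (g : SL2 O2) (z : G2) (i : Fin 12) :
    f g (i, z) = ((f g (i, 1)).1, (f g (i, 1)).2 * z) := by
  have := (hf.tt g).2.1 z (i, 1)
  unfold D2.rt at this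
  simp only [one_mul] at this
  exact this

/-- the congruence subgroup -/
def G0 : Subgroup (GQ (-2) 0) := A0.comap r92

theorem mem_G0 (g : SL2 O2) : g ∈ G0 ↔ r92 g ∈ A0 := Iff.rfl

theorem rr_G0 (i : Fin 12) (h : rr i ∈ G0) : i = 0 := by
  rw [rr_eq] at h
  have h1 : 3 * cR (r9 (rm i)) = 0 ∧ (r2 (rm i)).val 1 0 = 0 := h
  clear h
  revert h1
  revert i
  decide

theorem IsT.zero (hf : IsT f) (g : SL2 O2) (hg : g ∈ G0) : (f g (0, 1)).1 = 0 := by
  have h1 := ((hf.tt g).2.2 0)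
  rw [mem_LBS] at h1
  have h2 : (rr (f g (0, 1)).1)⁻¹ * g * rr 0 ∈ G0 := h1.1
  have h3 : rr 0 = 1 := rfl
  rw [h3, mul_one] at h2
  apply rr_G0
  have h4 : rr (f g (0, 1)).1 = g * ((rr (f g (0, 1)).1)⁻¹ * g)⁻¹ := by group
  rw [h4]
  exact G0.mul_mem hg (G0.inv_mem h2)

theorem IsT.of_zero (hf : IsT f) (g : SL2 O2) (h : (f g (0, 1)).1 = 0) : g ∈ G0 := by
  have h1 := ((hf.tt g).2.2 0)
  rw [h, mem_LBS] at h1
  have h2 : (rr 0)⁻¹ * g * rr 0 ∈ G0 := h1.1
  have h3 : rr 0 = 1 := rfl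
  rw [h3, mul_one, inv_one, one_mul] at h2
  exact h2

/-- the properties of the homomorphism `G0 → F5 ⋊ ℤ` -/
structure Eta2 (η : G0 →* G2) : Prop where
  /-- compatibility with the matrices -/
  ps : ∀ x : G0, ps x.val = jj (η x)
  /-- the labels -/
  lb : ∀ x : G0, (x.val, η x) ∈ LBS
  /-- the kernel -/
  ker : ∀ x : G0, η x = 1 ↔ x.val = 1 ∨ x.val = -1
  /-- the image -/
  sur : ∀ h : G2, pr h = 1 → ∃ x, η x = h

/-- the homomorphism -/
noncomputable def et (hf : IsT f) : G0 →* G2 where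
  toFun x := (f x.val (0, 1)).2
  map_one' := by
    show (f (1 : SL2 O2) (0, 1)).2 = 1
    rw [map_one]; rfl
  map_mul' x y := by
    show (f (x.val * y.val) (0, 1)).2 = (f x.val (0, 1)).2 * (f y.val (0, 1)).2
    have h1 : f y.val (0, 1) = (0, (f y.val (0, 1)).2) := Prod.ext (hf.zero _ y.2) rfl
    rw [map_mul, Equiv.Perm.mul_apply]
    conv_lhs => rw [h1, hf.rt]

theorem et_apply (hf : IsT f) (x : G0) : et hf x = (f x.val (0, 1)).2 := rfl

theorem et_pair (hf : IsT f) (x : G0) : f x.val (0, 1) = (0, et hf x) :=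
  Prod.ext (hf.zero _ x.2) rfl

theorem et_ps (hf : IsT f) (x : G0) : ps x.val = jj (et hf x) := by
  rw [hf.v, et_pair]
  show ps 1 * jj _ = _
  rw [map_one, one_mul]

theorem et_lb (hf : IsT f) (x : G0) : (x.val, et hf x) ∈ LBS := by
  have h1 := ((hf.tt x.val).2.2 0)
  rw [et_pair] at h1
  have h3 : rr 0 = 1 := rfl
  simp only at h1
  rw [h3, mul_one, inv_one, one_mul] at h1
  exact h1

theorem et_ker (hf : IsT f) (x : G0) : et hf x = 1 ↔ x.val = 1 ∨ x.val = -1 := by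
  constructor
  · intro h
    apply ps_one
    rw [et_ps hf, h, map_one]
  · intro h
    have h1 : f x.val = 1 := by
      rcases h with h | h
      · rw [h, map_one]
      · rw [h, ← BB, map_mul, hf.B, table_c2]
    rw [et_apply, h1]
    rfl

/-- the classes of the representatives -/
theorem rep (hf : IsT f) (i : Fin 12) : f (rr i) (0, 1) = (i, 1) := by
  fin_cases i
  · show f 1 (0, 1) = (0, 1)
    rw [map_one]; rfl
  · show f (mB O2) (0, 1) = (1, 1)
    rw [hf.B]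
    simp [pB, mkP_apply, sB, cB]
  · show f (mU 1) (0, 1) = (2, 1)
    rw [hf.A]
    simp [pA, mkP_apply, sA, cA]
  · show f ((mU 1)⁻¹) (0, 1) = (3, 1)
    rw [map_inv, hf.A]
    simp [pA, mkP_inv, sA', cA]
  · show f (mU 1 * mB O2) (0, 1) = (4, 1)
    rw [map_mul, hf.A, hf.B, Equiv.Perm.mul_apply]
    simp [pA, pB, mkP_apply, sA, cA, sB, cB]
  · show f ((mU 1)⁻¹ * mB O2) (0, 1) = (5, 1)
    rw [map_mul, map_inv, hf.A, hf.B, Equiv.Perm.mul_apply]
    simp [pA, pB, mkP_apply, mkP_inv, sA', cA, sB, cB]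
  · show f (mU (zz 0 1) * mB O2) (0, 1) = (6, 1)
    rw [map_mul, hf.U, hf.B, Equiv.Perm.mul_apply]
    simp [pU, pB, mkP_apply, sU, cU, sB, cB]
  · show f ((mU (zz 0 1))⁻¹ * mB O2) (0, 1) = (7, 1)
    rw [map_mul, map_inv, hf.U, hf.B, Equiv.Perm.mul_apply]
    simp [pU, pB, mkP_apply, mkP_inv, sU', cU, sB, cB]
  · show f (mB O2 * mU 1) (0, 1) = (8, 1)
    rw [map_mul, hf.A, hf.B, Equiv.Perm.mul_apply]
    simp [pA, pB, mkP_apply, sA, cA, sB, cB]
  · show f (mB O2 * mU 1 * mB O2) (0, 1) = (9, 1)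
    rw [map_mul, map_mul, hf.A, hf.B, Equiv.Perm.mul_apply, Equiv.Perm.mul_apply]
    simp [pA, pB, mkP_apply, sA, cA, sB, cB]
  · show f (mB O2 * (mU 1)⁻¹ * mB O2) (0, 1) = (10, 1)
    rw [map_mul, map_mul, map_inv, hf.A, hf.B, Equiv.Perm.mul_apply, Equiv.Perm.mul_apply]
    simp [pA, pB, mkP_apply, mkP_inv, sA', cA, sB, cB]
  · show f (mB O2 * mU (zz 0 1) * mB O2) (0, 1) = (11, 1)
    rw [map_mul, map_mul, hf.U, hf.B, Equiv.Perm.mul_apply, Equiv.Perm.mul_apply]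
    simp [pU, pB, mkP_apply, sU, cU, sB, cB]

/-- the coefficients of the table are in the image -/
theorem cf_mem (hf : IsT f) {g : SL2 O2} {s s' : Fin 12 → Fin 12} {h1 : ∀ i, s' (s i) = i}
    {h2 : ∀ i, s (s' i) = i} {c : Fin 12 → G2} (hg : f g = mkP s s' h1 h2 c) (i : Fin 12) :
    c i ∈ (et hf).range := by
  obtain ⟨x, hx⟩ : ∃ x, x = (rr (s i))⁻¹ * g * rr i := ⟨_, rfl⟩
  have e1 : f x (0, 1) = (0, c i) := by
    rw [hx, map_mul, map_mul, Equiv.Perm.mul_apply, Equiv.Perm.mul_apply, rep hf, hg, mkP_apply,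
      mul_one, map_inv]
    rw [Equiv.Perm.inv_eq_iff_eq, hf.rt, rep hf]
    simp only [one_mul]
  have e2 : x ∈ G0 := hf.of_zero x (by rw [e1])
  refine ⟨⟨x, e2⟩, ?_⟩
  rw [et_apply]
  show (f x (0, 1)).2 = c i
  rw [e1]

/-- `G2` is generated by `t, y1, .., y5` -/
theorem gen_top (S : Subgroup G2) (ht : gt ∈ S) (hy : ∀ i, gy i ∈ S) (w : G2) : w ∈ S := by
  have hF : ∀ x : F5, iR al2 x ∈ S := by
    intro x
    induction x using FreeGroup.induction_on with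
    | C1 => rw [map_one]; exact S.one_mem
    | of i => exact hy i
    | inv_of i h => rw [map_inv]; exact S.inv_mem h
    | mul x y hx hy => rw [map_mul]; exact S.mul_mem hx hy
  obtain ⟨x, n, rfl⟩ := GR_cases al2 w
  exact S.mul_mem (hF x) (S.zpow_mem ht n)

/-- the image has index at most two -/
theorem K_two (hf : IsT f) (w : G2) : w ∈ (et hf).range ∨ w * gt⁻¹ ∈ (et hf).range := by
  have mA := cf_mem hf hf.A
  have mU' := cf_mem hf hf.U
  have mB' := cf_mem hf hf.B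
  generalize (et hf).range = K at *
  have ki : ∀ {x : G2}, x ∈ K → x⁻¹ ∈ K := fun h => K.inv_mem h
  have km : ∀ {x y : G2}, x ∈ K → y ∈ K → x * y ∈ K := fun h h' => K.mul_mem h h'
  -- the elements of the table
  have b7 : gt * gt ∈ K := mB' 7
  have a2 : (gy 0)⁻¹ * gt⁻¹ ∈ K := mA 2
  have a6 : gt * (gy 1)⁻¹ ∈ K := mA 6
  have a11 : gt * (gy 3)⁻¹ ∈ K := mA 11
  have u0 : (gy 2)⁻¹ * (gt⁻¹ * gt⁻¹) ∈ K := mU' 0
  have u3 : (gy 1)⁻¹ * gt⁻¹ ∈ K := mU' 3
  have u5 : (gy 4)⁻¹ * (gt * gt) ∈ K := mU' 5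
  have u6 : gy 0 * gt ∈ K := mU' 6
  have u11 : gt * ((gy 4)⁻¹ * (gt * (gt * (gt * (gy 0 * gt))))) ∈ K := mU' 11
  -- the generators
  have y3 : gy 2 ∈ K := by
    have : gy 2 = (gt * gt)⁻¹ * ((gy 2)⁻¹ * (gt⁻¹ * gt⁻¹))⁻¹ := by group
    rw [this]; exact km (ki b7) (ki u0)
  have y5 : gy 4 ∈ K := by
    have : gy 4 = (gt * gt) * ((gy 4)⁻¹ * (gt * gt))⁻¹ := by group
    rw [this]; exact km b7 (ki u5)
  have ty1 : gt * gy 0 ∈ K := by
    have : gt * gy 0 = ((gy 0)⁻¹ * gt⁻¹)⁻¹ := by group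
    rw [this]; exact ki a2
  have y1t : gy 0 * gt⁻¹ ∈ K := by
    have : gy 0 * gt⁻¹ = gy 0 * gt * (gt * gt)⁻¹ := by group
    rw [this]; exact km u6 (ki b7)
  have ty2 : gt * gy 1 ∈ K := by
    have : gt * gy 1 = ((gy 1)⁻¹ * gt⁻¹)⁻¹ := by group
    rw [this]; exact ki u3
  have y2t : gy 1 * gt⁻¹ ∈ K := by
    have : gy 1 * gt⁻¹ = (gt * (gy 1)⁻¹)⁻¹ := by group
    rw [this]; exact ki a6
  have y4t : gy 3 * gt⁻¹ ∈ K := by
    have : gy 3 * gt⁻¹ = (gt * (gy 3)⁻¹)⁻¹ := by group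
    rw [this]; exact ki a11
  have ty4 : gt * gy 3 ∈ K := by
    have h1 : gt * gy 3 = (gy 2)⁻¹ * ((gy 1)⁻¹ * gt) := relN.r4
    have h2 : gt * gy 3 = (gy 2)⁻¹ * ((gy 1)⁻¹ * gt⁻¹ * (gt * gt)) := by rw [h1]; group
    rw [h2]
    exact km (ki y3) (km u3 b7)
  have ty3 : gt * gy 2 * gt⁻¹ ∈ K := by
    have h1 : gt * gy 2 = (gy 4)⁻¹ * gt := relN.r3
    have h2 : gt * gy 2 * gt⁻¹ = (gy 4)⁻¹ := by rw [h1]; group
    rw [h2]
    exact ki y5
  have ty5 : gt * gy 4 * gt⁻¹ ∈ K := by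
    have : gt * gy 4 * gt⁻¹ = gt * gt * (gt * gt) * (gy 0 * gt) *
      (gt * ((gy 4)⁻¹ * (gt * (gt * (gt * (gy 0 * gt))))))⁻¹ := by group
    rw [this]
    exact km (km (km b7 b7) u6) (ki u11)
  -- the set of the elements which preserve the union of the two cosets
  let S : Subgroup G2 :=
    { carrier := {z | ∀ w, (w ∈ K ∨ w * gt⁻¹ ∈ K) → ((w * z ∈ K ∨ w * z * gt⁻¹ ∈ K) ∧
        (w * z⁻¹ ∈ K ∨ w * z⁻¹ * gt⁻¹ ∈ K))}
      one_mem' := fun w hw => by
        rw [mul_one, inv_one, mul_one]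
        exact ⟨hw, hw⟩
      mul_mem' := by
        intro y z hy hz w hw
        rw [← mul_assoc, mul_inv_rev, ← mul_assoc]
        exact ⟨(hz _ (hy w hw).1).1, (hy _ (hz w hw).2).2⟩
      inv_mem' := by
        intro z hz w hw
        rw [inv_inv]
        exact ⟨(hz w hw).2, (hz w hw).1⟩ }
  -- even and odd generators
  have ev : ∀ z : G2, z ∈ K → gt * z * gt⁻¹ ∈ K → z ∈ S := by
    rintro z h1 h2 w (hw | hw)
    · exact ⟨Or.inl (km hw h1), Or.inl (km hw (ki h1))⟩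
    · refine ⟨Or.inr ?_, Or.inr ?_⟩
      · have : w * z * gt⁻¹ = w * gt⁻¹ * (gt * z * gt⁻¹) := by group
        rw [this]; exact km hw h2
      · have : w * z⁻¹ * gt⁻¹ = w * gt⁻¹ * (gt * z * gt⁻¹)⁻¹ := by group
        rw [this]; exact km hw (ki h2)
  have od : ∀ z : G2, z * gt⁻¹ ∈ K → gt * z ∈ K → z ∈ S := by
    rintro z h1 h2 w (hw | hw)
    · refine ⟨Or.inr ?_, Or.inr ?_⟩
      · rw [mul_assoc]; exact km hw h1
      · have : w * z⁻¹ * gt⁻¹ = w * (gt * z)⁻¹ := by group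
        rw [this]; exact km hw (ki h2)
    · refine ⟨Or.inl ?_, Or.inl ?_⟩
      · have : w * z = w * gt⁻¹ * (gt * z) := by group
        rw [this]; exact km hw h2
      · have : w * z⁻¹ = w * gt⁻¹ * (z * gt⁻¹)⁻¹ := by group
        rw [this]; exact km hw (ki h1)
  have hS : ∀ z, z ∈ S := by
    intro z
    apply gen_top S
    · apply od
      · rw [mul_inv_cancel]; exact K.one_mem
      · exact b7
    · intro i
      fin_cases i
      · exact od _ y1t ty1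
      · exact od _ y2t ty2
      · exact ev _ y3 ty3
      · exact od _ y4t ty4
      · exact ev _ y5 ty5
  have := (hS w 1 (Or.inl K.one_mem)).1
  rwa [one_mul] at this

/-- MAIN RESULT: the homomorphism -/
theorem exEta : ∃ η : G0 →* G2, Eta2 η := by
  obtain ⟨f, hf⟩ := exT
  refine ⟨et hf, et_ps hf, et_lb hf, et_ker hf, ?_⟩
  intro h hh
  rcases K_two hf h with h1 | h1
  · exact h1
  · exfalso
    obtain ⟨x, hx⟩ := h1
    have h2 := (et_lb hf x).2.2
    simp only at h2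
    rw [hx, map_mul, hh, map_inv, pr_t, one_mul] at h2
    revert h2
    decide

end Pool.Agent.F8.BG.D2
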