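import Pool.Agent.Lib.MP_305fdd_al.F8.BG.D2.End

/-!
# MP_305fdd_al, Bianchi group for `d = 2`: the properties `EtaQ`, and the other hypotheses of the finiteness theorem
-/

set_option autoImplicit false
set_option linter.unusedSimpArgs false

namespace Pool.Agent.F8.BG.D2

open Pool.Agent.F8 Pool.Agent.F8.BG Pool.Agent.F8.AB
open Pool.Agent.F8.G (SL_ext SL_mul SL_det SL_neg mU00 mU01 mU10 mU11 mB00 mB01 mB10 mB11
  one00 one01 one10 one11 U00 U01 U10 U11 B00 B01 B10 B11 mU_add mU_zero BB)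
open scoped QuadraticAlgebra

/-- `r9` depends only on the reduction modulo `18` -/
theorem r9_eq (x : SL2 O2) : r9 x = SLm (evq (-2) 0 (ZMod.castHom (by decide : 9 ∣ 18) (ZMod 9)) 5
    (by decide)) (rdq (-2) 0 18 x) := by
  apply SL_ext <;>
  · show evq (-2) 0 (Int.castRingHom (ZMod 9)) 5 (by decide) _ =
      evq (-2) 0 (ZMod.castHom (by decide : 9 ∣ 18) (ZMod 9)) 5 (by decide) (Qfm (-2) 0 _ _)
    rw [evq_apply, evq_apply, Qfm_apply]
    simp

/-- `r2` depends only on the reduction modulo `18` -/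
theorem r2_eq (x : SL2 O2) : r2 x = SLm (evq (-2) 0 (ZMod.castHom (by decide : 2 ∣ 18) (ZMod 2)) 0
    (by decide)) (rdq (-2) 0 18 x) := by
  apply SL_ext <;>
  · show evq (-2) 0 (Int.castRingHom (ZMod 2)) 0 (by decide) _ =
      evq (-2) 0 (ZMod.castHom (by decide : 2 ∣ 18) (ZMod 2)) 0 (by decide) (Qfm (-2) 0 _ _)
    rw [evq_apply, evq_apply, Qfm_apply]
    simp

theorem r92_eq {x x' : SL2 O2} (h : rdq (-2) 0 18 x = rdq (-2) 0 18 x') : r92 x = r92 x' := by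
  apply Prod.ext
  · show r9 x = r9 x'
    rw [r9_eq, r9_eq, h]
  · show r2 x = r2 x'
    rw [r2_eq, r2_eq, h]

theorem lev (x : GQ (-2) 0) (h : rdq (-2) 0 18 x = 1) : x ∈ G0 := by
  rw [mem_G0, r92_eq (h.trans (map_one _).symm), map_one]
  exact A0.one_mem

/-- upper triangular matrices -/
def UT : Subgroup PG where
  carrier := {p | ∃ (a b d : O2) (h : a * d - b * 0 ≠ 0), p = mm a b 0 d h}
  one_mem' := ⟨1, 0, 1, by decide, mm_one.symm⟩
  mul_mem' := by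
    rintro _ _ ⟨a, b, d, h, rfl⟩ ⟨a', b', d', h', rfl⟩
    refine ⟨a * a', a * b' + b * d', d * d', ?_, ?_⟩
    · have e : a * a' * (d * d') - (a * b' + b * d') * 0 = (a * d - b * 0) * (a' * d' - b' * 0) := by
        ring
      rw [e]; exact mul_ne_zero h h'
    · rw [mm_mul]
      apply mm_congr <;> ring
  inv_mem' := by
    rintro _ ⟨a, b, d, h, rfl⟩
    refine ⟨d, -b, a, ?_, ?_⟩
    · have e : d * a - -b * 0 = a * d - b * 0 := by ring
      rw [e]; exact h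
    · rw [mm_inv]
      apply mm_congr <;> ring

theorem UT_ps (x : SL2 O2) (h : ps x ∈ UT) : x.val 1 0 = 0 := by
  obtain ⟨a, b, d, h1, h2⟩ := h
  rw [ps_apply] at h2
  obtain ⟨u, v, hu, hv, e1, e2, e3, e4⟩ := mm_inj h2
  rw [mul_zero] at e3
  exact (mul_eq_zero.1 e3).resolve_left hu

theorem jj_cc : jj (iR al2 cc) ∈ UT := by
  refine ⟨zz 0 1, zz 2 5, zz 0 1, by decide, ?_⟩
  unfold cc
  simp only [map_mul, map_inv, jj_y, My0, My1, mm_inv, mm_mul]
  exact mm_eq _ _ (zz (-1) 0) (zz 1 0) (by decide) (by decide)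

theorem jj_gg : jj (iR al2 gg * tR al2) ∈ UT := by
  refine ⟨zz 1 0, zz 2 (-1), zz 1 0, by decide, ?_⟩
  unfold gg
  simp only [map_mul, map_inv, jj_y, jj_t, Mt, My0, My4, mm_inv, mm_mul]
  exact mm_eq _ _ (zz 1 0) (zz 0 1) (by decide) (by decide)

/-- the properties of `η` -/
theorem etaQ {η : G0 →* G2} (h : Eta2 η) : EtaQ al2 18 cc gg G0 η where
  ker := h.ker
  fin := by
    have h1 : pr.ker ≤ η.range := by
      intro x hx
      obtain ⟨z, hz⟩ := h.sur x hx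
      exact ⟨z, hz⟩
    have h2 : pr.ker.FiniteIndex := Subgroup.finiteIndex_ker pr
    exact Subgroup.finiteIndex_of_le h1
  lev := lev
  ne := by decide
  par := by
    intro x hx
    apply UT_ps
    rw [h.ps x]
    have h1 : Subgroup.closure {iR al2 cc, iR al2 gg * tR al2} ≤ UT.comap jj := by
      rw [Subgroup.closure_le]
      rintro z (rfl | rfl)
      · exact jj_cc
      · exact jj_gg
    exact h1 hx

/-- an element with nonzero exponent of `t`, determined modulo `18` -/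
theorem lab18 {η : G0 →* G2} (h : Eta2 η) : ∃ (m : ℕ) (_ : NeZero m) (x₀ : G0), ∀ x : G0,
    rdq (-2) 0 m x.val = rdq (-2) 0 m x₀.val → nR al2 (η x) ≠ 1 := by
  obtain ⟨x₀, hx₀⟩ := h.sur (gt * gy 1) (by
    rw [map_mul, pr_t, pr_y]; decide)
  refine ⟨18, ⟨by decide⟩, x₀, ?_⟩
  intro x hx h1
  have h2 := (h.lb x).2.1
  have h3 := (h.lb x₀).2.1
  have h4 : r9 x.val = r9 x₀.val := congrArg Prod.fst (r92_eq hx)
  simp only at h2 h3
  have h5 : nn (gt * gy 1) = 1 := by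
    rw [nn_mul, nn_t, nn_F]; rfl
  have h6 : nn (η x) = 0 := by
    unfold nn
    rw [h1]; rfl
  rw [h4, h3, hx₀, h5, h6] at h2
  revert h2
  decide

/-- `[[1, 3], [0, 1]]` -/
def xa : SL2 O2 := mx (zz 1 0) (zz 3 0) (zz 0 0) (zz 1 0) (by decide)
/-- `[[1, 0], [w - 2, 1]]` -/
def xb : SL2 O2 := mx (zz 1 0) (zz 0 0) (zz (-2) 1) (zz 1 0) (by decide)

theorem xa_mem : xa ∈ G0 := by
  rw [mem_G0, mem_A0]
  exact ⟨by show 3 * cR (r9 xa) = 0; decide, by decide⟩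

theorem xb_mem : xb ∈ G0 := by
  rw [mem_G0, mem_A0]
  exact ⟨by show 3 * cR (r9 xb) = 0; decide, by decide⟩

theorem xa_inv : xa⁻¹ = mx (zz 1 0) (zz (-3) 0) (zz 0 0) (zz 1 0) (by decide) := by
  unfold xa; rw [mx_inv]
  apply mx_congr <;> decide
theorem xb_inv : xb⁻¹ = mx (zz 1 0) (zz 0 0) (zz 2 (-1)) (zz 1 0) (by decide) := by
  unfold xb; rw [mx_inv]
  apply mx_congr <;> decide

/-- two elements whose commutator does not have trace `2` or `-2`, modulo `5` -/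
theorem com5 : ∃ (m : ℕ) (_ : NeZero m) (x₀ y₀ : G0),
    tr (rdq (-2) 0 m (x₀ * y₀ * x₀⁻¹ * y₀⁻¹ : G0).val) ≠ 2 ∧
    tr (rdq (-2) 0 m (x₀ * y₀ * x₀⁻¹ * y₀⁻¹ : G0).val) ≠ -2 := by
  refine ⟨5, ⟨by decide⟩, ⟨xa, xa_mem⟩, ⟨xb, xb_mem⟩, ?_⟩
  have h1 : ((⟨xa, xa_mem⟩ * ⟨xb, xb_mem⟩ * (⟨xa, xa_mem⟩ : G0)⁻¹ * (⟨xb, xb_mem⟩ : G0)⁻¹ : G0)).val
      = xa * xb * xa⁻¹ * xb⁻¹ := rfl
  rw [h1, xa_inv, xb_inv]
  decide

/-- the units -/
theorem units2 (u : (Qf (-2) 0 ℤ)ˣ) : u = 1 ∨ u = -1 := by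
  have h1 : nm u.val * nm u⁻¹.val = 1 := by
    rw [← nm_mul, Units.mul_inv, nm_one]
  have h2 : nm u.val = 1 := Int.eq_one_of_mul_eq_one_right (nm_nonneg _) h1
  rcases unit_cases h2 with h3 | h3
  · left; exact Units.ext h3
  · right; exact Units.ext h3

end Pool.Agent.F8.BG.D2
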