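import Pool.Agent.Lib.MP_305fdd_al.F8.BG.D2.Coc
import Pool.Agent.Lib.MP_305fdd_al.F8.BG.P_mq

/-!
# MP_305fdd_al, Bianchi group for `d = 2`: `ρ(Λ)` has finite index, and `ρ` is surjective

From the general theorems `S_fi`, `S_con` and the data of `G0`.
-/

set_option autoImplicit false
set_option linter.unusedSimpArgs false

namespace Pool.Agent.F8.BG.D2

open Pool.Agent.MP_305fdd_al Pool.Agent.Lib.MP_305fdd_al Pool.Agent.F8 Pool.Agent.F8.BG
  Pool.Agent.F8.AB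
open scoped QuadraticAlgebra

/-- the value of the character for a given label -/
def p7 (a : ZMod 9) : (ZMod 7)ˣ := if a = 0 then 1 else if a = 3 then u7 else u7 * u7

theorem p7_add : ∀ a b : ZMod 9, 3 * a = 0 → 3 * b = 0 → p7 (a + b) = p7 a * p7 b := by
  unfold p7
  decide

theorem p7_three (n : ℤ) : p7 (3 * (n : ZMod 9)) = u7 ^ n := by
  have h9 : (9 : ZMod 9) = 0 := by decide
  have h3 : u7 ^ (3 : ℤ) = 1 := by decide
  obtain ⟨q, r, hr, hn⟩ : ∃ (q : ℤ) (r : ℤ), (r = 0 ∨ r = 1 ∨ r = 2) ∧ n = 3 * q + r := by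
    refine ⟨n / 3, n % 3, by omega, by omega⟩
  have e1 : (3 : ZMod 9) * (n : ZMod 9) = 3 * (r : ZMod 9) := by
    rw [hn]
    push_cast
    linear_combination (q : ZMod 9) * h9
  rw [e1, hn, zpow_add, zpow_mul, h3, one_zpow, one_mul]
  rcases hr with rfl | rfl | rfl
  · rw [zpow_zero]; decide
  · rw [zpow_one]; decide
  · have : u7 ^ (2 : ℤ) = u7 * u7 := by
      rw [show (2 : ℤ) = 1 + 1 by norm_num, zpow_add, zpow_one]
    rw [this]; decide

theorem Lm_three {g : SL2 (ZMod 9)} (hg : A9 g) : 3 * Lm g = 0 := by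
  have h9 : (9 : ZMod 9) = 0 := by decide
  unfold A9 at hg
  unfold Lm
  linear_combination (cP g) * hg + (cP g * cQ g) * h9

/-- the character of `A0` -/
def lam7 : A0 →* (ZMod 7)ˣ where
  toFun g := p7 (Lm g.1.1)
  map_one' := by
    show p7 (Lm 1) = 1
    rw [Lm_one]; decide
  map_mul' g h := by
    show p7 (Lm (g.1.1 * h.1.1)) = p7 (Lm g.1.1) * p7 (Lm h.1.1)
    rw [Lm_mul g.2.1 h.2.1]
    exact p7_add _ _ (Lm_three g.2.1) (Lm_three h.2.1)

/-- MAIN RESULT for `d = 2`: `ρ` is surjective if it is the matched representation modulo `4 + w` -/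
theorem p_G2 (hfi : S_fi) (hcon : S_con) (Λ : Type) [Group Λ] [Group.FG Λ]
    (Φ : NatBij (GQ (-2) 0) Λ) (ρ : Λ →* GQ (-2) 0) (hρ : RhoQ Φ ρ)
    (h92 : ∀ l, r92 (ρ l) = Φ.toFun _ r92 l) : Function.Surjective ρ := by
  obtain ⟨η, hη⟩ := exEta
  obtain ⟨Ψ, hΨ⟩ := natBij_comap Φ (rfl : Φ.toFun _ r92 = Φ.toFun _ r92) A0
  change NatBij G0 (A0.comap (Φ.toFun _ r92)) at Ψ
  have hL : ∀ l, l ∈ A0.comap (Φ.toFun _ r92) ↔ ρ l ∈ G0 := by
    intro l
    rw [mem_G0, h92]; rfl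
  let rG : G0 →* A0 := (r92.comp G0.subtype).codRestrict A0 fun y => y.2
  have hrG : A0.subtype.comp rG = r92.comp G0.subtype := rfl
  have hrL : ∀ l : A0.comap (Φ.toFun _ r92),
      ((Ψ.toFun _ rG l : A0) : SL2 (ZMod 9) × SL2 (ZMod 2)) = Φ.toFun _ r92 l := by
    intro l
    have h1 := Ψ.nat A0.subtype rG
    rw [hrG] at h1
    have h2 := hΨ _ r92
    have h3 : A0.subtype.comp (Ψ.toFun _ rG) =
        (Φ.toFun _ r92).comp (A0.comap (Φ.toFun _ r92)).subtype := by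
      rw [← h1]
      exact h2
    exact DFunLike.congr_fun h3 l
  have hlab : ∀ x : G0, p7 (Lm (r9 x.val)) = u7 ^ nn (η x) := by
    intro x
    have h1 : Lm (r9 x.val) = 3 * (nn (η x) : ZMod 9) := (hη.lb x).2.1
    rw [h1, p7_three]
  have hfin : ρ.range.FiniteIndex := by
    refine hfi (-2) 0 (by norm_num) (Fin 5) al2 2 w2 (by norm_num) pos2 18 cc gg G0 η (etaQ hη)
      (lab18 hη) com5 Λ Φ ρ hρ ⟨7, ⟨by norm_num⟩, u7, ?_⟩
    have : Fact (Nat.Prime 7) := ⟨by norm_num⟩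
    refine p_mq (-2) 0 (Fin 5) al2 G0 η Λ ρ _ hL Ψ 7 u7 (lam7.comp rG) ?_ ?_
    · intro l
      rw [Ψ.nat]
      show p7 (Lm (Ψ.toFun _ rG l).1.1) = _
      rw [hrL, ← h92]
      exact hlab ⟨ρ l, (hL l).1 l.2⟩
    · intro κ hm ht x hx
      refine no7 hη κ hm ?_ x hx
      intro x
      have h1 := DFunLike.congr_fun ht x
      rw [← hlab x]
      exact h1
  exact hcon (-2) 0 units2 (Fin 5) al2 18 cc gg G0 η (etaQ hη) cc_prim cc_conj Λ Φ ρ hρ hfin

end Pool.Agent.F8.BG.D2
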