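import Pool.Agent.Lib.MP_305fdd_al.F8.BG.D2.Lab

/-!
# MP_305fdd_al, Bianchi group for `d = 2`: the homomorphism given by the coset table, verification
-/

set_option autoImplicit false
set_option linter.unusedSimpArgs false

namespace Pool.Agent.F8.BG.D2

open Pool.Agent.F8 Pool.Agent.F8.BG Pool.Agent.F8.AB
open Pool.Agent.F8.G (SL_ext SL_mul SL_det SL_neg mU00 mU01 mU10 mU11 mB00 mB01 mB10 mB11
  one00 one01 one10 one11 U00 U01 U10 U11 B00 B01 B10 B11 mU_add mU_zero BB)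
open scoped QuadraticAlgebra

/-- the representatives of the classes -/
def rr : Fin 12 → SL2 O2 :=
  ![1,
    mB O2,
    mU 1,
    (mU 1)⁻¹,
    mU 1 * mB O2,
    (mU 1)⁻¹ * mB O2,
    mU (zz 0 1) * mB O2,
    (mU (zz 0 1))⁻¹ * mB O2,
    mB O2 * mU 1,
    mB O2 * mU 1 * mB O2,
    mB O2 * (mU 1)⁻¹ * mB O2,
    mB O2 * mU (zz 0 1) * mB O2]

/-- the matrices of the representatives -/
def rm : Fin 12 → SL2 O2 :=
  ![mx (zz 1 0) (zz 0 0) (zz 0 0) (zz 1 0) (by decide),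
    mx (zz 0 0) (zz (-1) 0) (zz 1 0) (zz 0 0) (by decide),
    mx (zz 1 0) (zz 1 0) (zz 0 0) (zz 1 0) (by decide),
    mx (zz 1 0) (zz (-1) 0) (zz 0 0) (zz 1 0) (by decide),
    mx (zz 1 0) (zz (-1) 0) (zz 1 0) (zz 0 0) (by decide),
    mx (zz (-1) 0) (zz (-1) 0) (zz 1 0) (zz 0 0) (by decide),
    mx (zz 0 1) (zz (-1) 0) (zz 1 0) (zz 0 0) (by decide),
    mx (zz 0 (-1)) (zz (-1) 0) (zz 1 0) (zz 0 0) (by decide),
    mx (zz 0 0) (zz (-1) 0) (zz 1 0) (zz 1 0) (by decide),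
    mx (zz (-1) 0) (zz 0 0) (zz 1 0) (zz (-1) 0) (by decide),
    mx (zz (-1) 0) (zz 0 0) (zz (-1) 0) (zz (-1) 0) (by decide),
    mx (zz (-1) 0) (zz 0 0) (zz 0 1) (zz (-1) 0) (by decide)]

/-- the inverses of the representatives -/
def rm' : Fin 12 → SL2 O2 :=
  ![mx (zz 1 0) (zz 0 0) (zz 0 0) (zz 1 0) (by decide),
    mx (zz 0 0) (zz 1 0) (zz (-1) 0) (zz 0 0) (by decide),
    mx (zz 1 0) (zz (-1) 0) (zz 0 0) (zz 1 0) (by decide),
    mx (zz 1 0) (zz 1 0) (zz 0 0) (zz 1 0) (by decide),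
    mx (zz 0 0) (zz 1 0) (zz (-1) 0) (zz 1 0) (by decide),
    mx (zz 0 0) (zz 1 0) (zz (-1) 0) (zz (-1) 0) (by decide),
    mx (zz 0 0) (zz 1 0) (zz (-1) 0) (zz 0 1) (by decide),
    mx (zz 0 0) (zz 1 0) (zz (-1) 0) (zz 0 (-1)) (by decide),
    mx (zz 1 0) (zz 1 0) (zz (-1) 0) (zz 0 0) (by decide),
    mx (zz (-1) 0) (zz 0 0) (zz (-1) 0) (zz (-1) 0) (by decide),
    mx (zz (-1) 0) (zz 0 0) (zz 1 0) (zz (-1) 0) (by decide),
    mx (zz (-1) 0) (zz 0 0) (zz 0 (-1)) (zz (-1) 0) (by decide)]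

theorem mU_inv (x : O2) : (mU x)⁻¹ = mU (-x) := by
  apply inv_eq_of_mul_eq_one_left
  rw [← mU_add, neg_add_cancel, mU_zero]

theorem rr_eq (i : Fin 12) : rr i = rm i := by
  fin_cases i

  · show 1 = mx (zz 1 0) (zz 0 0) (zz 0 0) (zz 1 0) (by decide)
    apply SL_ext <;> decide
  · show mB O2 = mx (zz 0 0) (zz (-1) 0) (zz 1 0) (zz 0 0) (by decide)
    apply SL_ext <;> decide
  · show mU 1 = mx (zz 1 0) (zz 1 0) (zz 0 0) (zz 1 0) (by decide)
    apply SL_ext <;> decide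
  · show (mU 1)⁻¹ = mx (zz 1 0) (zz (-1) 0) (zz 0 0) (zz 1 0) (by decide)
    rw [mU_inv]
    apply SL_ext <;> decide
  · show mU 1 * mB O2 = mx (zz 1 0) (zz (-1) 0) (zz 1 0) (zz 0 0) (by decide)
    apply SL_ext <;> decide
  · show (mU 1)⁻¹ * mB O2 = mx (zz (-1) 0) (zz (-1) 0) (zz 1 0) (zz 0 0) (by decide)
    rw [mU_inv]
    apply SL_ext <;> decide
  · show mU (zz 0 1) * mB O2 = mx (zz 0 1) (zz (-1) 0) (zz 1 0) (zz 0 0) (by decide)
    apply SL_ext <;> decide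
  · show (mU (zz 0 1))⁻¹ * mB O2 = mx (zz 0 (-1)) (zz (-1) 0) (zz 1 0) (zz 0 0) (by decide)
    rw [mU_inv]
    apply SL_ext <;> decide
  · show mB O2 * mU 1 = mx (zz 0 0) (zz (-1) 0) (zz 1 0) (zz 1 0) (by decide)
    apply SL_ext <;> decide
  · show mB O2 * mU 1 * mB O2 = mx (zz (-1) 0) (zz 0 0) (zz 1 0) (zz (-1) 0) (by decide)
    apply SL_ext <;> decide
  · show mB O2 * (mU 1)⁻¹ * mB O2 = mx (zz (-1) 0) (zz 0 0) (zz (-1) 0) (zz (-1) 0) (by decide)
    rw [mU_inv]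
    apply SL_ext <;> decide
  · show mB O2 * mU (zz 0 1) * mB O2 = mx (zz (-1) 0) (zz 0 0) (zz 0 1) (zz (-1) 0) (by decide)
    apply SL_ext <;> decide

theorem rr_inv (i : Fin 12) : (rr i)⁻¹ = rm' i := by
  rw [rr_eq]
  apply inv_eq_of_mul_eq_one_left
  revert i
  decide

theorem psr (i : Fin 12) : ps (rr i) = mm ((rm i).val 0 0) ((rm i).val 0 1) ((rm i).val 1 0)
    ((rm i).val 1 1) (SL_ne (rm i)) := by
  rw [rr_eq, ps_apply]

theorem psA : ps (mU 1) = mm (zz 1 0) (zz 1 0) (zz 0 0) (zz 1 0) (by decide) := by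
  rw [ps_apply]; apply mm_congr <;> decide

theorem psU : ps (mU (zz 0 1)) = mm (zz 1 0) (zz 0 1) (zz 0 0) (zz 1 0) (by decide) := by
  rw [ps_apply]; apply mm_congr <;> decide

theorem psB : ps (mB O2) = mm (zz 0 0) (zz (-1) 0) (zz 1 0) (zz 0 0) (by decide) := by
  rw [ps_apply]; apply mm_congr <;> decide

theorem lbs_mk {X : SL2 O2} {h : G2} (n : ℤ) (h1 : 3 * cR (r9 X) = 0) (h2 : (r2 X).val 1 0 = 0)
    (h3 : nn h = n) (h4 : Lm (r9 X) = 3 * (n : ZMod 9)) (h5 : pr h = 1) : (X, h) ∈ LBS :=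
  (mem_LBS _ _).2 ⟨(mem_A0 _).2 ⟨h1, h2⟩, by rw [h3]; exact h4, h5⟩

theorem ent_A (i : Fin 12) : ps (mU 1) * ps (rr i) =
    ps (rr (sA i)) * jj (cA gt (gy 0) (gy 1) (gy 2) (gy 3) (gy 4) i) := by
  fin_cases i
  · show ps (mU 1) * ps (rr 0) = ps (rr 2) * jj (1)
    simp only [psA, psr, map_one, mul_one, map_mul, map_inv, jj_t, jj_y, Mt, My0, My1, My2,
      My3, My4, mm_inv, mm_mul]
    exact mm_eq _ _ (zz 1 0) (zz 1 0) (by decide) (by decide)
  · show ps (mU 1) * ps (rr 1) = ps (rr 4) * jj (1)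
    simp only [psA, psr, map_one, mul_one, map_mul, map_inv, jj_t, jj_y, Mt, My0, My1, My2,
      My3, My4, mm_inv, mm_mul]
    exact mm_eq _ _ (zz 1 0) (zz 1 0) (by decide) (by decide)
  · show ps (mU 1) * ps (rr 2) = ps (rr 3) * jj ((gy 0)⁻¹ * gt⁻¹)
    simp only [psA, psr, map_one, mul_one, map_mul, map_inv, jj_t, jj_y, Mt, My0, My1, My2,
      My3, My4, mm_inv, mm_mul]
    exact mm_eq _ _ (zz 0 1) (zz 1 0) (by decide) (by decide)
  · show ps (mU 1) * ps (rr 3) = ps (rr 0) * jj (1)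
    simp only [psA, psr, map_one, mul_one, map_mul, map_inv, jj_t, jj_y, Mt, My0, My1, My2,
      My3, My4, mm_inv, mm_mul]
    exact mm_eq _ _ (zz 1 0) (zz 1 0) (by decide) (by decide)
  · show ps (mU 1) * ps (rr 4) = ps (rr 6) * jj (gt⁻¹ * ((gy 2)⁻¹ * gt⁻¹))
    simp only [psA, psr, map_one, mul_one, map_mul, map_inv, jj_t, jj_y, Mt, My0, My1, My2,
      My3, My4, mm_inv, mm_mul]
    exact mm_eq _ _ (zz 0 1) (zz 1 0) (by decide) (by decide)
  · show ps (mU 1) * ps (rr 5) = ps (rr 1) * jj (1)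
    simp only [psA, psr, map_one, mul_one, map_mul, map_inv, jj_t, jj_y, Mt, My0, My1, My2,
      My3, My4, mm_inv, mm_mul]
    exact mm_eq _ _ (zz 1 0) (zz 1 0) (by decide) (by decide)
  · show ps (mU 1) * ps (rr 6) = ps (rr 9) * jj (gt * (gy 1)⁻¹)
    simp only [psA, psr, map_one, mul_one, map_mul, map_inv, jj_t, jj_y, Mt, My0, My1, My2,
      My3, My4, mm_inv, mm_mul]
    exact mm_eq _ _ (zz 0 (-1)) (zz 1 0) (by decide) (by decide)
  · show ps (mU 1) * ps (rr 7) = ps (rr 5) * jj (gt⁻¹ * ((gy 2)⁻¹ * gt⁻¹))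
    simp only [psA, psr, map_one, mul_one, map_mul, map_inv, jj_t, jj_y, Mt, My0, My1, My2,
      My3, My4, mm_inv, mm_mul]
    exact mm_eq _ _ (zz 0 1) (zz 1 0) (by decide) (by decide)
  · show ps (mU 1) * ps (rr 8) = ps (rr 10) * jj (1)
    simp only [psA, psr, map_one, mul_one, map_mul, map_inv, jj_t, jj_y, Mt, My0, My1, My2,
      My3, My4, mm_inv, mm_mul]
    exact mm_eq _ _ (zz (-1) 0) (zz 1 0) (by decide) (by decide)
  · show ps (mU 1) * ps (rr 9) = ps (rr 7) * jj (gt⁻¹ * gt⁻¹)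
    simp only [psA, psr, map_one, mul_one, map_mul, map_inv, jj_t, jj_y, Mt, My0, My1, My2,
      My3, My4, mm_inv, mm_mul]
    exact mm_eq _ _ (zz 0 1) (zz 1 0) (by decide) (by decide)
  · show ps (mU 1) * ps (rr 10) = ps (rr 8) * jj (gt * (gy 0 * (gt * (gt * ((gy 4)⁻¹ * (gt * gt))))))
    simp only [psA, psr, map_one, mul_one, map_mul, map_inv, jj_t, jj_y, Mt, My0, My1, My2,
      My3, My4, mm_inv, mm_mul]
    exact mm_eq _ _ (zz 0 2) (zz 1 0) (by decide) (by decide)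
  · show ps (mU 1) * ps (rr 11) = ps (rr 11) * jj (gt * (gy 3)⁻¹)
    simp only [psA, psr, map_one, mul_one, map_mul, map_inv, jj_t, jj_y, Mt, My0, My1, My2,
      My3, My4, mm_inv, mm_mul]
    exact mm_eq _ _ (zz 0 1) (zz 1 0) (by decide) (by decide)

theorem ent_U (i : Fin 12) : ps (mU (zz 0 1)) * ps (rr i) =
    ps (rr (sU i)) * jj (cU gt (gy 0) (gy 1) (gy 2) (gy 3) (gy 4) i) := by
  fin_cases i
  · show ps (mU (zz 0 1)) * ps (rr 0) = ps (rr 3) * jj ((gy 2)⁻¹ * (gt⁻¹ * gt⁻¹))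
    simp only [psU, psr, map_one, mul_one, map_mul, map_inv, jj_t, jj_y, Mt, My0, My1, My2,
      My3, My4, mm_inv, mm_mul]
    exact mm_eq _ _ (zz 0 1) (zz 1 0) (by decide) (by decide)
  · show ps (mU (zz 0 1)) * ps (rr 1) = ps (rr 6) * jj (1)
    simp only [psU, psr, map_one, mul_one, map_mul, map_inv, jj_t, jj_y, Mt, My0, My1, My2,
      My3, My4, mm_inv, mm_mul]
    exact mm_eq _ _ (zz 1 0) (zz 1 0) (by decide) (by decide)
  · show ps (mU (zz 0 1)) * ps (rr 2) = ps (rr 0) * jj ((gy 2)⁻¹ * (gt⁻¹ * gt⁻¹))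
    simp only [psU, psr, map_one, mul_one, map_mul, map_inv, jj_t, jj_y, Mt, My0, My1, My2,
      My3, My4, mm_inv, mm_mul]
    exact mm_eq _ _ (zz 0 1) (zz 1 0) (by decide) (by decide)
  · show ps (mU (zz 0 1)) * ps (rr 3) = ps (rr 2) * jj ((gy 1)⁻¹ * gt⁻¹)
    simp only [psU, psr, map_one, mul_one, map_mul, map_inv, jj_t, jj_y, Mt, My0, My1, My2,
      My3, My4, mm_inv, mm_mul]
    exact mm_eq _ _ (zz 0 1) (zz 1 0) (by decide) (by decide)
  · show ps (mU (zz 0 1)) * ps (rr 4) = ps (rr 9) * jj (gt * (gy 1)⁻¹)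
    simp only [psU, psr, map_one, mul_one, map_mul, map_inv, jj_t, jj_y, Mt, My0, My1, My2,
      My3, My4, mm_inv, mm_mul]
    exact mm_eq _ _ (zz 0 (-1)) (zz 1 0) (by decide) (by decide)
  · show ps (mU (zz 0 1)) * ps (rr 5) = ps (rr 4) * jj ((gy 4)⁻¹ * (gt * gt))
    simp only [psU, psr, map_one, mul_one, map_mul, map_inv, jj_t, jj_y, Mt, My0, My1, My2,
      My3, My4, mm_inv, mm_mul]
    exact mm_eq _ _ (zz 0 (-1)) (zz 1 0) (by decide) (by decide)
  · show ps (mU (zz 0 1)) * ps (rr 6) = ps (rr 7) * jj (gy 0 * gt)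
    simp only [psU, psr, map_one, mul_one, map_mul, map_inv, jj_t, jj_y, Mt, My0, My1, My2,
      My3, My4, mm_inv, mm_mul]
    exact mm_eq _ _ (zz 0 1) (zz 1 0) (by decide) (by decide)
  · show ps (mU (zz 0 1)) * ps (rr 7) = ps (rr 1) * jj (1)
    simp only [psU, psr, map_one, mul_one, map_mul, map_inv, jj_t, jj_y, Mt, My0, My1, My2,
      My3, My4, mm_inv, mm_mul]
    exact mm_eq _ _ (zz 1 0) (zz 1 0) (by decide) (by decide)
  · show ps (mU (zz 0 1)) * ps (rr 8) = ps (rr 8) * jj (gt⁻¹ * (gy 3)⁻¹)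
    simp only [psU, psr, map_one, mul_one, map_mul, map_inv, jj_t, jj_y, Mt, My0, My1, My2,
      My3, My4, mm_inv, mm_mul]
    exact mm_eq _ _ (zz 0 1) (zz 1 0) (by decide) (by decide)
  · show ps (mU (zz 0 1)) * ps (rr 9) = ps (rr 5) * jj (gt⁻¹ * gt⁻¹)
    simp only [psU, psr, map_one, mul_one, map_mul, map_inv, jj_t, jj_y, Mt, My0, My1, My2,
      My3, My4, mm_inv, mm_mul]
    exact mm_eq _ _ (zz 0 1) (zz 1 0) (by decide) (by decide)
  · show ps (mU (zz 0 1)) * ps (rr 10) = ps (rr 10) * jj (gt⁻¹ * (gy 3)⁻¹)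
    simp only [psU, psr, map_one, mul_one, map_mul, map_inv, jj_t, jj_y, Mt, My0, My1, My2,
      My3, My4, mm_inv, mm_mul]
    exact mm_eq _ _ (zz 0 1) (zz 1 0) (by decide) (by decide)
  · show ps (mU (zz 0 1)) * ps (rr 11) = ps (rr 11) * jj (gt * ((gy 4)⁻¹ * (gt * (gt * (gt * (gy 0 * gt))))))
    simp only [psU, psr, map_one, mul_one, map_mul, map_inv, jj_t, jj_y, Mt, My0, My1, My2,
      My3, My4, mm_inv, mm_mul]
    exact mm_eq _ _ (zz 0 (-2)) (zz 1 0) (by decide) (by decide)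

theorem ent_B (i : Fin 12) : ps (mB O2) * ps (rr i) =
    ps (rr (sB i)) * jj (cB gt i) := by
  fin_cases i
  · show ps (mB O2) * ps (rr 0) = ps (rr 1) * jj (1)
    simp only [psB, psr, map_one, mul_one, map_mul, map_inv, jj_t, jj_y, Mt, My0, My1, My2,
      My3, My4, mm_inv, mm_mul]
    exact mm_eq _ _ (zz 1 0) (zz 1 0) (by decide) (by decide)
  · show ps (mB O2) * ps (rr 1) = ps (rr 0) * jj (1)
    simp only [psB, psr, map_one, mul_one, map_mul, map_inv, jj_t, jj_y, Mt, My0, My1, My2,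
      My3, My4, mm_inv, mm_mul]
    exact mm_eq _ _ (zz (-1) 0) (zz 1 0) (by decide) (by decide)
  · show ps (mB O2) * ps (rr 2) = ps (rr 8) * jj (1)
    simp only [psB, psr, map_one, mul_one, map_mul, map_inv, jj_t, jj_y, Mt, My0, My1, My2,
      My3, My4, mm_inv, mm_mul]
    exact mm_eq _ _ (zz 1 0) (zz 1 0) (by decide) (by decide)
  · show ps (mB O2) * ps (rr 3) = ps (rr 7) * jj (gt⁻¹ * gt⁻¹)
    simp only [psB, psr, map_one, mul_one, map_mul, map_inv, jj_t, jj_y, Mt, My0, My1, My2,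
      My3, My4, mm_inv, mm_mul]
    exact mm_eq _ _ (zz 0 1) (zz 1 0) (by decide) (by decide)
  · show ps (mB O2) * ps (rr 4) = ps (rr 9) * jj (1)
    simp only [psB, psr, map_one, mul_one, map_mul, map_inv, jj_t, jj_y, Mt, My0, My1, My2,
      My3, My4, mm_inv, mm_mul]
    exact mm_eq _ _ (zz 1 0) (zz 1 0) (by decide) (by decide)
  · show ps (mB O2) * ps (rr 5) = ps (rr 10) * jj (1)
    simp only [psB, psr, map_one, mul_one, map_mul, map_inv, jj_t, jj_y, Mt, My0, My1, My2,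
      My3, My4, mm_inv, mm_mul]
    exact mm_eq _ _ (zz 1 0) (zz 1 0) (by decide) (by decide)
  · show ps (mB O2) * ps (rr 6) = ps (rr 11) * jj (1)
    simp only [psB, psr, map_one, mul_one, map_mul, map_inv, jj_t, jj_y, Mt, My0, My1, My2,
      My3, My4, mm_inv, mm_mul]
    exact mm_eq _ _ (zz 1 0) (zz 1 0) (by decide) (by decide)
  · show ps (mB O2) * ps (rr 7) = ps (rr 3) * jj (gt * gt)
    simp only [psB, psr, map_one, mul_one, map_mul, map_inv, jj_t, jj_y, Mt, My0, My1, My2,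
      My3, My4, mm_inv, mm_mul]
    exact mm_eq _ _ (zz 0 (-1)) (zz 1 0) (by decide) (by decide)
  · show ps (mB O2) * ps (rr 8) = ps (rr 2) * jj (1)
    simp only [psB, psr, map_one, mul_one, map_mul, map_inv, jj_t, jj_y, Mt, My0, My1, My2,
      My3, My4, mm_inv, mm_mul]
    exact mm_eq _ _ (zz (-1) 0) (zz 1 0) (by decide) (by decide)
  · show ps (mB O2) * ps (rr 9) = ps (rr 4) * jj (1)
    simp only [psB, psr, map_one, mul_one, map_mul, map_inv, jj_t, jj_y, Mt, My0, My1, My2,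
      My3, My4, mm_inv, mm_mul]
    exact mm_eq _ _ (zz (-1) 0) (zz 1 0) (by decide) (by decide)
  · show ps (mB O2) * ps (rr 10) = ps (rr 5) * jj (1)
    simp only [psB, psr, map_one, mul_one, map_mul, map_inv, jj_t, jj_y, Mt, My0, My1, My2,
      My3, My4, mm_inv, mm_mul]
    exact mm_eq _ _ (zz (-1) 0) (zz 1 0) (by decide) (by decide)
  · show ps (mB O2) * ps (rr 11) = ps (rr 6) * jj (1)
    simp only [psB, psr, map_one, mul_one, map_mul, map_inv, jj_t, jj_y, Mt, My0, My1, My2,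
      My3, My4, mm_inv, mm_mul]
    exact mm_eq _ _ (zz (-1) 0) (zz 1 0) (by decide) (by decide)

theorem lb_A (i : Fin 12) : ((rr (sA i))⁻¹ * mU 1 * rr i, cA gt (gy 0) (gy 1) (gy 2) (gy 3) (gy 4) i) ∈ LBS := by
  rw [rr_inv, rr_eq]
  fin_cases i
  · show (rm' 2 * mU 1 * rm 0, 1) ∈ LBS
    refine lbs_mk (0) (by decide) (by decide) ?_ (by decide) ?_
    · simp only [nn_mul, nn_inv, nn_t, nn_F, nn_one]
    · simp only [map_mul, map_inv, map_one, pr_t, pr_y]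
  · show (rm' 4 * mU 1 * rm 1, 1) ∈ LBS
    refine lbs_mk (0) (by decide) (by decide) ?_ (by decide) ?_
    · simp only [nn_mul, nn_inv, nn_t, nn_F, nn_one]
    · simp only [map_mul, map_inv, map_one, pr_t, pr_y]
  · show (rm' 3 * mU 1 * rm 2, (gy 0)⁻¹ * gt⁻¹) ∈ LBS
    refine lbs_mk (-1) (by decide) (by decide) ?_ (by decide) ?_
    · simp only [nn_mul, nn_inv, nn_t, nn_F, nn_one]; rfl
    · simp only [map_mul, map_inv, map_one, pr_t, pr_y]; decide
  · show (rm' 0 * mU 1 * rm 3, 1) ∈ LBS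
    refine lbs_mk (0) (by decide) (by decide) ?_ (by decide) ?_
    · simp only [nn_mul, nn_inv, nn_t, nn_F, nn_one]
    · simp only [map_mul, map_inv, map_one, pr_t, pr_y]
  · show (rm' 6 * mU 1 * rm 4, gt⁻¹ * ((gy 2)⁻¹ * gt⁻¹)) ∈ LBS
    refine lbs_mk (-2) (by decide) (by decide) ?_ (by decide) ?_
    · simp only [nn_mul, nn_inv, nn_t, nn_F, nn_one]; rfl
    · simp only [map_mul, map_inv, map_one, pr_t, pr_y]; decide
  · show (rm' 1 * mU 1 * rm 5, 1) ∈ LBS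
    refine lbs_mk (0) (by decide) (by decide) ?_ (by decide) ?_
    · simp only [nn_mul, nn_inv, nn_t, nn_F, nn_one]
    · simp only [map_mul, map_inv, map_one, pr_t, pr_y]
  · show (rm' 9 * mU 1 * rm 6, gt * (gy 1)⁻¹) ∈ LBS
    refine lbs_mk (1) (by decide) (by decide) ?_ (by decide) ?_
    · simp only [nn_mul, nn_inv, nn_t, nn_F, nn_one]; rfl
    · simp only [map_mul, map_inv, map_one, pr_t, pr_y]; decide
  · show (rm' 5 * mU 1 * rm 7, gt⁻¹ * ((gy 2)⁻¹ * gt⁻¹)) ∈ LBS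
    refine lbs_mk (-2) (by decide) (by decide) ?_ (by decide) ?_
    · simp only [nn_mul, nn_inv, nn_t, nn_F, nn_one]; rfl
    · simp only [map_mul, map_inv, map_one, pr_t, pr_y]; decide
  · show (rm' 10 * mU 1 * rm 8, 1) ∈ LBS
    refine lbs_mk (0) (by decide) (by decide) ?_ (by decide) ?_
    · simp only [nn_mul, nn_inv, nn_t, nn_F, nn_one]
    · simp only [map_mul, map_inv, map_one, pr_t, pr_y]
  · show (rm' 7 * mU 1 * rm 9, gt⁻¹ * gt⁻¹) ∈ LBS
    refine lbs_mk (-2) (by decide) (by decide) ?_ (by decide) ?_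
    · simp only [nn_mul, nn_inv, nn_t, nn_F, nn_one]; rfl
    · simp only [map_mul, map_inv, map_one, pr_t, pr_y]; decide
  · show (rm' 8 * mU 1 * rm 10, gt * (gy 0 * (gt * (gt * ((gy 4)⁻¹ * (gt * gt)))))) ∈ LBS
    refine lbs_mk (5) (by decide) (by decide) ?_ (by decide) ?_
    · simp only [nn_mul, nn_inv, nn_t, nn_F, nn_one]; rfl
    · simp only [map_mul, map_inv, map_one, pr_t, pr_y]; decide
  · show (rm' 11 * mU 1 * rm 11, gt * (gy 3)⁻¹) ∈ LBS
    refine lbs_mk (1) (by decide) (by decide) ?_ (by decide) ?_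
    · simp only [nn_mul, nn_inv, nn_t, nn_F, nn_one]; rfl
    · simp only [map_mul, map_inv, map_one, pr_t, pr_y]; decide

theorem lb_U (i : Fin 12) : ((rr (sU i))⁻¹ * mU (zz 0 1) * rr i, cU gt (gy 0) (gy 1) (gy 2) (gy 3) (gy 4) i) ∈ LBS := by
  rw [rr_inv, rr_eq]
  fin_cases i
  · show (rm' 3 * mU (zz 0 1) * rm 0, (gy 2)⁻¹ * (gt⁻¹ * gt⁻¹)) ∈ LBS
    refine lbs_mk (-2) (by decide) (by decide) ?_ (by decide) ?_
    · simp only [nn_mul, nn_inv, nn_t, nn_F, nn_one]; rfl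
    · simp only [map_mul, map_inv, map_one, pr_t, pr_y]; decide
  · show (rm' 6 * mU (zz 0 1) * rm 1, 1) ∈ LBS
    refine lbs_mk (0) (by decide) (by decide) ?_ (by decide) ?_
    · simp only [nn_mul, nn_inv, nn_t, nn_F, nn_one]
    · simp only [map_mul, map_inv, map_one, pr_t, pr_y]
  · show (rm' 0 * mU (zz 0 1) * rm 2, (gy 2)⁻¹ * (gt⁻¹ * gt⁻¹)) ∈ LBS
    refine lbs_mk (-2) (by decide) (by decide) ?_ (by decide) ?_
    · simp only [nn_mul, nn_inv, nn_t, nn_F, nn_one]; rfl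
    · simp only [map_mul, map_inv, map_one, pr_t, pr_y]; decide
  · show (rm' 2 * mU (zz 0 1) * rm 3, (gy 1)⁻¹ * gt⁻¹) ∈ LBS
    refine lbs_mk (-1) (by decide) (by decide) ?_ (by decide) ?_
    · simp only [nn_mul, nn_inv, nn_t, nn_F, nn_one]; rfl
    · simp only [map_mul, map_inv, map_one, pr_t, pr_y]; decide
  · show (rm' 9 * mU (zz 0 1) * rm 4, gt * (gy 1)⁻¹) ∈ LBS
    refine lbs_mk (1) (by decide) (by decide) ?_ (by decide) ?_
    · simp only [nn_mul, nn_inv, nn_t, nn_F, nn_one]; rfl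
    · simp only [map_mul, map_inv, map_one, pr_t, pr_y]; decide
  · show (rm' 4 * mU (zz 0 1) * rm 5, (gy 4)⁻¹ * (gt * gt)) ∈ LBS
    refine lbs_mk (2) (by decide) (by decide) ?_ (by decide) ?_
    · simp only [nn_mul, nn_inv, nn_t, nn_F, nn_one]; rfl
    · simp only [map_mul, map_inv, map_one, pr_t, pr_y]; decide
  · show (rm' 7 * mU (zz 0 1) * rm 6, gy 0 * gt) ∈ LBS
    refine lbs_mk (1) (by decide) (by decide) ?_ (by decide) ?_
    · simp only [nn_mul, nn_inv, nn_t, nn_F, nn_one]; rfl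
    · simp only [map_mul, map_inv, map_one, pr_t, pr_y]; decide
  · show (rm' 1 * mU (zz 0 1) * rm 7, 1) ∈ LBS
    refine lbs_mk (0) (by decide) (by decide) ?_ (by decide) ?_
    · simp only [nn_mul, nn_inv, nn_t, nn_F, nn_one]
    · simp only [map_mul, map_inv, map_one, pr_t, pr_y]
  · show (rm' 8 * mU (zz 0 1) * rm 8, gt⁻¹ * (gy 3)⁻¹) ∈ LBS
    refine lbs_mk (-1) (by decide) (by decide) ?_ (by decide) ?_
    · simp only [nn_mul, nn_inv, nn_t, nn_F, nn_one]; rfl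
    · simp only [map_mul, map_inv, map_one, pr_t, pr_y]; decide
  · show (rm' 5 * mU (zz 0 1) * rm 9, gt⁻¹ * gt⁻¹) ∈ LBS
    refine lbs_mk (-2) (by decide) (by decide) ?_ (by decide) ?_
    · simp only [nn_mul, nn_inv, nn_t, nn_F, nn_one]; rfl
    · simp only [map_mul, map_inv, map_one, pr_t, pr_y]; decide
  · show (rm' 10 * mU (zz 0 1) * rm 10, gt⁻¹ * (gy 3)⁻¹) ∈ LBS
    refine lbs_mk (-1) (by decide) (by decide) ?_ (by decide) ?_
    · simp only [nn_mul, nn_inv, nn_t, nn_F, nn_one]; rfl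
    · simp only [map_mul, map_inv, map_one, pr_t, pr_y]; decide
  · show (rm' 11 * mU (zz 0 1) * rm 11, gt * ((gy 4)⁻¹ * (gt * (gt * (gt * (gy 0 * gt)))))) ∈ LBS
    refine lbs_mk (5) (by decide) (by decide) ?_ (by decide) ?_
    · simp only [nn_mul, nn_inv, nn_t, nn_F, nn_one]; rfl
    · simp only [map_mul, map_inv, map_one, pr_t, pr_y]; decide

theorem lb_B (i : Fin 12) : ((rr (sB i))⁻¹ * mB O2 * rr i, cB gt i) ∈ LBS := by
  rw [rr_inv, rr_eq]
  fin_cases i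
  · show (rm' 1 * mB O2 * rm 0, 1) ∈ LBS
    refine lbs_mk (0) (by decide) (by decide) ?_ (by decide) ?_
    · simp only [nn_mul, nn_inv, nn_t, nn_F, nn_one]
    · simp only [map_mul, map_inv, map_one, pr_t, pr_y]
  · show (rm' 0 * mB O2 * rm 1, 1) ∈ LBS
    refine lbs_mk (0) (by decide) (by decide) ?_ (by decide) ?_
    · simp only [nn_mul, nn_inv, nn_t, nn_F, nn_one]
    · simp only [map_mul, map_inv, map_one, pr_t, pr_y]
  · show (rm' 8 * mB O2 * rm 2, 1) ∈ LBS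
    refine lbs_mk (0) (by decide) (by decide) ?_ (by decide) ?_
    · simp only [nn_mul, nn_inv, nn_t, nn_F, nn_one]
    · simp only [map_mul, map_inv, map_one, pr_t, pr_y]
  · show (rm' 7 * mB O2 * rm 3, gt⁻¹ * gt⁻¹) ∈ LBS
    refine lbs_mk (-2) (by decide) (by decide) ?_ (by decide) ?_
    · simp only [nn_mul, nn_inv, nn_t, nn_F, nn_one]; rfl
    · simp only [map_mul, map_inv, map_one, pr_t, pr_y]; decide
  · show (rm' 9 * mB O2 * rm 4, 1) ∈ LBS
    refine lbs_mk (0) (by decide) (by decide) ?_ (by decide) ?_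
    · simp only [nn_mul, nn_inv, nn_t, nn_F, nn_one]
    · simp only [map_mul, map_inv, map_one, pr_t, pr_y]
  · show (rm' 10 * mB O2 * rm 5, 1) ∈ LBS
    refine lbs_mk (0) (by decide) (by decide) ?_ (by decide) ?_
    · simp only [nn_mul, nn_inv, nn_t, nn_F, nn_one]
    · simp only [map_mul, map_inv, map_one, pr_t, pr_y]
  · show (rm' 11 * mB O2 * rm 6, 1) ∈ LBS
    refine lbs_mk (0) (by decide) (by decide) ?_ (by decide) ?_
    · simp only [nn_mul, nn_inv, nn_t, nn_F, nn_one]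
    · simp only [map_mul, map_inv, map_one, pr_t, pr_y]
  · show (rm' 3 * mB O2 * rm 7, gt * gt) ∈ LBS
    refine lbs_mk (2) (by decide) (by decide) ?_ (by decide) ?_
    · simp only [nn_mul, nn_inv, nn_t, nn_F, nn_one]; rfl
    · simp only [map_mul, map_inv, map_one, pr_t, pr_y]; decide
  · show (rm' 2 * mB O2 * rm 8, 1) ∈ LBS
    refine lbs_mk (0) (by decide) (by decide) ?_ (by decide) ?_
    · simp only [nn_mul, nn_inv, nn_t, nn_F, nn_one]
    · simp only [map_mul, map_inv, map_one, pr_t, pr_y]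
  · show (rm' 4 * mB O2 * rm 9, 1) ∈ LBS
    refine lbs_mk (0) (by decide) (by decide) ?_ (by decide) ?_
    · simp only [nn_mul, nn_inv, nn_t, nn_F, nn_one]
    · simp only [map_mul, map_inv, map_one, pr_t, pr_y]
  · show (rm' 5 * mB O2 * rm 10, 1) ∈ LBS
    refine lbs_mk (0) (by decide) (by decide) ?_ (by decide) ?_
    · simp only [nn_mul, nn_inv, nn_t, nn_F, nn_one]
    · simp only [map_mul, map_inv, map_one, pr_t, pr_y]
  · show (rm' 6 * mB O2 * rm 11, 1) ∈ LBS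
    refine lbs_mk (0) (by decide) (by decide) ?_ (by decide) ?_
    · simp only [nn_mul, nn_inv, nn_t, nn_F, nn_one]
    · simp only [map_mul, map_inv, map_one, pr_t, pr_y]


end Pool.Agent.F8.BG.D2
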