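import Pool.Agent.Lib.MP_305fdd_al.F8.BG.D2.Mat

/-!
# MP_305fdd_al, Bianchi group for `d = 2`: the homomorphism given by the coset table

`A0` is the subgroup of `SL₂(ℤ/9) × SL₂(ℤ/2)` whose preimage `G0` in `SL₂(O2)` is the stabiliser of the class `0`;
`Lm` is the character of `A0` which gives the exponent of `t` modulo `3`.
-/

set_option autoImplicit false
set_option linter.unusedSimpArgs false

namespace Pool.Agent.F8.BG.D2

open Pool.Agent.F8 Pool.Agent.F8.BG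
open Pool.Agent.F8.G (SL_ext SL_mul SL_det SL_neg mU00 mU01 mU10 mU11 mB00 mB01 mB10 mB11
  one00 one01 one10 one11 U00 U01 U10 U11 B00 B01 B10 B11 mU_add mU_zero BB)
open scoped QuadraticAlgebra

/-! ### The characters -/

/-- reduction modulo `9`, `w ↦ 5` -/
def r9 : SL2 O2 →* SL2 (ZMod 9) := SLm (evq (-2) 0 (Int.castRingHom (ZMod 9)) 5 (by decide))

/-- reduction modulo `w` -/
def r2 : SL2 O2 →* SL2 (ZMod 2) := SLm (evq (-2) 0 (Int.castRingHom (ZMod 2)) 0 (by decide))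

/-- both reductions -/
def r92 : SL2 O2 →* SL2 (ZMod 9) × SL2 (ZMod 2) := r9.prod r2

/-- entries in the basis `(1, -1), (0, 1)` -/
def cP {R : Type} [CommRing R] (g : SL2 R) : R := g.val 0 0 - g.val 0 1
/-- entries in the basis `(1, -1), (0, 1)` -/
def cQ {R : Type} [CommRing R] (g : SL2 R) : R := g.val 0 1
/-- entries in the basis `(1, -1), (0, 1)` -/
def cR {R : Type} [CommRing R] (g : SL2 R) : R := g.val 0 0 - g.val 0 1 + g.val 1 0 - g.val 1 1
/-- entries in the basis `(1, -1), (0, 1)` -/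
def cS {R : Type} [CommRing R] (g : SL2 R) : R := g.val 0 1 + g.val 1 1

section

variable {R : Type} [CommRing R] (g h : SL2 R)

theorem cP_mul : cP (g * h) = cP g * cP h + cQ g * cR h := by
  unfold cP cQ cR; rw [SL_mul, SL_mul]; ring
theorem cQ_mul : cQ (g * h) = cP g * cQ h + cQ g * cS h := by
  unfold cP cQ cS; rw [SL_mul]; ring
theorem cR_mul : cR (g * h) = cR g * cP h + cS g * cR h := by
  unfold cR cP cS; rw [SL_mul, SL_mul, SL_mul, SL_mul]; ring
theorem c_det : cP g * cS g - cQ g * cR g = 1 := by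
  unfold cP cS cQ cR
  linear_combination SL_det g

end

/-- the condition modulo `3` -/
def A9 (g : SL2 (ZMod 9)) : Prop := 3 * cR g = 0

theorem A9_mul {g h : SL2 (ZMod 9)} (hg : A9 g) (hh : A9 h) : A9 (g * h) := by
  unfold A9 at *
  rw [cR_mul]
  linear_combination (cP h) * hg + (cS g) * hh

theorem z9_three : ∀ r : ZMod 9, 3 * r = 0 → ∃ c : ZMod 9, r = 3 * c := by decide

theorem z9_unit : ∀ p s : ZMod 9, 3 * (p * s) = 3 → 3 * (p * p) = 3 := by decide

/-- the character -/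
def Lm (g : SL2 (ZMod 9)) : ZMod 9 := cP g * (3 * cQ g + cR g)

theorem Lm_one : Lm 1 = 0 := by decide

theorem A9_one : A9 1 := by unfold A9; decide

theorem A9_unit {g : SL2 (ZMod 9)} (hg : A9 g) : 3 * (cP g * cP g) = 3 := by
  apply z9_unit _ (cS g)
  unfold A9 at hg
  linear_combination 3 * c_det g + cQ g * hg

theorem Lm_mul {g h : SL2 (ZMod 9)} (hg : A9 g) (hh : A9 h) : Lm (g * h) = Lm g + Lm h := by
  have u1 := A9_unit hg
  have u2 := A9_unit hh
  have d1 := c_det g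
  have d2 := c_det h
  unfold A9 at hg hh
  unfold Lm
  rw [cP_mul, cQ_mul, cR_mul]
  obtain ⟨r, hr⟩ := z9_three _ hg
  obtain ⟨r', hr'⟩ := z9_three _ hh
  have h9 : (9 : ZMod 9) = 0 := by decide
  rw [hr] at d1
  rw [hr'] at d2
  rw [hr, hr']
  generalize cP g = p at *
  generalize cQ g = q at *
  generalize cS g = s at *
  generalize cP h = p' at *
  generalize cQ h = q' at *
  generalize cS h = s' at *
  linear_combination (p' * q') * u1 + (3 * p * q) * d2 + (p * r) * u2 + (3 * p' * r') * d1 +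
    (p * p' * 0 + q * r' * p * q' + q * q * r' * s' + q * r' * r * p' + q * r' * r' * s +
      p * q * q' * r' + p' * r' * q * r) * h9

theorem A9_inv {g : SL2 (ZMod 9)} (hg : A9 g) : A9 g⁻¹ := by
  have h1 := c_det g
  have h2 : cR (g⁻¹ * g) = 0 := by rw [inv_mul_cancel]; decide
  rw [cR_mul] at h2
  have h3 := A9_unit hg
  have h4 := hg
  unfold A9 at h4 ⊢
  have h5 : 3 * cR g⁻¹ * cP g = 0 := by linear_combination 3 * h2 - cS g⁻¹ * h4
  linear_combination (cP g) * h5 - cR g⁻¹ * h3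

/-- the subgroup of `SL₂(ℤ/9) × SL₂(ℤ/2)` -/
def A0 : Subgroup (SL2 (ZMod 9) × SL2 (ZMod 2)) where
  carrier := {g | A9 g.1 ∧ g.2.val 1 0 = 0}
  one_mem' := ⟨A9_one, one10⟩
  mul_mem' := by
    rintro g h ⟨h1, h2⟩ ⟨h3, h4⟩
    refine ⟨A9_mul h1 h3, ?_⟩
    show (g.2 * h.2).val 1 0 = 0
    rw [SL_mul, h2, h4, zero_mul, mul_zero, add_zero]
  inv_mem' := by
    rintro g ⟨h1, h2⟩
    refine ⟨A9_inv h1, ?_⟩
    have h3 := SL_det g.2
    rw [h2, mul_zero, sub_zero] at h3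
    have h4 : (g.2⁻¹ * g.2).val 1 0 = 0 := by rw [inv_mul_cancel]; exact one10
    rw [SL_mul, h2, mul_zero, add_zero] at h4
    show (g.2⁻¹).val 1 0 = 0
    linear_combination (g.2.val 1 1) * h4 - (g.2⁻¹).val 1 0 * h3

theorem mem_A0 (g : SL2 (ZMod 9) × SL2 (ZMod 2)) : g ∈ A0 ↔ A9 g.1 ∧ g.2.val 1 0 = 0 := Iff.rfl

/-- the exponent of `t` -/
def nn (h : G2) : ℤ := Multiplicative.toAdd (nR al2 h)

theorem nn_mul (g h : G2) : nn (g * h) = nn g + nn h := by
  unfold nn; rw [map_mul, toAdd_mul]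
theorem nn_inv (g : G2) : nn g⁻¹ = -nn g := by
  unfold nn; rw [map_inv, toAdd_inv]
theorem nn_one : nn 1 = 0 := by
  unfold nn; rw [map_one, toAdd_one]
theorem nn_t : nn gt = 1 := rfl
theorem nn_F (w : F5) : nn (iR al2 w) = 0 := rfl

/-- the parity on `F5`: the number of the letters `y1, y2, y4` -/
def pF : F5 →* Multiplicative (ZMod 2) :=
  FreeGroup.lift fun i => Multiplicative.ofAdd (![1, 1, 0, 1, 0] i : ZMod 2)

/-- the parity: the number of the letters `t, y1, y2, y4` -/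
def pr : G2 →* Multiplicative (ZMod 2) :=
  liR (fun i => Multiplicative.ofAdd (![1, 1, 0, 1, 0] i : ZMod 2))
    (Multiplicative.ofAdd (1 : ZMod 2)) (by
    intro i
    have h : al2 (FreeGroup.of i) = aw i := al2_of i
    rw [h]
    fin_cases i
    · show _ = FreeGroup.lift _ ((y 1)⁻¹ * (y 4)⁻¹)
      simp only [map_mul, map_inv, FreeGroup.lift_apply_of]; decide
    · show _ = FreeGroup.lift _ ((y 0)⁻¹ * (y 4)⁻¹)
      simp only [map_mul, map_inv, FreeGroup.lift_apply_of]; decide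
    · show _ = FreeGroup.lift _ ((y 4)⁻¹)
      simp only [map_mul, map_inv, FreeGroup.lift_apply_of]; decide
    · show _ = FreeGroup.lift _ ((y 2)⁻¹ * (y 1)⁻¹)
      simp only [map_mul, map_inv, FreeGroup.lift_apply_of]; decide
    · show _ = FreeGroup.lift _ ((y 0)⁻¹ * (y 4)⁻¹ * (y 3)⁻¹)
      simp only [map_mul, map_inv, FreeGroup.lift_apply_of]; decide)

theorem pr_t : pr gt = Multiplicative.ofAdd (1 : ZMod 2) := liR_tR _
theorem pr_F (w : F5) : pr (iR al2 w) = pF w := liR_iR _ w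
theorem pF_y (i : Fin 5) : pF (y i) = Multiplicative.ofAdd (![1, 1, 0, 1, 0] i : ZMod 2) :=
  FreeGroup.lift_apply_of
theorem pr_y (i : Fin 5) : pr (gy i) = Multiplicative.ofAdd (![1, 1, 0, 1, 0] i : ZMod 2) := by
  rw [pr_F, pF_y]

/-- the relation between an element of `G0` and its image -/
def LBS : Subgroup (SL2 O2 × G2) where
  carrier := {p | r92 p.1 ∈ A0 ∧ Lm (r9 p.1) = 3 * (nn p.2 : ZMod 9) ∧ pr p.2 = 1}
  one_mem' := by
    refine ⟨?_, ?_, ?_⟩
    · rw [Prod.fst_one, map_one]; exact A0.one_mem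
    · rw [Prod.fst_one, Prod.snd_one, map_one, Lm_one, nn_one, Int.cast_zero, mul_zero]
    · rw [Prod.snd_one, map_one]
  mul_mem' := by
    rintro x z ⟨h1, h2, h3⟩ ⟨k1, k2, k3⟩
    refine ⟨?_, ?_, ?_⟩
    · rw [Prod.fst_mul, map_mul]; exact A0.mul_mem h1 k1
    · have h4 : Lm (r9 x.1 * r9 z.1) = Lm (r9 x.1) + Lm (r9 z.1) := Lm_mul h1.1 k1.1
      rw [Prod.fst_mul, Prod.snd_mul, map_mul, h4, h2, k2, nn_mul]
      push_cast; ring
    · rw [Prod.snd_mul, map_mul, h3, k3, mul_one]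
  inv_mem' := by
    rintro x ⟨h1, h2, h3⟩
    refine ⟨?_, ?_, ?_⟩
    · rw [Prod.fst_inv, map_inv]; exact A0.inv_mem h1
    · have h4 : Lm ((r9 x.1)⁻¹ * r9 x.1) = Lm (r9 x.1)⁻¹ + Lm (r9 x.1) :=
        Lm_mul (A9_inv h1.1) h1.1
      rw [inv_mul_cancel, Lm_one] at h4
      rw [Prod.fst_inv, Prod.snd_inv, map_inv, nn_inv]
      push_cast
      linear_combination -h4 - h2
    · rw [Prod.snd_inv, map_inv, h3, inv_one]

theorem mem_LBS (X : SL2 O2) (h : G2) : (X, h) ∈ LBS ↔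
    r92 X ∈ A0 ∧ Lm (r9 X) = 3 * (nn h : ZMod 9) ∧ pr h = 1 := Iff.rfl

end Pool.Agent.F8.BG.D2
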