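import Pool.Agent.Lib.MP_305fdd_al.F8.BG.D2.Etq

/-!
# MP_305fdd_al, Bianchi group for `d = 2`: no cocycle modulo `7` on `G0`

The intersection of the image of `η` with `F5` is generated by nine elements (`z9`); the conjugation with `s = t y2` maps them to words in
these nine elements, and the linear system `f (s z s⁻¹) = 2 f z` modulo `7` has only the trivial solution.
-/

set_option autoImplicit false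
set_option linter.unusedSimpArgs false

namespace Pool.Agent.F8.BG.D2

open Pool.Agent.F8 Pool.Agent.F8.BG Pool.Agent.F8.AB
open scoped QuadraticAlgebra

/-- generators of the kernel of the parity -/
def z9 : Fin 9 → F5 :=
  ![y 0 * y 0, y 1 * (y 0)⁻¹, y 0 * y 1, y 2, y 0 * y 2 * (y 0)⁻¹, y 3 * (y 0)⁻¹, y 0 * y 3, y 4,
    y 0 * y 4 * (y 0)⁻¹]

theorem pF_z9 (k : Fin 9) : pF (z9 k) = 1 := by
  fin_cases k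
  · show pF (y 0 * y 0) = 1
    simp only [map_mul, map_inv, pF_y]; decide
  · show pF (y 1 * (y 0)⁻¹) = 1
    simp only [map_mul, map_inv, pF_y]; decide
  · show pF (y 0 * y 1) = 1
    simp only [map_mul, map_inv, pF_y]; decide
  · show pF (y 2) = 1
    simp only [map_mul, map_inv, pF_y]; decide
  · show pF (y 0 * y 2 * (y 0)⁻¹) = 1
    simp only [map_mul, map_inv, pF_y]; decide
  · show pF (y 3 * (y 0)⁻¹) = 1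
    simp only [map_mul, map_inv, pF_y]; decide
  · show pF (y 0 * y 3) = 1
    simp only [map_mul, map_inv, pF_y]; decide
  · show pF (y 4) = 1
    simp only [map_mul, map_inv, pF_y]; decide
  · show pF (y 0 * y 4 * (y 0)⁻¹) = 1
    simp only [map_mul, map_inv, pF_y]; decide

/-- they generate -/
theorem z9_top (K : Subgroup F5) (hK : ∀ k, z9 k ∈ K) (w : F5) (hw : pF w = 1) : w ∈ K := by
  have k0 : y 0 * y 0 ∈ K := hK 0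
  have k1 : y 1 * (y 0)⁻¹ ∈ K := hK 1
  have k2 : y 0 * y 1 ∈ K := hK 2
  have k3 : y 2 ∈ K := hK 3
  have k4 : y 0 * y 2 * (y 0)⁻¹ ∈ K := hK 4
  have k5 : y 3 * (y 0)⁻¹ ∈ K := hK 5
  have k6 : y 0 * y 3 ∈ K := hK 6
  have k7 : y 4 ∈ K := hK 7
  have k8 : y 0 * y 4 * (y 0)⁻¹ ∈ K := hK 8
  -- restrict to the even elements of `K`
  let K' : Subgroup F5 := K ⊓ pF.ker
  have ki : ∀ {x : F5}, x ∈ K → x⁻¹ ∈ K := fun h => K.inv_mem h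
  have km : ∀ {x y : F5}, x ∈ K → y ∈ K → x * y ∈ K := fun h h' => K.mul_mem h h'
  let S : Subgroup F5 :=
    { carrier := {z | ∀ w, (w ∈ K' ∨ w * (y 0)⁻¹ ∈ K') → ((w * z ∈ K' ∨ w * z * (y 0)⁻¹ ∈ K') ∧
        (w * z⁻¹ ∈ K' ∨ w * z⁻¹ * (y 0)⁻¹ ∈ K'))}
      one_mem' := fun w hw => by
        rw [mul_one, inv_one, mul_one]
        exact ⟨hw, hw⟩
      mul_mem' := by
        intro y z hy hz w hw
        rw [← mul_assoc, mul_inv_rev, ← mul_assoc]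
        exact ⟨(hz _ (hy w hw).1).1, (hy _ (hz w hw).2).2⟩
      inv_mem' := by
        intro z hz w hw
        rw [inv_inv]
        exact ⟨(hz w hw).2, (hz w hw).1⟩ }
  have i' : ∀ {x : F5}, x ∈ K' → x⁻¹ ∈ K' := fun h => K'.inv_mem h
  have m' : ∀ {x y : F5}, x ∈ K' → y ∈ K' → x * y ∈ K' := fun h h' => K'.mul_mem h h'
  have ev : ∀ z : F5, z ∈ K' → y 0 * z * (y 0)⁻¹ ∈ K' → z ∈ S := by
    rintro z h1 h2 w (hw | hw)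
    · exact ⟨Or.inl (m' hw h1), Or.inl (m' hw (i' h1))⟩
    · refine ⟨Or.inr ?_, Or.inr ?_⟩
      · have : w * z * (y 0)⁻¹ = w * (y 0)⁻¹ * (y 0 * z * (y 0)⁻¹) := by group
        rw [this]; exact m' hw h2
      · have : w * z⁻¹ * (y 0)⁻¹ = w * (y 0)⁻¹ * (y 0 * z * (y 0)⁻¹)⁻¹ := by group
        rw [this]; exact m' hw (i' h2)
  have od : ∀ z : F5, z * (y 0)⁻¹ ∈ K' → y 0 * z ∈ K' → z ∈ S := by
    rintro z h1 h2 w (hw | hw)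
    · refine ⟨Or.inr ?_, Or.inr ?_⟩
      · rw [mul_assoc]; exact m' hw h1
      · have : w * z⁻¹ * (y 0)⁻¹ = w * (y 0 * z)⁻¹ := by group
        rw [this]; exact m' hw (i' h2)
    · refine ⟨Or.inl ?_, Or.inl ?_⟩
      · have : w * z = w * (y 0)⁻¹ * (y 0 * z) := by group
        rw [this]; exact m' hw h2
      · have : w * z⁻¹ = w * (y 0)⁻¹ * (z * (y 0)⁻¹)⁻¹ := by group
        rw [this]; exact m' hw (i' h1)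
  have hS : ∀ z, z ∈ S := by
    intro z
    have h1 : Subgroup.closure (Set.range (FreeGroup.of : Fin 5 → F5)) ≤ S := by
      rw [Subgroup.closure_le]
      rintro _ ⟨i, rfl⟩
      fin_cases i
      · refine od (y 0) ?_ ⟨k0, pF_z9 0⟩
        rw [mul_inv_cancel]; exact K'.one_mem
      · exact od (y 1) ⟨k1, pF_z9 1⟩ ⟨k2, pF_z9 2⟩
      · exact ev (y 2) ⟨k3, pF_z9 3⟩ ⟨k4, pF_z9 4⟩
      · exact od (y 3) ⟨k5, pF_z9 5⟩ ⟨k6, pF_z9 6⟩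
      · exact ev (y 4) ⟨k7, pF_z9 7⟩ ⟨k8, pF_z9 8⟩
    have h2 : z ∈ Subgroup.closure (Set.range (FreeGroup.of : Fin 5 → F5)) := by
      rw [FreeGroup.closure_range_of]
      exact Subgroup.mem_top z
    exact h1 h2
  have h3 := (hS w 1 (Or.inl K'.one_mem)).1
  rw [one_mul] at h3
  rcases h3 with h3 | h3
  · exact h3.1
  · exfalso
    have h4 : pF (w * (y 0)⁻¹) = 1 := h3.2
    rw [map_mul, hw, map_inv, pF_y, one_mul] at h4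
    revert h4
    decide

/-- the images of the generators under the conjugation with `t y2` -/
def v9 : Fin 9 → F5 :=
  ![(z9 0)⁻¹ * (z9 8)⁻¹ * (z9 1)⁻¹ * (z9 7)⁻¹ * (z9 2)⁻¹ * z9 0,
    (z9 0)⁻¹ * (z9 8)⁻¹ * z9 1 * z9 8 * z9 0,
    (z9 0)⁻¹ * (z9 8)⁻¹ * (z9 1)⁻¹ * (z9 7)⁻¹,
    (z9 0)⁻¹ * (z9 8)⁻¹ * z9 0,
    (z9 0)⁻¹ * (z9 8)⁻¹ * (z9 1)⁻¹ * (z9 7)⁻¹ * z9 1 * z9 8 * z9 0,
    (z9 0)⁻¹ * (z9 8)⁻¹ * (z9 4)⁻¹ * (z9 1)⁻¹ * z9 7 * z9 1 * z9 8 * z9 0,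
    (z9 0)⁻¹ * (z9 8)⁻¹ * (z9 1)⁻¹ * (z9 7)⁻¹ * (z9 3)⁻¹ * (z9 2)⁻¹ * z9 8 * z9 0,
    (z9 0)⁻¹ * (z9 8)⁻¹ * (z9 7)⁻¹ * (z9 6)⁻¹ * z9 8 * z9 0,
    (z9 0)⁻¹ * (z9 8)⁻¹ * (z9 1)⁻¹ * (z9 7)⁻¹ * (z9 0)⁻¹ * (z9 8)⁻¹ * (z9 5)⁻¹ * z9 7 * z9 1 * z9 8 * z9 0]

theorem al2_z9 (k : Fin 9) : al2 (y 1 * z9 k * (y 1)⁻¹) = v9 k := by
  fin_cases k
  · show al2 (y 1 * (y 0 * y 0) * (y 1)⁻¹) =
      (y 0 * y 0)⁻¹ * (y 0 * y 4 * (y 0)⁻¹)⁻¹ * (y 1 * (y 0)⁻¹)⁻¹ * (y 4)⁻¹ * (y 0 * y 1)⁻¹ * (y 0 * y 0)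
    simp only [map_mul, map_inv, al2_0, al2_1, al2_2, al2_3, al2_4]
    group
  · show al2 (y 1 * (y 1 * (y 0)⁻¹) * (y 1)⁻¹) =
      (y 0 * y 0)⁻¹ * (y 0 * y 4 * (y 0)⁻¹)⁻¹ * (y 1 * (y 0)⁻¹) * (y 0 * y 4 * (y 0)⁻¹) * (y 0 * y 0)
    simp only [map_mul, map_inv, al2_0, al2_1, al2_2, al2_3, al2_4]
    group
  · show al2 (y 1 * (y 0 * y 1) * (y 1)⁻¹) =
      (y 0 * y 0)⁻¹ * (y 0 * y 4 * (y 0)⁻¹)⁻¹ * (y 1 * (y 0)⁻¹)⁻¹ * (y 4)⁻¹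
    simp only [map_mul, map_inv, al2_0, al2_1, al2_2, al2_3, al2_4]
    group
  · show al2 (y 1 * (y 2) * (y 1)⁻¹) =
      (y 0 * y 0)⁻¹ * (y 0 * y 4 * (y 0)⁻¹)⁻¹ * (y 0 * y 0)
    simp only [map_mul, map_inv, al2_0, al2_1, al2_2, al2_3, al2_4]
    group
  · show al2 (y 1 * (y 0 * y 2 * (y 0)⁻¹) * (y 1)⁻¹) =
      (y 0 * y 0)⁻¹ * (y 0 * y 4 * (y 0)⁻¹)⁻¹ * (y 1 * (y 0)⁻¹)⁻¹ * (y 4)⁻¹ * (y 1 * (y 0)⁻¹) * (y 0 * y 4 * (y 0)⁻¹) * (y 0 * y 0)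
    simp only [map_mul, map_inv, al2_0, al2_1, al2_2, al2_3, al2_4]
    group
  · show al2 (y 1 * (y 3 * (y 0)⁻¹) * (y 1)⁻¹) =
      (y 0 * y 0)⁻¹ * (y 0 * y 4 * (y 0)⁻¹)⁻¹ * (y 0 * y 2 * (y 0)⁻¹)⁻¹ * (y 1 * (y 0)⁻¹)⁻¹ * (y 4) * (y 1 * (y 0)⁻¹) * (y 0 * y 4 * (y 0)⁻¹) * (y 0 * y 0)
    simp only [map_mul, map_inv, al2_0, al2_1, al2_2, al2_3, al2_4]
    group
  · show al2 (y 1 * (y 0 * y 3) * (y 1)⁻¹) =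
      (y 0 * y 0)⁻¹ * (y 0 * y 4 * (y 0)⁻¹)⁻¹ * (y 1 * (y 0)⁻¹)⁻¹ * (y 4)⁻¹ * (y 2)⁻¹ * (y 0 * y 1)⁻¹ * (y 0 * y 4 * (y 0)⁻¹) * (y 0 * y 0)
    simp only [map_mul, map_inv, al2_0, al2_1, al2_2, al2_3, al2_4]
    group
  · show al2 (y 1 * (y 4) * (y 1)⁻¹) =
      (y 0 * y 0)⁻¹ * (y 0 * y 4 * (y 0)⁻¹)⁻¹ * (y 4)⁻¹ * (y 0 * y 3)⁻¹ * (y 0 * y 4 * (y 0)⁻¹) * (y 0 * y 0)
    simp only [map_mul, map_inv, al2_0, al2_1, al2_2, al2_3, al2_4]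
    group
  · show al2 (y 1 * (y 0 * y 4 * (y 0)⁻¹) * (y 1)⁻¹) =
      (y 0 * y 0)⁻¹ * (y 0 * y 4 * (y 0)⁻¹)⁻¹ * (y 1 * (y 0)⁻¹)⁻¹ * (y 4)⁻¹ * (y 0 * y 0)⁻¹ * (y 0 * y 4 * (y 0)⁻¹)⁻¹ * (y 3 * (y 0)⁻¹)⁻¹ * (y 4) * (y 1 * (y 0)⁻¹) * (y 0 * y 4 * (y 0)⁻¹) * (y 0 * y 0)
    simp only [map_mul, map_inv, al2_0, al2_1, al2_2, al2_3, al2_4]
    group

theorem lin9 (f : Fin 9 → ZMod 7)
    (e0 : 2 * f 0 = -f 0 - f 8 - f 1 - f 7 - f 2 + f 0)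
    (e1 : 2 * f 1 = -f 0 - f 8 + f 1 + f 8 + f 0)
    (e2 : 2 * f 2 = -f 0 - f 8 - f 1 - f 7)
    (e3 : 2 * f 3 = -f 0 - f 8 + f 0)
    (e4 : 2 * f 4 = -f 0 - f 8 - f 1 - f 7 + f 1 + f 8 + f 0)
    (e5 : 2 * f 5 = -f 0 - f 8 - f 4 - f 1 + f 7 + f 1 + f 8 + f 0)
    (e6 : 2 * f 6 = -f 0 - f 8 - f 1 - f 7 - f 3 - f 2 + f 8 + f 0)
    (e7 : 2 * f 7 = -f 0 - f 8 - f 7 - f 6 + f 8 + f 0)
    (e8 : 2 * f 8 = -f 0 - f 8 - f 1 - f 7 - f 0 - f 8 - f 5 + f 7 + f 1 + f 8 + f 0) :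
    ∀ k, f k = 0 := by
  have h7 : (7 : ZMod 7) = 0 := by decide
  intro k
  fin_cases k
  · show f 0 = 0
    linear_combination 3 * e1 + 3 * e2 + 3 * e3 + 3 * e4 + 1 * e5 + 1 * e6 + 5 * e7 + 5 * e8 + ((-1) * f 0 + (-1) * f 1 + (-1) * f 2 + (-1) * f 3 + (-1) * f 4 + (-1) * f 5 + (-1) * f 6 + (-3) * f 7 + (-3) * f 8) * h7
  · show f 1 = 0
    linear_combination 1 * e1 + (0) * h7
  · show f 2 = 0
    linear_combination 6 * e0 + 3 * e1 + 4 * e2 + 3 * e3 + 3 * e4 + 1 * e5 + 1 * e6 + 5 * e7 + 5 * e8 + ((-3) * f 0 + (-2) * f 1 + (-2) * f 2 + (-1) * f 3 + (-1) * f 4 + (-1) * f 5 + (-1) * f 6 + (-4) * f 7 + (-4) * f 8) * h7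
  · show f 3 = 0
    linear_combination 5 * e0 + 6 * e1 + 6 * e2 + 2 * e3 + 3 * e4 + 1 * e5 + 4 * e6 + 6 * e7 + 5 * e8 + ((-3) * f 0 + (-3) * f 1 + (-3) * f 2 + (-1) * f 3 + (-1) * f 4 + (-1) * f 5 + (-2) * f 6 + (-5) * f 7 + (-4) * f 8) * h7
  · show f 4 = 0
    linear_combination 1 * e0 + 6 * e1 + 6 * e2 + 3 * e3 + 2 * e4 + 4 * e5 + 1 * e6 + 5 * e7 + 6 * e8 + ((-2) * f 0 + (-2) * f 1 + (-2) * f 2 + (-1) * f 3 + (-1) * f 4 + (-2) * f 5 + (-1) * f 6 + (-3) * f 7 + (-4) * f 8) * h7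
  · show f 5 = 0
    linear_combination 2 * e0 + 5 * e1 + 5 * e2 + 6 * e3 + 1 * e4 + 5 * e5 + 2 * e6 + 3 * e7 + 5 * e8 + ((-2) * f 0 + (-2) * f 1 + (-2) * f 2 + (-2) * f 3 + (-1) * f 4 + (-2) * f 5 + (-1) * f 6 + (-2) * f 7 + (-4) * f 8) * h7
  · show f 6 = 0
    linear_combination 6 * e0 + 1 * e1 + 1 * e2 + 4 * e3 + 2 * e4 + 3 * e5 + 6 * e6 + 3 * e7 + 1 * e8 + ((-2) * f 0 + (-2) * f 1 + (-2) * f 2 + (-2) * f 3 + (-1) * f 4 + (-1) * f 5 + (-2) * f 6 + (-3) * f 7 + (-2) * f 8) * h7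
  · show f 7 = 0
    linear_combination 5 * e0 + 2 * e1 + 2 * e2 + 1 * e3 + 4 * e4 + 6 * e5 + 5 * e6 + 4 * e7 + 2 * e8 + ((-2) * f 0 + (-2) * f 1 + (-2) * f 2 + (-1) * f 3 + (-2) * f 4 + (-2) * f 5 + (-2) * f 6 + (-3) * f 7 + (-2) * f 8) * h7
  · show f 8 = 0
    linear_combination 4 * e0 + 2 * e1 + 2 * e2 + 4 * e3 + 1 * e4 + 5 * e5 + 6 * e6 + 2 * e7 + 4 * e8 + ((-2) * f 0 + (-2) * f 1 + (-2) * f 2 + (-2) * f 3 + (-1) * f 4 + (-2) * f 5 + (-2) * f 6 + (-2) * f 7 + (-3) * f 8) * h7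

end Pool.Agent.F8.BG.D2
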