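import Pool.Agent.Lib.MP_305fdd_al.F8.BG.D2.Defs
import Mathlib.RingTheory.Localization.FractionRing

/-!
# MP_305fdd_al, Bianchi group for `d = 2`: the matrices of the elements of `F5 ⋊ ℤ`

`PG = PGL₂(K)`, `K` the field of fractions of `O2`; `mm a b c d` is the class of the matrix `[[a, b], [c, d]]`,
`ps : SL₂(O2) →* PG`; `jj : G2 →* PG` is the homomorphism given by the matrices of `t, y1, .., y5`.
-/

set_option autoImplicit false

namespace Pool.Agent.F8.BG.D2

open Pool.Agent.F8 Pool.Agent.F8.BG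
open Pool.Agent.F8.G (SL_ext SL_mul SL_det SL_neg one00 one01 one10 one11)
open scoped QuadraticAlgebra

instance O2_noZero : NoZeroDivisors O2 where
  eq_zero_or_eq_zero_of_mul_eq_zero := by
    intro x z h
    have h1 := congrArg nm h
    rw [nm_mul, nm_zero] at h1
    rcases mul_eq_zero.1 h1 with h2 | h2
    · exact Or.inl (nm_eq_zero h2)
    · exact Or.inr (nm_eq_zero h2)

instance O2_nontrivial : Nontrivial O2 := ⟨0, 1, by decide⟩

instance O2_domain : IsDomain O2 := NoZeroDivisors.to_isDomain O2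

/-- the field of fractions -/
abbrev K2 : Type := FractionRing O2

/-- the embedding -/
abbrev ik : O2 →+* K2 := algebraMap O2 K2

theorem ik_inj : Function.Injective ik := IsFractionRing.injective O2 K2

theorem ik_ne {x : O2} (h : x ≠ 0) : ik x ≠ 0 := by
  rw [← map_zero ik]
  exact fun e => h (ik_inj e)

/-- the scalar matrices -/
def ZZ : Subgroup (GL (Fin 2) K2) where
  carrier := {g | ∃ c : K2, g.val = c • (1 : Matrix (Fin 2) (Fin 2) K2)}
  one_mem' := ⟨1, by rw [one_smul]; rfl⟩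
  mul_mem' := by
    rintro g h ⟨c, hc⟩ ⟨c', hc'⟩
    refine ⟨c * c', ?_⟩
    rw [Units.val_mul, hc, hc', smul_mul_smul_comm, mul_one]
  inv_mem' := by
    rintro g ⟨c, hc⟩
    refine ⟨c⁻¹, ?_⟩
    have h1 : g.val * g⁻¹.val = 1 := g.mul_inv
    rw [hc, smul_mul_assoc, one_mul] at h1
    have h2 : c ≠ 0 := by
      rintro rfl
      rw [zero_smul] at h1
      have := congrFun (congrFun h1 0) 0
      simp at this
    rw [← h1, smul_smul, inv_mul_cancel₀ h2, one_smul]

instance ZZ_normal : ZZ.Normal := ⟨by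
  rintro z ⟨c, hc⟩ g
  refine ⟨c, ?_⟩
  rw [Units.val_mul, Units.val_mul, hc, mul_smul_comm, mul_one, smul_mul_assoc, Units.mul_inv]⟩

/-- `PGL₂(K)` -/
abbrev PG : Type := GL (Fin 2) K2 ⧸ ZZ

theorem det_ne {a b c d : O2} (h : a * d - b * c ≠ 0) :
    (!![ik a, ik b; ik c, ik d] : Matrix (Fin 2) (Fin 2) K2).det ≠ 0 := by
  rw [Matrix.det_fin_two_of, ← map_mul, ← map_mul, ← map_sub]
  exact ik_ne h

/-- the matrix as an element of `GL₂(K)` -/
noncomputable def gm (a b c d : O2) (h : a * d - b * c ≠ 0) : GL (Fin 2) K2 :=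
  Matrix.GeneralLinearGroup.mkOfDetNeZero !![ik a, ik b; ik c, ik d] (det_ne h)

theorem gm_val (a b c d : O2) (h : a * d - b * c ≠ 0) :
    (gm a b c d h).val = !![ik a, ik b; ik c, ik d] := rfl

/-- the class of a matrix -/
noncomputable def mm (a b c d : O2) (h : a * d - b * c ≠ 0) : PG := QuotientGroup.mk (gm a b c d h)

theorem mm_eq {a b c d : O2} (h : a * d - b * c ≠ 0) {a' b' c' d' : O2}
    (h' : a' * d' - b' * c' ≠ 0) (x z : O2) (hz : z ≠ 0)
    (e : x * a = z * a' ∧ x * b = z * b' ∧ x * c = z * c' ∧ x * d = z * d') :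
    mm a b c d h = mm a' b' c' d' h' := by
  obtain ⟨e1, e2, e3, e4⟩ := e
  unfold mm
  rw [QuotientGroup.eq]
  refine ⟨ik x / ik z, ?_⟩
  have h1 : (gm a' b' c' d' h').val = (ik x / ik z) • (gm a b c d h).val := by
    have hz' := ik_ne hz
    have key : ∀ u v : O2, x * u = z * v → ik v = (ik x / ik z) * ik u := by
      intro u v huv
      rw [div_mul_eq_mul_div, ← map_mul, huv, map_mul, mul_div_cancel_left₀ _ hz']
    rw [gm_val, gm_val]
    ext i k
    fin_cases i <;> fin_cases k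
    · exact key _ _ e1
    · exact key _ _ e2
    · exact key _ _ e3
    · exact key _ _ e4
  rw [Units.val_mul, h1, mul_smul_comm, Units.inv_mul]

theorem mm_inj {a b c d : O2} {h : a * d - b * c ≠ 0} {a' b' c' d' : O2}
    {h' : a' * d' - b' * c' ≠ 0} (e : mm a b c d h = mm a' b' c' d' h') :
    ∃ x z : O2, x ≠ 0 ∧ z ≠ 0 ∧ x * a = z * a' ∧ x * b = z * b' ∧ x * c = z * c' ∧
      x * d = z * d' := by
  unfold mm at e
  rw [QuotientGroup.eq] at e
  obtain ⟨k, hk⟩ := e
  have h1 : (gm a' b' c' d' h').val = k • (gm a b c d h).val := by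
    have : gm a' b' c' d' h' = gm a b c d h * ((gm a b c d h)⁻¹ * gm a' b' c' d' h') := by group
    conv_lhs => rw [this]
    rw [Units.val_mul, hk, mul_smul_comm, mul_one]
  have hk0 : k ≠ 0 := by
    rintro rfl
    rw [zero_smul] at h1
    have h2 := congrArg Matrix.det h1
    rw [gm_val, Matrix.det_zero] at h2
    exact det_ne h' h2
  obtain ⟨x, z, hz, rfl⟩ := IsFractionRing.div_surjective (A := O2) k
  have hz0 : z ≠ 0 := nonZeroDivisors.ne_zero hz
  have hx0 : x ≠ 0 := by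
    rintro rfl
    apply hk0
    rw [map_zero, zero_div]
  have hz' := ik_ne hz0
  have key : ∀ u v : O2, ik v = (ik x / ik z) * ik u → x * u = z * v := by
    intro u v huv
    apply ik_inj
    rw [map_mul, map_mul, huv]
    field_simp
  rw [gm_val, gm_val] at h1
  refine ⟨x, z, hx0, hz0, ?_, ?_, ?_, ?_⟩
  · exact key _ _ (congrFun (congrFun h1 0) 0)
  · exact key _ _ (congrFun (congrFun h1 0) 1)
  · exact key _ _ (congrFun (congrFun h1 1) 0)
  · exact key _ _ (congrFun (congrFun h1 1) 1)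

theorem mul_ne {a b c d a' b' c' d' : O2} (h : a * d - b * c ≠ 0) (h' : a' * d' - b' * c' ≠ 0) :
    (a * a' + b * c') * (c * b' + d * d') - (a * b' + b * d') * (c * a' + d * c') ≠ 0 := by
  have e : (a * a' + b * c') * (c * b' + d * d') - (a * b' + b * d') * (c * a' + d * c') =
      (a * d - b * c) * (a' * d' - b' * c') := by ring
  rw [e]
  exact mul_ne_zero h h'

theorem mm_mul {a b c d a' b' c' d' : O2} (h : a * d - b * c ≠ 0) (h' : a' * d' - b' * c' ≠ 0) :
    mm a b c d h * mm a' b' c' d' h' = mm (a * a' + b * c') (a * b' + b * d')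
      (c * a' + d * c') (c * b' + d * d') (mul_ne h h') := by
  unfold mm
  rw [← QuotientGroup.mk_mul]
  congr 1
  apply Units.ext
  rw [Units.val_mul, gm_val, gm_val, gm_val, Matrix.mul_fin_two]
  simp only [map_add, map_mul]

theorem mm_one : mm 1 0 0 1 (by decide) = 1 := by
  unfold mm
  rw [← QuotientGroup.mk_one]
  congr 1
  apply Units.ext
  rw [gm_val, map_one, map_zero]
  exact Matrix.one_fin_two.symm

theorem inv_ne {a b c d : O2} (h : a * d - b * c ≠ 0) : d * a - -b * -c ≠ 0 := by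
  have e : d * a - -b * -c = a * d - b * c := by ring
  rw [e]; exact h

theorem mm_inv {a b c d : O2} (h : a * d - b * c ≠ 0) :
    (mm a b c d h)⁻¹ = mm d (-b) (-c) a (inv_ne h) := by
  apply inv_eq_of_mul_eq_one_right
  rw [mm_mul, ← mm_one]
  exact mm_eq _ _ 1 (a * d - b * c) h ⟨by ring, by ring, by ring, by ring⟩

theorem SL_ne (g : SL2 O2) : g.val 0 0 * g.val 1 1 - g.val 0 1 * g.val 1 0 ≠ 0 := by
  rw [SL_det]; exact one_ne_zero

theorem mm_congr {a b c d a' b' c' d' : O2} {h : a * d - b * c ≠ 0} {h' : a' * d' - b' * c' ≠ 0}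
    (e1 : a = a') (e2 : b = b') (e3 : c = c') (e4 : d = d') :
    mm a b c d h = mm a' b' c' d' h' := by
  subst e1 e2 e3 e4; rfl

/-- the class of an element of `SL₂(O2)` -/
noncomputable def ps : SL2 O2 →* PG where
  toFun g := mm (g.val 0 0) (g.val 0 1) (g.val 1 0) (g.val 1 1) (SL_ne g)
  map_one' := by
    rw [← mm_one]
    exact mm_congr one00 one01 one10 one11
  map_mul' g h := by
    rw [mm_mul]
    exact mm_congr (SL_mul _ _ _ _) (SL_mul _ _ _ _) (SL_mul _ _ _ _) (SL_mul _ _ _ _)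

theorem ps_apply (g : SL2 O2) :
    ps g = mm (g.val 0 0) (g.val 0 1) (g.val 1 0) (g.val 1 1) (SL_ne g) := rfl

theorem ps_one (g : SL2 O2) (h : ps g = 1) : g = 1 ∨ g = -1 := by
  rw [ps_apply, ← mm_one] at h
  obtain ⟨x, z, hx, hz, e1, e2, e3, e4⟩ := mm_inj h
  rw [mul_zero] at e2 e3
  have h01 : g.val 0 1 = 0 := (mul_eq_zero.1 e2).resolve_left hx
  have h10 : g.val 1 0 = 0 := (mul_eq_zero.1 e3).resolve_left hx
  have h11 : g.val 0 0 = g.val 1 1 := mul_left_cancel₀ hx (e1.trans e4.symm)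
  have hd := SL_det g
  rw [h01, zero_mul, sub_zero, ← h11] at hd
  have hn : nm (g.val 0 0) = 1 := by
    have h2 := congrArg nm hd
    rw [nm_mul, nm_one] at h2
    exact Int.eq_one_of_mul_eq_one_right (nm_nonneg _) h2
  rcases unit_cases hn with h2 | h2
  · left
    exact SL_ext h2 h01 h10 (h11.symm.trans h2)
  · right
    apply SL_ext
    · rw [SL_neg, one00, h2]
    · rw [SL_neg, one01, h01, neg_zero]
    · rw [SL_neg, one10, h10, neg_zero]
    · rw [SL_neg, one11, ← h11, h2]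

theorem ps_neg (g : SL2 O2) : ps (-g) = ps g := by
  rw [ps_apply, ps_apply]
  apply mm_eq _ _ (-1) 1 (by decide)
  refine ⟨?_, ?_, ?_, ?_⟩ <;> rw [SL_neg] <;> ring

/-! ### The homomorphism `G2 →* PG` -/

/-- an explicit element -/
abbrev zz (a b : ℤ) : O2 := ⟨a, b⟩

/-- `t` -/
noncomputable def Mt : PG := mm (zz 0 1) (zz 1 0) (zz 0 1) (zz 0 0) (by decide)
/-- the matrices of the free generators -/
noncomputable def My : Fin 5 → PG :=
  ![mm (zz 0 0) (zz 1 0) (zz 0 1) (zz 0 (-4)) (by decide),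
    mm (zz 0 0) (zz 1 0) (zz 0 1) (zz 2 1) (by decide),
    mm (zz 1 0) (zz (-2) (-1)) (zz 0 (-1)) (zz (-1) 2) (by decide),
    mm (zz 2 0) (zz (-1) (-1)) (zz (-2) 1) (zz 2 0) (by decide),
    mm (zz 1 (-2)) (zz (-1) 0) (zz 2 (-2)) (zz (-1) 0) (by decide)]

theorem My0 : My 0 = mm (zz 0 0) (zz 1 0) (zz 0 1) (zz 0 (-4)) (by decide) := rfl
theorem My1 : My 1 = mm (zz 0 0) (zz 1 0) (zz 0 1) (zz 2 1) (by decide) := rfl
theorem My2 : My 2 = mm (zz 1 0) (zz (-2) (-1)) (zz 0 (-1)) (zz (-1) 2) (by decide) := rfl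
theorem My3 : My 3 = mm (zz 2 0) (zz (-1) (-1)) (zz (-2) 1) (zz 2 0) (by decide) := rfl
theorem My4 : My 4 = mm (zz 1 (-2)) (zz (-1) 0) (zz 2 (-2)) (zz (-1) 0) (by decide) := rfl

theorem j_rel (i : Fin 5) : Mt * My i * Mt⁻¹ = FreeGroup.lift My (al2 (FreeGroup.of i)) := by
  have h : al2 (FreeGroup.of i) = aw i := al2_of i
  rw [h]
  fin_cases i
  · show Mt * My 0 * Mt⁻¹ = FreeGroup.lift My ((y 1)⁻¹ * (y 4)⁻¹)
    simp only [map_mul, map_inv, FreeGroup.lift_apply_of, Mt, My0, My1, My2, My3, My4, mm_inv,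
      mm_mul]
    exact mm_eq _ _ (zz (-1) 0) (zz 0 1) (by decide) (by decide)
  · show Mt * My 1 * Mt⁻¹ = FreeGroup.lift My ((y 0)⁻¹ * (y 4)⁻¹)
    simp only [map_mul, map_inv, FreeGroup.lift_apply_of, Mt, My0, My1, My2, My3, My4, mm_inv,
      mm_mul]
    exact mm_eq _ _ (zz (-1) 0) (zz 0 1) (by decide) (by decide)
  · show Mt * My 2 * Mt⁻¹ = FreeGroup.lift My ((y 4)⁻¹)
    simp only [map_mul, map_inv, FreeGroup.lift_apply_of, Mt, My0, My1, My2, My3, My4, mm_inv,
      mm_mul]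
    exact mm_eq _ _ (zz (-1) 0) (zz 0 (-1)) (by decide) (by decide)
  · show Mt * My 3 * Mt⁻¹ = FreeGroup.lift My ((y 2)⁻¹ * (y 1)⁻¹)
    simp only [map_mul, map_inv, FreeGroup.lift_apply_of, Mt, My0, My1, My2, My3, My4, mm_inv,
      mm_mul]
    exact mm_eq _ _ (zz (-1) 0) (zz 0 (-1)) (by decide) (by decide)
  · show Mt * My 4 * Mt⁻¹ = FreeGroup.lift My ((y 0)⁻¹ * (y 4)⁻¹ * (y 3)⁻¹)
    simp only [map_mul, map_inv, FreeGroup.lift_apply_of, Mt, My0, My1, My2, My3, My4, mm_inv,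
      mm_mul]
    exact mm_eq _ _ (zz 1 0) (zz 1 0) (by decide) (by decide)

/-- the homomorphism given by the matrices -/
noncomputable def jj : G2 →* PG := liR My Mt j_rel

theorem jj_t : jj gt = Mt := liR_tR j_rel
theorem jj_y (i : Fin 5) : jj (gy i) = My i := liR_of j_rel i
theorem jj_F (w : F5) : jj (iR al2 w) = FreeGroup.lift My w := liR_iR j_rel w

end Pool.Agent.F8.BG.D2
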