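import Pool.Agent.Lib.MP_305fdd_al.F8.BG.D2.Fin
import Pool.Agent.Lib.MP_305fdd_al.F8.PIC7.P_X4

/-!
# MP_305fdd_al, Bianchi group for `d = 2`: conjugation, and the main result of the block G

`p_sur`: a representation `ρ : Λ → SL₂(O2)` with `RhoQ Φ ρ` and with the matched traces modulo `9` (`w ↦ 5`) and modulo
`w` is surjective.
-/

set_option autoImplicit false
set_option linter.unusedSimpArgs false

namespace Pool.Agent.F8.BG.D2

open Pool.Agent.MP_305fdd_al Pool.Agent.Lib.MP_305fdd_al Pool.Agent.F8 Pool.Agent.F8.BG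
  Pool.Agent.F8.AB
open scoped QuadraticAlgebra

theorem r92_apply (g : SL2 O2) : r92 g = (r9 g, r2 g) := rfl

theorem r9_U (z : O2) : r9 (mU z) = mU (evq (-2) 0 (Int.castRingHom (ZMod 9)) 5 (by decide) z) := by
  unfold r9
  apply G.SL_ext
  · show evq (-2) 0 (Int.castRingHom (ZMod 9)) 5 (by decide) 1 = 1
    rw [map_one]
  · rfl
  · show evq (-2) 0 (Int.castRingHom (ZMod 9)) 5 (by decide) 0 = 0
    rw [map_zero]
  · show evq (-2) 0 (Int.castRingHom (ZMod 9)) 5 (by decide) 1 = 1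
    rw [map_one]

theorem r2_U (z : O2) : r2 (mU z) = mU (evq (-2) 0 (Int.castRingHom (ZMod 2)) 0 (by decide) z) := by
  unfold r2
  apply G.SL_ext
  · show evq (-2) 0 (Int.castRingHom (ZMod 2)) 0 (by decide) 1 = 1
    rw [map_one]
  · rfl
  · show evq (-2) 0 (Int.castRingHom (ZMod 2)) 0 (by decide) 0 = 0
    rw [map_zero]
  · show evq (-2) 0 (Int.castRingHom (ZMod 2)) 0 (by decide) 1 = 1
    rw [map_one]

theorem r9_B : r9 (mB O2) = mB (ZMod 9) := by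
  apply G.SL_ext <;> decide

theorem r2_B : r2 (mB O2) = mB (ZMod 2) := by
  apply G.SL_ext <;> decide

theorem U9 (x : ZMod 9) : ((mU x, 1) : SL2 (ZMod 9) × SL2 (ZMod 2)) ∈ r92.range := by
  obtain ⟨n, hn⟩ := ZMod.intCast_surjective x
  refine ⟨mU ⟨10 * n, 0⟩, ?_⟩
  rw [r92_apply, r9_U, r2_U, evq_apply, evq_apply, ← PIC7.X4_mU_zero (ZMod 2)]
  have h9 : (9 : ZMod 9) = 0 := by decide
  have h2 : (2 : ZMod 2) = 0 := by decide
  refine Prod.ext (congrArg mU ?_) (congrArg mU ?_)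
  · simp only [eq_intCast, Int.cast_mul, Int.cast_zero, zero_mul, add_zero, hn]
    push_cast
    linear_combination x * h9
  · simp only [eq_intCast, Int.cast_mul, Int.cast_zero, zero_mul, add_zero]
    push_cast
    linear_combination (5 * (n : ZMod 2)) * h2

theorem U2 (x : ZMod 2) : ((1, mU x) : SL2 (ZMod 9) × SL2 (ZMod 2)) ∈ r92.range := by
  obtain ⟨n, hn⟩ := ZMod.intCast_surjective x
  refine ⟨mU ⟨9 * n, 0⟩, ?_⟩
  rw [r92_apply, r9_U, r2_U, evq_apply, evq_apply, ← PIC7.X4_mU_zero (ZMod 9)]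
  have h9 : (9 : ZMod 9) = 0 := by decide
  have h2 : (2 : ZMod 2) = 0 := by decide
  refine Prod.ext (congrArg mU ?_) (congrArg mU ?_)
  · simp only [eq_intCast, Int.cast_mul, Int.cast_zero, zero_mul, add_zero]
    push_cast
    linear_combination (n : ZMod 9) * h9
  · simp only [eq_intCast, Int.cast_mul, Int.cast_zero, zero_mul, add_zero, hn]
    push_cast
    linear_combination (4 * x) * h2

theorem BB92 : ((mB (ZMod 9), mB (ZMod 2)) : SL2 (ZMod 9) × SL2 (ZMod 2)) ∈ r92.range :=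
  ⟨mB O2, by rw [r92_apply, r9_B, r2_B]⟩

theorem B9 : ((mB (ZMod 9), 1) : SL2 (ZMod 9) × SL2 (ZMod 2)) ∈ r92.range := by
  have h1 := Subgroup.mul_mem _ (Subgroup.mul_mem _ BB92 (U9 (-1))) (Subgroup.inv_mem _ BB92)
  have h2 := Subgroup.mul_mem _ (Subgroup.mul_mem _ (U9 (-1)) h1) (U9 (-1))
  have h3 : ((mB (ZMod 9), 1) : SL2 (ZMod 9) × SL2 (ZMod 2)) =
      (mU (-1), 1) * ((mB (ZMod 9), mB (ZMod 2)) * (mU (-1), 1) *
        (mB (ZMod 9), mB (ZMod 2))⁻¹) * (mU (-1), 1) := by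
    refine Prod.ext ?_ ?_
    · exact PIC7.X4_mB_eq
    · show (1 : SL2 (ZMod 2)) = 1 * (mB (ZMod 2) * 1 * (mB (ZMod 2))⁻¹) * 1
      group
  rw [h3]
  exact h2

theorem B2 : ((1, mB (ZMod 2)) : SL2 (ZMod 9) × SL2 (ZMod 2)) ∈ r92.range := by
  have h1 := Subgroup.mul_mem _ (Subgroup.inv_mem _ B9) BB92
  have h3 : ((1, mB (ZMod 2)) : SL2 (ZMod 9) × SL2 (ZMod 2)) =
      (mB (ZMod 9), 1)⁻¹ * (mB (ZMod 9), mB (ZMod 2)) := by
    refine Prod.ext ?_ ?_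
    · show (1 : SL2 (ZMod 9)) = (mB (ZMod 9))⁻¹ * mB (ZMod 9)
      group
    · show mB (ZMod 2) = (1 : SL2 (ZMod 2))⁻¹ * mB (ZMod 2)
      group
  rw [h3]
  exact h1

theorem z9_cases : ∀ a : ZMod 9, (∃ a' : ZMod 9, a * a' = 1) ∨ 3 * a = 0 := by decide

theorem loc9 (a b c d : ZMod 9) (h : a * d - b * c = 1) :
    (∃ a' : ZMod 9, a * a' = 1) ∨ ∃ c' : ZMod 9, c * c' = 1 := by
  rcases z9_cases a with h1 | h1
  · exact Or.inl h1
  · rcases z9_cases c with h2 | h2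
    · exact Or.inr h2
    · exfalso
      have h3 : (3 : ZMod 9) = 0 := by linear_combination (-3) * h + d * h1 - b * h2
      revert h3
      decide

theorem surj92 (g : SL2 (ZMod 9)) (h : SL2 (ZMod 2)) : ∃ x : SL2 O2, r92 x = (g, h) := by
  have h1 : ((g, 1) : SL2 (ZMod 9) × SL2 (ZMod 2)) ∈ r92.range :=
    PIC7.X4_gen (r92.range.comap (MonoidHom.inl (SL2 (ZMod 9)) (SL2 (ZMod 2)))) U9 B9
      loc9 g
  have h2 : ((1, h) : SL2 (ZMod 9) × SL2 (ZMod 2)) ∈ r92.range :=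
    PIC7.X4_gen (r92.range.comap (MonoidHom.inr (SL2 (ZMod 9)) (SL2 (ZMod 2)))) U2 B2
      PIC7.X4_loc2 h
  have h3 := Subgroup.mul_mem _ h1 h2
  have h4 : ((g, 1) : SL2 (ZMod 9) × SL2 (ZMod 2)) * (1, h) = (g, h) := by
    refine Prod.ext ?_ ?_
    · show g * 1 = g
      group
    · show 1 * h = h
      group
  rw [h4] at h3
  exact h3

theorem dg_r9 (e e' : O2) (h : e * e' = 1) (g : SL2 O2) : r9 (PIC.X4_dg e e' h g) =
    PIC.X4_dg (evq (-2) 0 (Int.castRingHom (ZMod 9)) 5 (by decide) e)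
      (evq (-2) 0 (Int.castRingHom (ZMod 9)) 5 (by decide) e')
      (by rw [← map_mul, h, map_one]) (r9 g) := by
  unfold r9
  rw [PIC.X4_dg_apply, PIC.X4_dg_apply, mx_map]
  apply mx_congr
  · rfl
  · rw [map_mul]; rfl
  · rw [map_mul]; rfl
  · rfl

theorem dg_r2 (e e' : O2) (h : e * e' = 1) (g : SL2 O2) : r2 (PIC.X4_dg e e' h g) =
    PIC.X4_dg (evq (-2) 0 (Int.castRingHom (ZMod 2)) 0 (by decide) e)
      (evq (-2) 0 (Int.castRingHom (ZMod 2)) 0 (by decide) e')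
      (by rw [← map_mul, h, map_one]) (r2 g) := by
  unfold r2
  rw [PIC.X4_dg_apply, PIC.X4_dg_apply, mx_map]
  apply mx_congr
  · rfl
  · rw [map_mul]; rfl
  · rw [map_mul]; rfl
  · rfl

theorem dg_rdq (m : ℕ) (e e' : O2) (h : e * e' = 1) (g : SL2 O2) :
    rdq (-2) 0 m (PIC.X4_dg e e' h g) =
    PIC.X4_dg (Qfm (-2) 0 (Int.castRingHom (ZMod m)) e) (Qfm (-2) 0 (Int.castRingHom (ZMod m)) e')
      (by rw [← map_mul, h, map_one]) (rdq (-2) 0 m g) := by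
  unfold rdq
  rw [PIC.X4_dg_apply, PIC.X4_dg_apply, mx_map]
  apply mx_congr
  · rfl
  · rw [map_mul]; rfl
  · rw [map_mul]; rfl
  · rfl

/-- units of `ℤ/9`, up to squares -/
theorem units9 : ∀ u v : ZMod 9, u * v = 1 → ∃ s s' : ZMod 9, s * s' = 1 ∧
    (s' * s' * u = 1 ∨ s' * s' * u = -1) := by
  decide

/-- the unit `e = ±1` -/
theorem ex_e (u : ZMod 9) (h : u = 1 ∨ u = -1) : ∃ e e' : O2, e * e' = 1 ∧
    evq (-2) 0 (Int.castRingHom (ZMod 9)) 5 (by decide) e = u ∧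
    evq (-2) 0 (Int.castRingHom (ZMod 2)) 0 (by decide) e = 1 := by
  rcases h with rfl | rfl
  · exact ⟨1, 1, one_mul 1, map_one _, map_one _⟩
  · refine ⟨-1, -1, by ring, ?_, ?_⟩
    · rw [map_neg, map_one]
    · rw [map_neg, map_one]
      decide

/-- lifting of the conjugation -/
theorem lift92 {Λ : Type} [Group Λ] (ρ : Λ →* GQ (-2) 0) (r : Λ →* SL2 (ZMod 9))
    (r' : Λ →* SL2 (ZMod 2)) (C D : Matrix (Fin 2) (Fin 2) (ZMod 9))
    (C' D' : Matrix (Fin 2) (Fin 2) (ZMod 2)) (hCD : C * D = 1) (hDC : D * C = 1)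
    (hCD' : C' * D' = 1) (hDC' : D' * C' = 1)
    (hr : ∀ l, (r l).val = C * (r9 (ρ l)).val * D)
    (hr' : ∀ l, (r' l).val = C' * (r2 (ρ l)).val * D') :
    ∃ δ : MulAut (GQ (-2) 0), (∀ g, tr (δ g) = tr g) ∧
      (∀ (m : ℕ) (x z : GQ (-2) 0), rdq (-2) 0 m x = rdq (-2) 0 m z ↔
        rdq (-2) 0 m (δ x) = rdq (-2) 0 m (δ z)) ∧
      ∀ l, r92 (δ (ρ l)) = (r l, r' l) := by
  have hdet : C.det * D.det = 1 := by rw [← Matrix.det_mul, hCD, Matrix.det_one]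
  have hdet' : C'.det * D'.det = 1 := by rw [← Matrix.det_mul, hCD', Matrix.det_one]
  obtain ⟨s, s', hs, hu0⟩ := units9 _ _ hdet
  -- normalise the determinant
  obtain ⟨C₀, hC₀⟩ : ∃ C₀, C₀ = s' • C := ⟨_, rfl⟩
  obtain ⟨D₀, hD₀⟩ : ∃ D₀, D₀ = s • D := ⟨_, rfl⟩
  have e1 : C₀ * D₀ = 1 := by
    rw [hC₀, hD₀, smul_mul_smul_comm, hCD, mul_comm s', hs, one_smul]
  have e2 : D₀ * C₀ = 1 := by
    rw [hC₀, hD₀, smul_mul_smul_comm, hDC, hs, one_smul]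
  have e3 : ∀ l, (r l).val = C₀ * (r9 (ρ l)).val * D₀ := by
    intro l
    rw [hC₀, hD₀, smul_mul_assoc, smul_mul_smul_comm, mul_comm s', hs, one_smul]
    exact hr l
  have e4 : C₀.det = s' * s' * C.det := by
    rw [hC₀, Matrix.det_smul, Fintype.card_fin]; ring
  obtain ⟨e, e', he, hu, hu'⟩ := ex_e C₀.det (by rw [e4]; exact hu0)
  have he9 : evq (-2) 0 (Int.castRingHom (ZMod 9)) 5 (by decide) e *
      evq (-2) 0 (Int.castRingHom (ZMod 9)) 5 (by decide) e' = 1 := by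
    rw [← map_mul, he, map_one]
  have he2 : evq (-2) 0 (Int.castRingHom (ZMod 2)) 0 (by decide) e *
      evq (-2) 0 (Int.castRingHom (ZMod 2)) 0 (by decide) e' = 1 := by
    rw [← map_mul, he, map_one]
  obtain ⟨C₁, hC₁⟩ := PIC.X4_conj C₀ D₀ e1 e2 _ _ he9 hu.symm
  obtain ⟨C₂, hC₂⟩ := PIC.X4_conj C' D' hCD' hDC' _ _ he2
    ((PIC7.X4_units2 _ _ hdet').trans hu'.symm)
  obtain ⟨γ, hγ⟩ := surj92 C₁ C₂
  rw [r92_apply] at hγ
  have hγ9 : r9 γ = C₁ := congrArg Prod.fst hγ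
  have hγ2 : r2 γ = C₂ := congrArg Prod.snd hγ
  have he' : e' * e = 1 := by rw [mul_comm]; exact he
  -- the automorphism
  have inv1 : ∀ g : GQ (-2) 0, PIC.X4_dg e' e he' (PIC.X4_dg e e' he g) = g := by
    intro g
    rw [PIC.X4_dg_apply, PIC.X4_dg_apply]
    conv_rhs => rw [eq_mx g]
    apply mx_congr
    · rfl
    · rw [mx_01, ← mul_assoc, he', one_mul]
    · rw [mx_10, ← mul_assoc, he, one_mul]
    · rfl
  have inv2 : ∀ g : GQ (-2) 0, PIC.X4_dg e e' he (PIC.X4_dg e' e he' g) = g := by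
    intro g
    rw [PIC.X4_dg_apply, PIC.X4_dg_apply]
    conv_rhs => rw [eq_mx g]
    apply mx_congr
    · rfl
    · rw [mx_01, ← mul_assoc, he, one_mul]
    · rw [mx_10, ← mul_assoc, he', one_mul]
    · rfl
  let dd : MulAut (GQ (-2) 0) :=
    { toFun := PIC.X4_dg e e' he
      invFun := PIC.X4_dg e' e he'
      left_inv := inv1
      right_inv := inv2
      map_mul' := map_mul _ }
  refine ⟨dd * MulAut.conj γ, ?_, ?_, ?_⟩
  · intro g
    show tr (PIC.X4_dg e e' he (γ * g * γ⁻¹)) = tr g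
    rw [PIC.X4_dg_tr, PIC.X4_tr_conj]
  · intro m x z
    show _ ↔ rdq (-2) 0 m (PIC.X4_dg e e' he (γ * x * γ⁻¹)) =
      rdq (-2) 0 m (PIC.X4_dg e e' he (γ * z * γ⁻¹))
    constructor
    · intro h
      rw [dg_rdq, dg_rdq]
      simp only [map_mul, h]
    · intro h
      have h1 : ∀ u : GQ (-2) 0, u = γ⁻¹ * PIC.X4_dg e' e he'
          (PIC.X4_dg e e' he (γ * u * γ⁻¹)) * γ := by
        intro u
        rw [inv1]; group
      rw [h1 x, h1 z]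
      rw [map_mul, map_mul, map_mul _ _ γ, map_mul _ γ⁻¹, dg_rdq m e' e he', dg_rdq m e' e he', h]
  · intro l
    show r92 (PIC.X4_dg e e' he (γ * ρ l * γ⁻¹)) = (r l, r' l)
    rw [r92_apply]
    refine Prod.ext ?_ ?_
    · show r9 (PIC.X4_dg e e' he (γ * ρ l * γ⁻¹)) = r l
      have hc : r9 (γ * ρ l * γ⁻¹) = C₁ * r9 (ρ l) * C₁⁻¹ := by
        rw [map_mul, map_mul, map_inv, hγ9]
      rw [dg_r9, hc]
      exact (hC₁ _ _ (e3 l)).symm
    · show r2 (PIC.X4_dg e e' he (γ * ρ l * γ⁻¹)) = r' l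
      have hc : r2 (γ * ρ l * γ⁻¹) = C₂ * r2 (ρ l) * C₂⁻¹ := by
        rw [map_mul, map_mul, map_inv, hγ2]
      rw [dg_r2, hc]
      exact (hC₂ _ _ (hr' l)).symm

instance nontrivial9 : Nontrivial (ZMod 9) := ⟨0, 1, by decide⟩

instance loc_ring9 : IsLocalRing (ZMod 9) := IsLocalRing.of_isUnit_or_isUnit_one_sub_self (by
  have h : ∀ a : ZMod 9, (∃ b, a * b = 1) ∨ ∃ b, (1 - a) * b = 1 := by decide
  intro a
  rcases h a with ⟨b, hb⟩ | ⟨b, hb⟩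
  · exact Or.inl (IsUnit.of_mul_eq_one b hb)
  · exact Or.inr (IsUnit.of_mul_eq_one b hb))

instance loc_ring2 : IsLocalRing (ZMod 2) := IsLocalRing.of_isUnit_or_isUnit_one_sub_self (by
  have h : ∀ a : ZMod 2, (∃ b, a * b = 1) ∨ ∃ b, (1 - a) * b = 1 := by decide
  intro a
  rcases h a with ⟨b, hb⟩ | ⟨b, hb⟩
  · exact Or.inl (IsUnit.of_mul_eq_one b hb)
  · exact Or.inr (IsUnit.of_mul_eq_one b hb))

/-- [BG sur2] MAIN RESULT of the block G for `d = 2` -/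
def S_sur : Prop := ∀ (Λ : Type) [Group Λ] [Group.FG Λ] (Φ : NatBij (GQ (-2) 0) Λ)
  (ρ : Λ →* GQ (-2) 0), RhoQ Φ ρ → (∀ l, tr (r9 (ρ l)) = tr (Φ.toFun _ r9 l)) →
  (∀ l, tr (r2 (ρ l)) = tr (Φ.toFun _ r2 l)) → Function.Surjective ρ

theorem p_sur (hX3 : S_X3) (hfi : S_fi) (hcon : S_con) : S_sur := by
  intro Λ _ _ Φ ρ hρ t9 t2
  have g9 : ∀ g, ∃ l, Φ.toFun _ r9 l = r9 g := by
    intro g
    have : r9 g ∈ (Φ.toFun _ r9).range := by
      rw [Φ.range_eq]; exact ⟨g, rfl⟩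
    exact this
  have g2 : ∀ g, ∃ l, Φ.toFun _ r2 l = r2 g := by
    intro g
    have : r2 g ∈ (Φ.toFun _ r2).range := by
      rw [Φ.range_eq]; exact ⟨g, rfl⟩
    exact this
  obtain ⟨C, D, hCD, hDC, hC⟩ := hX3 (ZMod 9) Λ (Φ.toFun _ r9) (r9.comp ρ) t9 (by
    obtain ⟨l, hl⟩ := g9 (mU 1)
    refine ⟨l, ?_⟩
    rw [hl, r9_U, map_one]) (by
    obtain ⟨l, hl⟩ := g9 (mB _)
    exact ⟨l, hl.trans r9_B⟩)
  obtain ⟨C', D', hCD', hDC', hC'⟩ := hX3 (ZMod 2) Λ (Φ.toFun _ r2) (r2.comp ρ) t2 (by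
    obtain ⟨l, hl⟩ := g2 (mU 1)
    refine ⟨l, ?_⟩
    rw [hl, r2_U, map_one]) (by
    obtain ⟨l, hl⟩ := g2 (mB _)
    exact ⟨l, hl.trans r2_B⟩)
  obtain ⟨δ, h1, h2, h3⟩ := lift92 ρ (Φ.toFun _ r9) (Φ.toFun _ r2) C D C' D' hCD hDC hCD' hDC' hC
    hC'
  have hρ' : RhoQ Φ (δ.toMonoidHom.comp ρ) := by
    refine ⟨?_, ?_⟩
    · intro m _ l
      rw [← hρ.ker m l]
      have h4 := h2 m (ρ l) 1
      rw [map_one, map_one, map_one] at h4
      exact h4.symm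
    · intro m _ g
      obtain ⟨l, hl⟩ := hρ.img m (δ.symm g)
      refine ⟨l, ?_⟩
      have h4 := (h2 m _ _).1 hl
      rw [MulEquiv.apply_symm_apply] at h4
      exact h4
  have h92 : ∀ l, r92 ((δ.toMonoidHom.comp ρ) l) = Φ.toFun _ r92 l := by
    intro l
    have e1 : (MonoidHom.fst (SL2 (ZMod 9)) (SL2 (ZMod 2))).comp r92 = r9 := rfl
    have e2 : (MonoidHom.snd (SL2 (ZMod 9)) (SL2 (ZMod 2))).comp r92 = r2 := rfl
    have f1 := Φ.nat (MonoidHom.fst (SL2 (ZMod 9)) (SL2 (ZMod 2))) r92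
    have f2 := Φ.nat (MonoidHom.snd (SL2 (ZMod 9)) (SL2 (ZMod 2))) r92
    rw [e1] at f1
    rw [e2] at f2
    show r92 (δ (ρ l)) = _
    rw [h3 l, f1, f2]
    rfl
  have hs := p_G2 hfi hcon Λ Φ (δ.toMonoidHom.comp ρ) hρ' h92
  intro g
  obtain ⟨l, hl⟩ := hs (δ g)
  exact ⟨l, δ.injective hl⟩

end Pool.Agent.F8.BG.D2
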